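import Pool.Agent.Y107.VC.Defs3

/-!
# Signed automorphisms of the Fano plane
-/

set_option autoImplicit false
set_option maxHeartbeats 400000

namespace Pool.Agent.Y107.VC

open FF Equiv

theorem fano_comb : ∀ S : Finset (Fin 7), S.Nonempty →
    (∀ j, Even (S.filter fun c => fanoLine j c = true).card) → S.card = 4 ∧
      ∀ a ∈ S, ∀ b ∈ S, a ≠ b → ∃ p q : Fin 7, p ∉ S ∧ q ∉ S ∧
        ∀ j, ∃ j', ∀ c, fanoLine j (swap a b (swap p q c)) = fanoLine j' c := by
  decide +kernel

/-- No invariant holomorphic forms on `C^7` if the genus of `C` is at most three. -/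
theorem fano_noForms {T : Type} (g : T → ℕ) (t : T) (hg : g t ≤ 3) :
    NoForms g (fun _ => t) FanoSet := by
  classical
  intro i u hi hu hinv
  funext β
  by_contra hβ
  have hβ' : u β ≠ 0 := hβ
  obtain ⟨hinj, hcomp⟩ := hu.1 β hβ'
  let S : Finset (Fin 7) := Finset.univ.image fun l => (β l).1
  have hS : S.Nonempty := ⟨(β ⟨0, hi⟩).1, Finset.mem_image_of_mem _ (Finset.mem_univ _)⟩
  have hScard : S.card = i := by
    rw [Finset.card_image_of_injective _ hinj, Finset.card_univ, Fintype.card_fin]
  have heven : ∀ j, Even (S.filter fun c => fanoLine j c = true).card := by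
    intro j
    have h1 := hinv ⟨1, fanoLine j⟩ (Or.inl ⟨rfl, j, rfl⟩) β
    have h2 : (fun l => ((⟨1, fanoLine j⟩ : SP (Fin 7)).σ (β l).1, (β l).2)) = β := rfl
    rw [h2] at h1
    have h3 : ∏ l, (if fanoLine j (β l).1 = true then (-1 : ℚ) else 1) = 1 :=
      mul_right_cancel₀ hβ' (h1.trans (one_mul _).symm)
    have h4 : (S.filter fun c => fanoLine j c = true).card =
        (Finset.univ.filter fun l => fanoLine j (β l).1 = true).card := by
      rw [Finset.filter_image, Finset.card_image_of_injective _ hinj]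
    rw [h4]
    rw [Finset.prod_ite, Finset.prod_const, Finset.prod_const_one, mul_one] at h3
    exact neg_one_pow_eq_one_iff_even (by norm_num) |>.1 h3
  obtain ⟨h4, hswap⟩ := fano_comb S hS heven
  rw [hScard] at h4
  subst h4
  -- two of the four forms have the same index
  obtain ⟨l, l', hll, hγ⟩ : ∃ l l' : Fin 4, l ≠ l' ∧ (β l).2 = (β l').2 := by
    have h5 : ∀ l, ∃ γ : Fin (g t), (β l).2 = ⟨t, γ⟩ := by
      intro l
      have h6 := hcomp l
      rcases h7 : (β l).2 with ⟨t', γ⟩
      rw [h7] at h6
      simp only at h6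
      subst h6
      exact ⟨γ, rfl⟩
    choose γ hγ using h5
    have h6 : ¬ Function.Injective γ := by
      intro h7
      have h8 := Fintype.card_le_of_injective γ h7
      rw [Fintype.card_fin, Fintype.card_fin] at h8
      omega
    unfold Function.Injective at h6
    push Not at h6
    obtain ⟨l, l', h7, h8⟩ := h6
    exact ⟨l, l', h8, by rw [hγ, hγ, h7]⟩
  have hmem : ∀ m, (β m).1 ∈ S := fun m => Finset.mem_image_of_mem _ (Finset.mem_univ _)
  obtain ⟨p, r, hp, hr, hlines⟩ := hswap (β l).1 (hmem l) (β l').1 (hmem l')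
    (fun h => hll (hinj h))
  have h1 := hinv ⟨swap (β l).1 (β l').1 * swap p r, fun _ => false⟩ (Or.inr ⟨fun _ => rfl, hlines⟩) β
  have h2 : (fun m => ((⟨swap (β l).1 (β l').1 * swap p r, fun _ => false⟩ : SP (Fin 7)).σ (β m).1,
      (β m).2)) = fun m => β (swap l l' m) := by
    funext m
    have h3 : swap p r (β m).1 = (β m).1 :=
      swap_apply_of_ne_of_ne (fun h => hp (h ▸ hmem m)) (fun h => hr (h ▸ hmem m))
    refine Prod.ext ?_ ?_
    · change swap (β l).1 (β l').1 (swap p r (β m).1) = _
      rw [h3]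
      rcases eq_or_ne m l with rfl | hm
      · rw [swap_apply_left, swap_apply_left]
      rcases eq_or_ne m l' with rfl | hm'
      · rw [swap_apply_right, swap_apply_right]
      rw [swap_apply_of_ne_of_ne hm hm', swap_apply_of_ne_of_ne (fun h => hm (hinj h))
        (fun h => hm' (hinj h))]
    · change (β m).2 = _
      rcases eq_or_ne m l with rfl | hm
      · rw [swap_apply_left, hγ]
      rcases eq_or_ne m l' with rfl | hm'
      · rw [swap_apply_right, hγ]
      rw [swap_apply_of_ne_of_ne hm hm']
  rw [h2, hu.2 (swap l l') β, Perm.sign_swap hll] at h1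
  simp only [Bool.false_eq_true, if_false, Finset.prod_const_one, one_mul, Units.val_neg,
    Units.val_one, Int.cast_neg, Int.cast_one, neg_mul] at h1
  apply hβ'
  linarith

end Pool.Agent.Y107.VC
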