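import Mathlib

/-!
# Determinants of determinants
-/

set_option autoImplicit false
set_option maxHeartbeats 400000

namespace Pool.Agent.Y107.VC

open Equiv

section

variable {T : Type} [Fintype T] [DecidableEq T]

/-- The permutation of `Fin n × Σ t, Fin (d t)` given by `σ` and `τ`. -/
def PP {n : ℕ} {d : T → ℕ} (s : Perm (Fin n) × (Fin n → ∀ t, Perm (Fin (d t)))) :
    Perm (Fin n × Σ t, Fin (d t)) :=
  Equiv.prodShear s.1 fun j => Equiv.sigmaCongrRight (s.2 j)

theorem PP_apply {n : ℕ} {d : T → ℕ} (s : Perm (Fin n) × (Fin n → ∀ t, Perm (Fin (d t))))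
    (p : Fin n × Σ t, Fin (d t)) : PP s p = (s.1 p.1, ⟨p.2.1, s.2 p.1 p.2.1 p.2.2⟩) := rfl

theorem sign_sigmaCongrRight {d : T → ℕ} (τ : ∀ t, Perm (Fin (d t))) :
    Perm.sign (Equiv.sigmaCongrRight τ : Perm (Σ t, Fin (d t))) = ∏ t, Perm.sign (τ t) := by
  let f : (∀ t, Perm (Fin (d t))) →* ℤˣ := Perm.sign.comp (Perm.sigmaCongrRightHom fun t => Fin (d t))
  let g : (∀ t, Perm (Fin (d t))) →* ℤˣ :=
    { toFun := fun τ => ∏ t, Perm.sign (τ t)
      map_one' := by simp
      map_mul' := fun a b => by simp [Finset.prod_mul_distrib] }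
  have h : f = g := by
    refine MonoidHom.pi_ext fun t σ => ?_
    change Perm.sign (Equiv.sigmaCongrRight (Pi.mulSingle t σ : ∀ t, Perm (Fin (d t))) :
      Perm (Σ t, Fin (d t))) =
      ∏ s, Perm.sign ((Pi.mulSingle t σ : ∀ t, Perm (Fin (d t))) s)
    have h1 : ∏ s, Perm.sign ((Pi.mulSingle t σ : ∀ t, Perm (Fin (d t))) s) = Perm.sign σ := by
      rw [Finset.prod_eq_single t]
      · rw [Pi.mulSingle_eq_same]
      · intro s _ hs
        rw [Pi.mulSingle_eq_of_ne hs, Perm.sign_one]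
      · intro h
        exact absurd (Finset.mem_univ _) h
    rw [h1]
    clear h1
    induction σ using Perm.swap_induction_on with
    | one =>
      rw [Pi.mulSingle_one]
      have h2 : (Equiv.sigmaCongrRight (1 : ∀ t, Perm (Fin (d t))) : Perm (Σ t, Fin (d t))) = 1 :=
        rfl
      rw [h2, Perm.sign_one, Perm.sign_one]
    | swap_mul σ x y hxy ih =>
      have h2 : (Equiv.sigmaCongrRight (Pi.mulSingle t (swap x y * σ) : ∀ t, Perm (Fin (d t))) :
          Perm (Σ t, Fin (d t))) =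
          swap (⟨t, x⟩ : Σ t, Fin (d t)) ⟨t, y⟩ * Equiv.sigmaCongrRight (Pi.mulSingle t σ) := by
        ext1 ⟨s, i⟩
        by_cases hs : s = t
        · subst hs
          change (⟨s, (Pi.mulSingle s (swap x y * σ) : ∀ t, Perm (Fin (d t))) s i⟩ :
            Σ t, Fin (d t)) = swap (⟨s, x⟩ : Σ t, Fin (d t)) ⟨s, y⟩
              ⟨s, (Pi.mulSingle s σ : ∀ t, Perm (Fin (d t))) s i⟩
          rw [Pi.mulSingle_eq_same, Pi.mulSingle_eq_same, Perm.mul_apply]
          by_cases h3 : σ i = x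
          · rw [h3, swap_apply_left, swap_apply_left]
          · by_cases h4 : σ i = y
            · rw [h4, swap_apply_right, swap_apply_right]
            · rw [swap_apply_of_ne_of_ne h3 h4, swap_apply_of_ne_of_ne]
              · intro h5
                exact h3 (eq_of_heq (Sigma.mk.inj h5).2)
              · intro h5
                exact h4 (eq_of_heq (Sigma.mk.inj h5).2)
        · change (⟨s, (Pi.mulSingle t (swap x y * σ) : ∀ t, Perm (Fin (d t))) s i⟩ :
            Σ t, Fin (d t)) = swap (⟨t, x⟩ : Σ t, Fin (d t)) ⟨t, y⟩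
              ⟨s, (Pi.mulSingle t σ : ∀ t, Perm (Fin (d t))) s i⟩
          rw [Pi.mulSingle_eq_of_ne hs, Pi.mulSingle_eq_of_ne hs, swap_apply_of_ne_of_ne]
          · intro h5
            exact hs (Sigma.mk.inj h5).1
          · intro h5
            exact hs (Sigma.mk.inj h5).1
      rw [h2, Perm.sign_mul, Perm.sign_mul, ih, Perm.sign_swap hxy, Perm.sign_swap]
      intro h5
      exact hxy (eq_of_heq (Sigma.mk.inj h5).2)
  exact DFunLike.congr_fun h τ

theorem sign_PP {n : ℕ} {d : T → ℕ} (s : Perm (Fin n) × (Fin n → ∀ t, Perm (Fin (d t)))) :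
    Perm.sign (PP s) = Perm.sign s.1 ^ (∑ t, d t) * ∏ j, ∏ t, Perm.sign (s.2 j t) := by
  have h : PP s = Equiv.prodCongrLeft (fun _ : (Σ t, Fin (d t)) => s.1) *
      Equiv.prodCongrRight (fun j => (Equiv.sigmaCongrRight (s.2 j) : Perm (Σ t, Fin (d t)))) := by
    ext1 p
    rfl
  rw [h, Perm.sign_mul, Perm.sign_prodCongrLeft, Perm.sign_prodCongrRight, Finset.prod_const,
    Finset.card_univ, Fintype.card_sigma]
  simp only [Fintype.card_fin, sign_sigmaCongrRight]

/-- The block of a coloring. -/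
noncomputable def MM {n : ℕ} {d g : T → ℕ} (c : Fin n × (Σ t, Fin (d t)) → Σ t, Fin (g t))
    (Y : (Σ t, Fin (g t)) → (Fin n × (Σ t, Fin (d t))) → ℚ) : Matrix (Fin n) (Fin n) ℚ :=
  Matrix.of fun j l => ∏ t, Matrix.det (Matrix.of fun i i' : Fin (d t) =>
    Y (c (j, ⟨t, i⟩)) (l, ⟨t, i'⟩))

theorem MM_apply {n : ℕ} {d g : T → ℕ} (c : Fin n × (Σ t, Fin (d t)) → Σ t, Fin (g t))
    (Y : (Σ t, Fin (g t)) → (Fin n × (Σ t, Fin (d t))) → ℚ) (j l : Fin n) :
    MM c Y j l = ∏ t, Matrix.det (Matrix.of fun i i' : Fin (d t) =>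
      Y (c (j, ⟨t, i⟩)) (l, ⟨t, i'⟩)) := rfl

theorem det_MM {n : ℕ} {d g : T → ℕ} (hn : ∏ t, (g t).choose (d t) < n)
    (c : Fin n × (Σ t, Fin (d t)) → Σ t, Fin (g t)) (hc : ∀ p, (c p).1 = p.2.1)
    (Y : (Σ t, Fin (g t)) → (Fin n × (Σ t, Fin (d t))) → ℚ) : (MM c Y).det = 0 := by
  classical
  have h1 : ∀ j t (i : Fin (d t)), ∃ r : Fin (g t), c (j, ⟨t, i⟩) = ⟨t, r⟩ := by
    intro j t i
    have h2 := hc (j, ⟨t, i⟩)
    rcases h3 : c (j, ⟨t, i⟩) with ⟨s, r⟩
    rw [h3] at h2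
    change s = t at h2
    subst h2
    exact ⟨r, rfl⟩
  choose col hcol using h1
  by_cases hinj : ∀ j t, Function.Injective (col j t)
  swap
  · push Not at hinj
    obtain ⟨j, t, h⟩ := hinj
    unfold Function.Injective at h
    push Not at h
    obtain ⟨i, i', hii, hne⟩ := h
    refine Matrix.det_eq_zero_of_row_eq_zero j fun l => ?_
    rw [MM_apply]
    refine Finset.prod_eq_zero (Finset.mem_univ t) ?_
    refine Matrix.det_zero_of_row_eq hne ?_
    funext i''
    rw [Matrix.of_apply, Matrix.of_apply, hcol, hcol, hii]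
  -- the sets of colours
  let S : Fin n → ∀ t, Finset (Fin (g t)) := fun j t => Finset.univ.image (col j t)
  have hS : ∀ j, S j ∈ Fintype.piFinset fun t => Finset.powersetCard (d t)
      (Finset.univ : Finset (Fin (g t))) := by
    intro j
    rw [Fintype.mem_piFinset]
    intro t
    rw [Finset.mem_powersetCard]
    refine ⟨Finset.subset_univ _, ?_⟩
    rw [Finset.card_image_of_injective _ (hinj j t), Finset.card_univ, Fintype.card_fin]
  obtain ⟨j, -, j', -, hjj, hSS⟩ := Finset.exists_ne_map_eq_of_card_lt_of_maps_to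
    (s := (Finset.univ : Finset (Fin n))) (t := Fintype.piFinset fun t =>
      Finset.powersetCard (d t) (Finset.univ : Finset (Fin (g t)))) (f := S) (by
      rw [Fintype.card_piFinset, Finset.card_univ, Fintype.card_fin]
      simp only [Finset.card_powersetCard, Finset.card_univ, Fintype.card_fin]
      exact hn) (fun j _ => hS j)
  have hρ : ∀ t, ∃ ρ : Perm (Fin (d t)), ∀ i, col j' t i = col j t (ρ i) := by
    intro t
    have h2 : ∀ i, ∃ i', col j t i' = col j' t i := by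
      intro i
      have h3 : col j' t i ∈ S j' t := Finset.mem_image_of_mem _ (Finset.mem_univ i)
      rw [← hSS] at h3
      obtain ⟨i', -, hi'⟩ := Finset.mem_image.1 h3
      exact ⟨i', hi'⟩
    choose ρ hρ using h2
    have h3 : Function.Injective ρ := by
      intro a b hab
      apply hinj j' t
      rw [← hρ, ← hρ, hab]
    exact ⟨Equiv.ofBijective ρ (Finite.injective_iff_bijective.1 h3), fun i => (hρ i).symm⟩
  choose ρ hρ using hρ
  have hrow : ∀ l, MM c Y j' l = (∏ t, ((Perm.sign (ρ t) : ℤ) : ℚ)) * MM c Y j l := by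
    intro l
    rw [MM_apply, MM_apply, ← Finset.prod_mul_distrib]
    refine Finset.prod_congr rfl fun t _ => ?_
    rw [← Matrix.det_permute]
    congr 1
    ext i i'
    rw [Matrix.submatrix_apply, Matrix.of_apply, Matrix.of_apply, hcol, hρ, id, hcol]
  have h2 : MM c Y = (MM c Y).updateRow j' ((∏ t, ((Perm.sign (ρ t) : ℤ) : ℚ)) •
      fun l => MM c Y j l) := by
    ext a b
    by_cases ha : a = j'
    · subst ha
      rw [Matrix.updateRow_self, hrow]
      rfl
    · rw [Matrix.updateRow_ne ha]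
  have h3 : ((MM c Y).updateRow j' (fun l => MM c Y j l)).det = 0 :=
    Matrix.det_updateRow_eq_zero hjj
  rw [h2, Matrix.det_updateRow_smul, h3, mul_zero]

theorem van_alt {n : ℕ} {d g : T → ℕ} (hn : ∏ t, (g t).choose (d t) < n)
    (c : Fin n × (Σ t, Fin (d t)) → Σ t, Fin (g t)) (hc : ∀ p, (c p).1 = p.2.1)
    (Y : (Σ t, Fin (g t)) → (Fin n × (Σ t, Fin (d t))) → ℚ) :
    ∑ s : Perm (Fin n) × (Fin n → ∀ t, Perm (Fin (d t))), ((Perm.sign s.1 : ℤ) : ℚ) *
      (∏ j, ∏ t, ((Perm.sign (s.2 j t) : ℤ) : ℚ)) * ∏ p, Y (c p) (PP s p) = 0 := by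
  rw [Fintype.sum_prod_type, ← det_MM hn c hc Y, ← Matrix.det_transpose, Matrix.det_apply']
  refine Finset.sum_congr rfl fun σ _ => ?_
  have h1 : ∏ j, (MM c Y).transpose (σ j) j = ∑ τ : Fin n → ∀ t, Perm (Fin (d t)),
      (∏ j, ∏ t, ((Perm.sign (τ j t) : ℤ) : ℚ)) * ∏ p, Y (c p) (PP (σ, τ) p) := by
    have h2 : ∀ j, (MM c Y).transpose (σ j) j = ∑ ρ : ∀ t, Perm (Fin (d t)),
        ∏ t, (((Perm.sign (ρ t) : ℤ) : ℚ) * ∏ i, Y (c (j, ⟨t, i⟩)) (σ j, ⟨t, ρ t i⟩)) := by
      intro j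
      rw [Matrix.transpose_apply, MM_apply]
      have h3 : ∀ t, Matrix.det (Matrix.of fun i i' : Fin (d t) =>
          Y (c (j, ⟨t, i⟩)) (σ j, ⟨t, i'⟩)) = ∑ ρ : Perm (Fin (d t)),
            ((Perm.sign ρ : ℤ) : ℚ) * ∏ i, Y (c (j, ⟨t, i⟩)) (σ j, ⟨t, ρ i⟩) := by
        intro t
        rw [← Matrix.det_transpose, Matrix.det_apply']
        rfl
      rw [Finset.prod_congr rfl fun t _ => h3 t, Finset.prod_univ_sum, Fintype.piFinset_univ]
    rw [Finset.prod_congr rfl fun j _ => h2 j, Finset.prod_univ_sum, Fintype.piFinset_univ]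
    refine Finset.sum_congr rfl fun τ _ => ?_
    simp only [Finset.prod_mul_distrib, Fintype.prod_prod_type, Fintype.prod_sigma]
    rfl
  rw [h1, Finset.mul_sum]
  refine Finset.sum_congr rfl fun τ _ => ?_
  rw [mul_assoc]

end

end Pool.Agent.Y107.VC
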