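import Mathlib
import Pool.Agent.Helper386.D5V.Helper386_FF_Riemann

/-!
# Zero-cycles on products of curves

Smooth projective curves over a field `k` are given by their function fields `K`; the points are
the normalised discrete valuations `FF.Place k K` (trivial on `k`).
-/

set_option autoImplicit false

namespace Pool.Agent.Y107.VC

open FF

section

variable {k : Type} [Field k] {K F : Type} [Field K] [Field F] [Algebra k K] [Algebra k F]

/-- The place `w` of `F` lies over the place `v` of `K` with respect to the embedding `e`. -/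
def Lies (e : K →ₐ[k] F) (w : Place k F) (v : Place k K) : Prop :=
  ∃ m : ℕ, 0 < m ∧ ∀ f : K, w.ord (e f) = m * v.ord f

/-- The maps on points given by the morphisms from the smooth projective curve with function
field `F` to the smooth projective curve with function field `K`: constant maps, and the maps
given by the embeddings of `K` into `F`. -/
def IsMor (φ : Place k F → Place k K) : Prop :=
  (∃ v, ∀ w, φ w = v) ∨ ∃ e : K →ₐ[k] F, ∀ w, Lies e w (φ w)

/-- The push forward under `φ` of the divisor of the function `h` on the curve with function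
field `F`, as a cycle with rational coefficients. -/
noncomputable def pd [CharZero k] [IsFF k F] {X : Type} (h : F) (φ : Place k F → X) : X →₀ ℚ :=
  (divisor k h).sum fun w n => Finsupp.single (φ w) (n : ℚ)

end

section

variable (k : Type) [Field k] [CharZero k]

/-- The zero-cycles rationally equivalent to zero on the product of the curves with function
fields `K i`: the span of the push forwards of the divisors of functions on smooth projective
curves mapping to the product. -/
noncomputable def Rat {ι : Type} (K : ι → Type) [∀ i, Field (K i)] [∀ i, Algebra k (K i)] :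
    Submodule ℚ ((∀ i, Place k (K i)) →₀ ℚ) :=
  Submodule.span ℚ {c | ∃ (F : Type) (_ : Field F) (_ : Algebra k F) (_ : IsFF k F) (h : F)
    (φ : Place k F → ∀ i, Place k (K i)), h ≠ 0 ∧ (∀ i, IsMor fun w => φ w i) ∧ c = pd h φ}

/-- The genus (for `k` algebraically closed): the smallest `g` with `deg D + 1 - g ≤ l(D)` for all
divisors `D`. -/
noncomputable def genus (K : Type) [Field K] [Algebra k K] [IsFF k K] : ℕ :=
  sInf {g : ℕ | ∀ D : Place k K →₀ ℤ, (D.sum fun _ n => n) + 1 - g ≤ ell D}

/-- The zero-cycles rationally equivalent to zero on the powers of the disjoint union of the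
curves with function fields `K t`. -/
noncomputable def RatU {T : Type} (κ : Type) (K : T → Type) [∀ t, Field (K t)]
    [∀ t, Algebra k (K t)] : Submodule ℚ ((κ → Σ t, Place k (K t)) →₀ ℚ) :=
  Submodule.span ℚ {c | ∃ (F : Type) (_ : Field F) (_ : Algebra k F) (_ : IsFF k F) (h : F)
    (φ : Place k F → κ → Σ t, Place k (K t)), h ≠ 0 ∧
    (∀ i, ∃ t, ∃ ψ : Place k F → Place k (K t), IsMor ψ ∧ ∀ w, φ w i = ⟨t, ψ w⟩) ∧ c = pd h φ}

end

theorem ext_finite {n : ℕ} {I : Type} {P : I → Type} (a : Fin n → (∀ i, P i) →₀ ℚ) :
    (Function.support fun x : ∀ p : Fin n × I, P p.2 => ∏ j, a j fun i => x (j, i)).Finite := by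
  classical
  refine Set.Finite.subset (Finset.finite_toSet ((Fintype.piFinset fun j =>
    (a j).support).image fun y (p : Fin n × I) => y p.1 p.2)) fun x hx => ?_
  rw [Finset.coe_image]
  refine ⟨fun j i => x (j, i), ?_, rfl⟩
  rw [Finset.mem_coe, Fintype.mem_piFinset]
  intro j
  rw [Finsupp.mem_support_iff]
  exact Finset.prod_ne_zero_iff.1 hx j (Finset.mem_univ j)

/-- The exterior product of `n` zero-cycles on the product of the `P i`, a zero-cycle on the
`n`-th power of this product. -/
noncomputable def ext {n : ℕ} {I : Type} {P : I → Type} (a : Fin n → (∀ i, P i) →₀ ℚ) :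
    (∀ p : Fin n × I, P p.2) →₀ ℚ :=
  Finsupp.ofSupportFinite (fun x => ∏ j, a j fun i => x (j, i)) (ext_finite a)

section

variable {k : Type} [Field k] {T : Type} {K : T → Type} [∀ t, Field (K t)]
  [∀ t, Algebra k (K t)] {d : T → ℕ}

/-- The points of `∏ C_t^{d_t}`. -/
abbrev Pts (k : Type) [Field k] {T : Type} (K : T → Type) [∀ t, Field (K t)]
    [∀ t, Algebra k (K t)] (d : T → ℕ) : Type := ∀ i : Σ t, Fin (d t), Place k (K i.1)

/-- The action of the product of the symmetric groups `S_{d_t}` on `∏ C_t^{d_t}`. -/
def permPts (τ : ∀ t, Equiv.Perm (Fin (d t))) (x : Pts k K d) : Pts k K d :=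
  fun i => x ⟨i.1, τ i.1 i.2⟩

/-- The cycle is symmetric, that is, it is the pull back of a zero-cycle with rational coefficients
on the product of the symmetric powers `C_t^(d_t)`. -/
def Symm (a : Pts k K d →₀ ℚ) : Prop :=
  ∀ τ : ∀ t, Equiv.Perm (Fin (d t)), Finsupp.mapDomain (permPts τ) a = a

/-- The projection forgetting the factor with index `e`. -/
def forget (e : Σ t, Fin (d t)) (x : Pts k K d) : ∀ i : {i // i ≠ e}, Place k (K i.1.1) :=
  fun i => x i.1

/-- The push forwards to the products with one factor less are rationally equivalent to zero. -/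
def Primitive [CharZero k] (a : Pts k K d →₀ ℚ) : Prop :=
  ∀ e : Σ t, Fin (d t), Finsupp.mapDomain (forget e) a ∈
    Rat k fun i : {i : Σ t, Fin (d t) // i ≠ e} => K i.1.1

/-- The sum of the `sgn(σ)^N a_σ(1) × ... × a_σ(n)`. -/
noncomputable def altExt {n : ℕ} (N : ℕ) (a : Fin n → Pts k K d →₀ ℚ) :
    (∀ p : Fin n × Σ t, Fin (d t), Place k (K p.2.1)) →₀ ℚ :=
  ∑ σ : Equiv.Perm (Fin n), ((Equiv.Perm.sign σ : ℤ) : ℚ) ^ N •
    ext (P := fun i : Σ t, Fin (d t) => Place k (K i.1)) fun j => a (σ j)

end

end Pool.Agent.Y107.VC
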