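import Pool.Agent.Y107.VC.Defs
import Pool.Agent.Helper386.D5V.Helper399_OverDefs

/-!
# The filtration on zero-cycles and holomorphic forms on products of curves

`C` is the disjoint union of the curves `C_t`. A point of the power `C^κ` is a word
`x : κ → Σ t, Place k (K t)`; the component of `C^κ` given by `q : κ → T` is `∏ C_(q c)`.
-/

set_option autoImplicit false

namespace Pool.Agent.Y107.VC

open FF

section

variable (k : Type) [Field k] [CharZero k] {T : Type} (K : T → Type) [∀ t, Field (K t)]
  [∀ t, Algebra k (K t)] (κ : Type)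

/-- The `i`-th step of the filtration: the zero-cycles whose push forwards to all products of
fewer than `i` of the factors are rationally equivalent to zero. -/
def Fil (i : ℕ) : Set ((κ → Σ t, Place k (K t)) →₀ ℚ) :=
  {a | ∀ S : Finset κ, S.card < i →
    Finsupp.mapDomain (fun x (c : {c // c ∈ S}) => x c) a ∈ RatU k {c // c ∈ S} K}

end

section

variable {T κ κ' : Type}

/-- The cycle is a cycle on the component `∏ C_(q c)`. -/
def OnComp {P : T → Type} (q : κ → T) (a : (κ → Σ t, P t) →₀ ℚ) : Prop :=
  ∀ x ∈ a.support, ∀ c, (x c).1 = q c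

/-- The morphism whose component with index `c` is the projection to the factor `d` if
`s c = some d` and the constant `e c` if `s c = none`. -/
def mov {X : Type} (s : κ' → Option κ) (e : κ' → X) (x : κ → X) : κ' → X := fun c =>
  match s c with
  | none => e c
  | some d => x d

/-- `α` is the index of a basis element `ω_(α 0) ∧ ... ∧ ω_(α (i-1))` of the holomorphic `i`-forms
on `∏ C_(q c)`, where `ω_(c, γ)` is the pull back from the factor with index `c` of the element
with index `γ` of a basis of the holomorphic 1-forms on the curve `C_(q c)`. -/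
def IsForm {g : T → ℕ} (q : κ → T) {i : ℕ} (α : Fin i → κ × Σ t, Fin (g t)) : Prop :=
  Function.Injective (fun l => (α l).1) ∧ ∀ l, (α l).2.1 = q (α l).1

open Classical in
/-- The coefficient of `ω_α` in the pull back of `ω_α'` under a morphism with components the
projections given by `s` and constants. -/
noncomputable def coef {g : T → ℕ} (s : κ' → Option κ) {i : ℕ}
    (α' : Fin i → κ' × Σ t, Fin (g t)) (α : Fin i → κ × Σ t, Fin (g t)) : ℚ :=
  ∑ π : Equiv.Perm (Fin i), if ∀ l, s (α' (π l)).1 = some (α l).1 ∧ (α' (π l)).2 = (α l).2 then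
    ((Equiv.Perm.sign π : ℤ) : ℚ) else 0

end

section

variable {k : Type} [Field k]

open IntermediateField in
/-- `ι` is the covering involution of a morphism of degree two from the curve with function field
`K` to the projective line. -/
def IsHyp {K : Type} [Field K] [Algebra k K] (ι : K ≃ₐ[k] K) : Prop :=
  ι ≠ AlgEquiv.refl ∧ (∀ f, ι (ι f) = f) ∧
    ∃ f : K, Transcendental k f ∧ Module.finrank k⟮f⟯ K = 2 ∧ ι f = f

variable {T κ κ' : Type} {K : T → Type} [∀ t, Field (K t)] [∀ t, Algebra k (K t)]

/-- The involutions on the points. -/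
noncomputable def flipv (ι : ∀ t, K t ≃ₐ[k] K t) (x : Σ t, Place k (K t)) : Σ t, Place k (K t) :=
  ⟨x.1, x.2.comp (ι x.1)⟩

/-- The composition of the morphism `mov s e` with the involutions of the factors `c` of the target
with `ε c = true`. -/
noncomputable def movS (ι : ∀ t, K t ≃ₐ[k] K t) (s : κ' → Option κ) (ε : κ' → Bool)
    (e : κ' → Σ t, Place k (K t)) (x : κ → Σ t, Place k (K t)) : κ' → Σ t, Place k (K t) :=
  fun c => if ε c then flipv ι (mov s e x c) else mov s e x c

/-- The coefficient of `ω_α` in the pull back of `ω_α'` under `movS ι s ε e` (the involutions act as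
`-1` on the holomorphic 1-forms of the curves). -/
noncomputable def coefS {g : T → ℕ} (s : κ' → Option κ) (ε : κ' → Bool) {i : ℕ}
    (α' : Fin i → κ' × Σ t, Fin (g t)) (α : Fin i → κ × Σ t, Fin (g t)) : ℚ :=
  (∏ l, if ε (α' l).1 then (-1 : ℚ) else 1) * coef s α' α

end

end Pool.Agent.Y107.VC
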