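import Pool.Agent.Y107.VC.Defs2

/-!
# Signed permutations and invariant forms
-/

set_option autoImplicit false

namespace Pool.Agent.Y107.VC

open FF

/-- A signed permutation of the factors. -/
@[ext] structure SP (κ : Type) where
  /-- the permutation -/
  σ : Equiv.Perm κ
  /-- the factors on which the involution acts -/
  ε : κ → Bool

section

variable {k : Type} [Field k] {T κ : Type} {K : T → Type} [∀ t, Field (K t)]
  [∀ t, Algebra k (K t)]

/-- The automorphism `x ↦ (ι^(ε c) x_(σ c))_c` of `∏ C_(q c)` given by a signed permutation. -/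
noncomputable def sact (ι : ∀ t, K t ≃ₐ[k] K t) (g : SP κ) (x : κ → Σ t, Place k (K t)) :
    κ → Σ t, Place k (K t) :=
  fun c => if g.ε c then flipv ι (x (g.σ c)) else x (g.σ c)

/-- The signed permutation permutes equal factors and changes signs only for curves with a
morphism of degree two to the line, with involution `ι`. -/
def Good (ι : ∀ t, K t ≃ₐ[k] K t) (q : κ → T) (g : SP κ) : Prop :=
  ∀ c, q (g.σ c) = q c ∧ (g.ε c = true → IsHyp (ι (q c)))

/-- `CH_0(X/G) = ℚ` with rational coefficients for `X = ∏ C_(q c)` and the group `G` of automorphisms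
generated by `Γ`: every zero-cycle on `X` of degree zero whose class is invariant under the
elements of `Γ` is rationally equivalent to zero. -/
def TrivialCH0 [CharZero k] (ι : ∀ t, K t ≃ₐ[k] K t) (q : κ → T) (Γ : Set (SP κ)) : Prop :=
  ∀ a : (κ → Σ t, Place k (K t)) →₀ ℚ, OnComp q a → (a.sum fun _ r => r) = 0 →
    (∀ h ∈ Γ, Finsupp.mapDomain (sact ι h) a - a ∈ RatU k κ K) → a ∈ RatU k κ K

end

section

variable {T κ : Type} {g : T → ℕ} {i : ℕ}

/-- `u` is the family of coefficients of a holomorphic `i`-form `∑ u(β) ω_(β 0) ∧ ... ∧ ω_(β (i-1))`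
on `∏ C_(q c)`. -/
def IsHolForm (q : κ → T) (u : (Fin i → κ × Σ t, Fin (g t)) → ℚ) : Prop :=
  (∀ β, u β ≠ 0 → IsForm q β) ∧
    ∀ (π : Equiv.Perm (Fin i)) β, u (fun l => β (π l)) = ((Equiv.Perm.sign π : ℤ) : ℚ) * u β

/-- The form with coefficients `u` is invariant under the automorphism given by `h`, which maps
`ω_(c, γ)` to `± ω_(σ c, γ)`, with the sign `-1` if the involution acts on the factor `c`. -/
def InvForm (h : SP κ) (u : (Fin i → κ × Σ t, Fin (g t)) → ℚ) : Prop :=
  ∀ β, (∏ l, if h.ε (β l).1 then (-1 : ℚ) else 1) *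
    u (fun l => (h.σ (β l).1, (β l).2)) = u β

/-- There are no nonzero holomorphic `i`-forms, `i > 0`, on `∏ C_(q c)` which are invariant under all
elements of `Γ`; here `g t` is the genus of `C_t`. -/
def NoForms (g : T → ℕ) (q : κ → T) (Γ : Set (SP κ)) : Prop :=
  ∀ (i : ℕ) (u : (Fin i → κ × Σ t, Fin (g t)) → ℚ), 0 < i → IsHolForm q u →
    (∀ h ∈ Γ, InvForm h u) → u = 0

/-- The `j`-th line of the Fano plane, with points `Fin 7`. -/
def fanoLine (j c : Fin 7) : Bool := c = j || c = j + 1 || c = j + 3

/-- The signed permutations of the seven points of the Fano plane given by the sign changes on the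
lines and by the automorphisms of the plane. -/
def FanoSet : Set (SP (Fin 7)) :=
  {g | (g.σ = 1 ∧ ∃ j, g.ε = fanoLine j) ∨
    ((∀ c, g.ε c = false) ∧ ∀ j, ∃ j', ∀ c, fanoLine j (g.σ c) = fanoLine j' c)}

end

end Pool.Agent.Y107.VC
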