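import Pool.Agent.Y107.VC.Gal
import Pool.Agent.W603.LV.Ex

/-!
# The fibres of a function on a curve, in a Galois closure
-/

set_option autoImplicit false

namespace Pool.Agent.Y107.VC

open FF IntermediateField Module
open Pool.Agent.W603.LV (deg_one)

section

variable {k : Type} [Field k] [CharZero k] {K F : Type} [Field K] [Field F]
  [Algebra k K] [Algebra k F]

theorem ord_adjoin (e : K →ₐ[k] F) {f u : K} (hu : u ∈ k⟮f⟯) :
    ∃ c : ℤ, ∀ w : Place k F, 0 < w.ord (e f) → w.ord (e u) = c * w.ord (e f) := by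
  obtain ⟨r, s, hrs⟩ := (mem_adjoin_simple_iff k u).1 hu
  by_cases hr : r = 0
  · refine ⟨0, fun w _ => ?_⟩
    rw [hrs, hr, map_zero, zero_div, map_zero, w.ord_zero, zero_mul]
  by_cases hs : s = 0
  · refine ⟨0, fun w _ => ?_⟩
    rw [hrs, hs, map_zero, div_zero, map_zero, w.ord_zero, zero_mul]
  obtain ⟨c, hc⟩ := ord_aeval (e f) r hr
  obtain ⟨d, hd⟩ := ord_aeval (e f) s hs
  refine ⟨c - d, fun w hw => ?_⟩
  have h1 : e u = Polynomial.aeval (e f) r / Polynomial.aeval (e f) s := by
    rw [hrs, map_div₀, Polynomial.aeval_algHom_apply, Polynomial.aeval_algHom_apply]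
  rw [h1, w.ord_div (hc w hw).1 (hd w hw).1, (hc w hw).2, (hd w hw).2]
  ring

variable [IsAlgClosed k] [IsFF k K] [IsFF k F]

/-- The fundamental identity for one embedding. -/
theorem sum_over (e : K →ₐ[k] F) (v : Place k K) :
    ∃ S : Finset (Place k F), (∀ w, w ∈ S ↔ Lies e w v) ∧ ∀ f : K,
      ∑ w ∈ S, w.ord (e f) =
        (@finrank K F _ _ e.toRingHom.toAlgebra.toModule : ℤ) * v.ord f := by
  let _ : Algebra K F := e.toRingHom.toAlgebra
  have : IsScalarTower k K F := IsScalarTower.of_algebraMap_eq fun c => (e.commutes c).symm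
  have hfin : FiniteDimensional K F := finite_of_hom e
  obtain ⟨S, T, h1, h2, h3⟩ := exists_places_over (k := k) (K := K) (K' := F) v
  refine ⟨S, fun w => ⟨fun hw => ?_, ?_⟩, fun f => ?_⟩
  · obtain ⟨m, hm, -⟩ := h2 w hw
    exact ⟨m, hm.1, hm.2⟩
  · rintro ⟨m, hm, hm'⟩
    exact h1 w m ⟨hm, hm'⟩
  · rw [← h3]
    push_cast
    rw [Finset.sum_mul]
    refine Finset.sum_congr rfl fun w hw => ?_
    obtain ⟨m, hm, hT, -⟩ := h2 w hw
    have h4 : @finrank v.RF w.RF _ _ hm.resMap.toRingHom.toAlgebra.toModule = 1 := by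
      let _ : Algebra v.RF w.RF := hm.resMap.toRingHom.toAlgebra
      have h5 : finrank k w.RF = 1 := deg_one w
      have h6 : Function.Surjective hm.resMap := by
        intro c
        have h7 : (⊥ : Subalgebra k w.RF) = ⊤ := Subalgebra.bot_eq_top_of_finrank_eq_one h5
        have h8 : c ∈ (⊤ : Subalgebra k w.RF) := Algebra.mem_top
        rw [← h7, Algebra.mem_bot] at h8
        obtain ⟨d, hd⟩ := h8
        exact ⟨algebraMap k v.RF d, by rw [AlgHom.commutes, hd]⟩
      have h9 := Algebra.finrank_eq_of_equiv_equiv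
        (RingEquiv.ofBijective hm.resMap.toRingHom ⟨hm.resMap.toRingHom.injective, h6⟩)
        (RingEquiv.refl w.RF) (by ext; rfl)
      rw [h9]
      exact finrank_self _
    rw [hT, h4, mul_one]
    exact hm.2 f

/-- The number of embeddings with a given restriction. -/
theorem count {I : Type} [Fintype I] (e : I → K →ₐ[k] F) (f : K) (h : F) (hf : Transcendental k f)
    (he : ∀ i, e i f = h) (N : ℕ)
    (hN : ∀ i, Fintype.card I * @finrank K F _ _ (e i).toRingHom.toAlgebra.toModule = N)
    (hI : Fintype.card I = finrank k⟮f⟯ K) (cnt : Place k F → Place k K → ℤ)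
    (hcnt : ∀ w v, cnt w v = ∑ i, (open Classical in if Lies (e i) w v then (1 : ℤ) else 0))
    (htr : ∀ w w' v, 0 < w.ord h → 0 < w'.ord h → cnt w v = cnt w' v)
    (w : Place k F) (hw : 0 < w.ord h) (v : Place k K) : cnt w v = max (v.ord f) 0 := by
  classical
  rcases le_or_gt (v.ord f) 0 with hv | hv
  · rw [max_eq_right hv, hcnt]
    refine Finset.sum_eq_zero fun i _ => ?_
    rw [if_neg]
    rintro ⟨m, hm, hm'⟩
    have h1 := hm' f
    rw [he] at h1
    rw [h1] at hw
    have h2 : (0 : ℤ) < m := by exact_mod_cast hm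
    nlinarith
  rw [max_eq_left hv.le]
  have hh : Transcendental k h := by
    intro h1
    exact w.transcendental_of_ord_ne (by omega) h1
  obtain ⟨Z, hZ, -, hZs⟩ := zeros hh
  obtain ⟨V, hV, -, hVs⟩ := zeros hf
  have hdpos : (0 : ℤ) < Fintype.card I := by
    rw [hI]
    have := IsFF.finite hf
    exact_mod_cast finrank_pos
  have hn0 : (0 : ℤ) < ∑ w' ∈ Z, w'.ord h := by
    have h1 := Finset.single_le_sum (f := fun w' : Place k F => w'.ord h) (s := Z)
      (fun w' hw' => ((hZ w').1 hw').le) ((hZ w).2 hw)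
    exact hw.trans_le h1
  -- the double count for one place
  have key : ∀ v' ∈ V, (∑ w' ∈ Z, w'.ord h) * cnt w v' * Fintype.card I =
      N * v'.ord f * Fintype.card I := by
    intro v' hv'
    have hv0 := (hV v').1 hv'
    have h1 : (∑ w' ∈ Z, w'.ord h) * cnt w v' = ∑ w' ∈ Z, w'.ord h * cnt w' v' := by
      rw [Finset.sum_mul]
      refine Finset.sum_congr rfl fun w' hw' => ?_
      rw [htr w w' v' hw ((hZ w').1 hw')]
    have h2 : ∑ w' ∈ Z, w'.ord h * cnt w' v' =
        ∑ i, ∑ w' ∈ Z, (if Lies (e i) w' v' then w'.ord h else 0) := by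
      rw [Finset.sum_comm]
      refine Finset.sum_congr rfl fun w' _ => ?_
      rw [hcnt, Finset.mul_sum]
      exact Finset.sum_congr rfl fun i _ => by rw [mul_ite, mul_one, mul_zero]
    have h3 : ∀ i, ∑ w' ∈ Z, (if Lies (e i) w' v' then w'.ord h else 0) =
        (@finrank K F _ _ (e i).toRingHom.toAlgebra.toModule : ℤ) * v'.ord f := by
      intro i
      obtain ⟨S, hS, hSs⟩ := sum_over (e i) v'
      rw [← Finset.sum_filter, ← hSs f]
      have h4 : Z.filter (fun w' => Lies (e i) w' v') = S := by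
        ext w'
        rw [Finset.mem_filter, hZ, hS]
        refine ⟨fun h => h.2, fun h => ⟨?_, h⟩⟩
        obtain ⟨m, hm, hm'⟩ := h
        have h5 := hm' f
        rw [he] at h5
        rw [h5]
        have h6 : (0 : ℤ) < m := by exact_mod_cast hm
        positivity
      rw [h4]
      exact Finset.sum_congr rfl fun w' _ => by rw [he]
    rw [h1, h2, Finset.sum_congr rfl fun i _ => h3 i, Finset.sum_mul]
    have h5 : ∀ i ∈ (Finset.univ : Finset I),
        (@finrank K F _ _ (e i).toRingHom.toAlgebra.toModule : ℤ) * v'.ord f * Fintype.card I =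
        N * v'.ord f := by
      intro i _
      have h6 : ((Fintype.card I * @finrank K F _ _ (e i).toRingHom.toAlgebra.toModule : ℕ) : ℤ) =
        (N : ℤ) := by rw [hN i]
      push_cast at h6
      linear_combination (v'.ord f) * h6
    rw [Finset.sum_congr rfl h5, Finset.sum_const, nsmul_eq_mul, Finset.card_univ]
    ring
  -- the sum over all zeros
  have hsum : ∑ v' ∈ V, cnt w v' = Fintype.card I := by
    have h1 : ∑ v' ∈ V, cnt w v' = ∑ i, ∑ v' ∈ V, (if Lies (e i) w v' then (1 : ℤ) else 0) := by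
      rw [Finset.sum_comm]
      exact Finset.sum_congr rfl fun v' _ => hcnt w v'
    rw [h1]
    have h2 : ∀ i ∈ (Finset.univ : Finset I),
        ∑ v' ∈ V, (if Lies (e i) w v' then (1 : ℤ) else 0) = 1 := by
      intro i _
      obtain ⟨v0, hv0⟩ := exists_lies (e i) w
      have hv0V : v0 ∈ V := by
        rw [hV]
        obtain ⟨m, hm, hm'⟩ := hv0
        have h5 := hm' f
        rw [he] at h5
        rw [h5] at hw
        have h6 : (0 : ℤ) < m := by exact_mod_cast hm
        by_contra hcon
        push Not at hcon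
        nlinarith
      rw [Finset.sum_eq_single v0]
      · rw [if_pos hv0]
      · intro v' _ hne
        rw [if_neg fun h => hne (h.unique hv0)]
      · intro h
        exact absurd hv0V h
    rw [Finset.sum_congr rfl h2, Finset.sum_const, nsmul_eq_mul, Finset.card_univ, mul_one]
  have hVs' : ∑ v' ∈ V, v'.ord f = Fintype.card I := by
    rw [hI, ← hVs]
    push_cast
    refine Finset.sum_congr rfl fun v' hv' => ?_
    have h1 := (hV v').1 hv'
    rw [deg_one]
    push_cast
    rw [mul_one]
    omega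
  have hn : ∑ w' ∈ Z, w'.ord h = N := by
    have h1 := Finset.sum_congr rfl key
    rw [← Finset.sum_mul, ← Finset.sum_mul, ← Finset.mul_sum, ← Finset.mul_sum, hsum, hVs'] at h1
    have h2 : (Fintype.card I : ℤ) * Fintype.card I ≠ 0 := by positivity
    have h3 : (∑ w' ∈ Z, w'.ord h) * ((Fintype.card I : ℤ) * Fintype.card I) =
        N * ((Fintype.card I : ℤ) * Fintype.card I) := by linear_combination h1
    exact mul_right_cancel₀ h2 h3
  have h1 := key v ((hV v).2 hv)
  rw [hn] at h1
  have h2 : (N : ℤ) ≠ 0 := by rw [← hn]; exact hn0.ne'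
  have h3 : (N : ℤ) * Fintype.card I ≠ 0 := mul_ne_zero h2 hdpos.ne'
  refine mul_left_cancel₀ h3 ?_
  linear_combination h1

end

section

variable {k : Type} [Field k] [CharZero k] [IsAlgClosed k] {K : Type} [Field K] [Algebra k K]
  [IsFF k K]

theorem isFF_up {F : Type} [Field F] [Algebra k F] [Algebra K F] [IsScalarTower k K F]
    [FiniteDimensional K F] : IsFF k F := by
  obtain ⟨t, ht⟩ := IsFF.exists_transcendental (k := k) (K := K)
  constructor
  · have h1 := (inferInstance : IsFF k K).ess
    exact Algebra.EssFiniteType.comp k K F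
  · have h1 : Algebra.trdeg k K = 1 := (inferInstance : IsFF k K).trdeg
    have h2 := trdeg_add_eq k K (A := F)
    have h3 : Algebra.trdeg K F = 0 := trdeg_eq_zero
    rw [h1, h3, add_zero] at h2
    exact h2.symm

end

end Pool.Agent.Y107.VC
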