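import Pool.Agent.Y107.VC.Fib

/-!
# The fibres of a function on a curve, in a Galois closure (II)
-/

set_option autoImplicit false

namespace Pool.Agent.Y107.VC

open FF IntermediateField Module

section

theorem finrank_hom {E K F : Type} [Field E] [Field K] [Field F] [Algebra E K] [Algebra E F]
    (i : K →ₐ[E] F) :
    finrank E K * @finrank K F _ _ i.toRingHom.toAlgebra.toModule = finrank E F := by
  let _ : Algebra K F := i.toRingHom.toAlgebra
  have : IsScalarTower E K F := IsScalarTower.of_algebraMap_eq fun c => (i.commutes c).symm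
  exact finrank_mul_finrank E K F

end

section

variable {k : Type} [Field k] [CharZero k] [IsAlgClosed k] {K : Type} [Field K]
  [Algebra k K] [IsFF k K]

theorem fibre (f : K) (hf : Transcendental k f) :
    ∃ (F : Type) (_ : Field F) (_ : Algebra k F) (_ : IsFF k F) (I : Type) (_ : Fintype I)
      (e : I → K →ₐ[k] F) (h : F), h ≠ 0 ∧ (∀ i, e i f = h) ∧
      Fintype.card I = finrank k⟮f⟯ K ∧
      (∀ w : Place k F, 0 < w.ord h → ∀ v : Place k K,
        ∑ i, (open Classical in if Lies (e i) w v then (1 : ℤ) else 0) = max (v.ord f) 0) ∧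
      (∀ w : Place k F, w.ord h < 0 → ∀ v : Place k K,
        ∑ i, (open Classical in if Lies (e i) w v then (1 : ℤ) else 0) = max (-v.ord f) 0) := by
  classical
  have hfin : FiniteDimensional k⟮f⟯ K := IsFF.finite hf
  have hE : IsFF k k⟮f⟯ := Pool.Agent.W619.PQ.isFF_down (E := K)
  have hchar : CharZero k⟮f⟯ := charZero_of_injective_algebraMap (algebraMap k k⟮f⟯).injective
  let Ω := AlgebraicClosure k⟮f⟯
  let F := normalClosure k⟮f⟯ K Ω
  have hfin' : FiniteDimensional k⟮f⟯ F := inferInstance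
  have hnor : Normal k⟮f⟯ F := inferInstance
  have hsep : Algebra.IsSeparable k⟮f⟯ F := inferInstance
  have hgal : IsGalois k⟮f⟯ F := ⟨⟩
  have hF : IsFF k F := isFF_up (K := k⟮f⟯)
  let I := K →ₐ[k⟮f⟯] F
  let e : I → K →ₐ[k] F := fun i => i.restrictScalars k
  let f0 : k⟮f⟯ := ⟨f, mem_adjoin_simple_self k f⟩
  let h : F := algebraMap k⟮f⟯ F f0
  have hf0 : f ≠ 0 := by
    rintro rfl
    exact hf isAlgebraic_zero
  have hh0 : h ≠ 0 := by
    rw [Ne, map_eq_zero]
    exact fun h1 => hf0 (congrArg Subtype.val h1)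
  have he : ∀ i, e i f = h := fun i => i.commutes f0
  have hI : Fintype.card I = finrank k⟮f⟯ K := by
    rw [← AlgHom.card k⟮f⟯ K Ω]
    exact Fintype.card_congr (normalClosure.algHomEquiv k⟮f⟯ K Ω)
  have hN : ∀ i, Fintype.card I * @finrank K F _ _ (e i).toRingHom.toAlgebra.toModule =
      finrank k⟮f⟯ F := by
    intro i
    rw [hI]
    exact finrank_hom i
  have hmem : ∀ u : k⟮f⟯, (u : K) ∈ k⟮f⁻¹⟯ := fun u => by rw [adjoin_inv]; exact u.2
  have hlift : ∀ u : k⟮f⟯, ∀ i : I, e i (u : K) = algebraMap k⟮f⟯ F u := fun u i => i.commutes u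
  obtain ⟨i0⟩ : Nonempty I := by
    rw [← Fintype.card_pos_iff, hI]
    exact finrank_pos
  have htr : ∀ h' : F, (h' = h ∨ h' = h⁻¹) → ∀ w w' : Place k F, ∀ v : Place k K,
      0 < w.ord h' → 0 < w'.ord h' →
      ∑ i, (if Lies (e i) w v then (1 : ℤ) else 0) =
      ∑ i, (if Lies (e i) w' v then (1 : ℤ) else 0) := by
    intro h' hh' w w' v hw hw'
    have hu : ∀ u : k⟮f⟯, ∃ c : ℤ, ∀ w : Place k F, 0 < w.ord h' →
        w.ord (algebraMap k⟮f⟯ F u) = c * w.ord h' := by
      intro u
      rcases hh' with rfl | rfl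
      · obtain ⟨c, hc⟩ := ord_adjoin (e i0) u.2
        refine ⟨c, fun w hw => ?_⟩
        rw [← hlift u i0, ← he i0]
        exact hc w (by rw [he i0]; exact hw)
      · obtain ⟨c, hc⟩ := ord_adjoin (e i0) (hmem u)
        have h2 : e i0 f⁻¹ = h⁻¹ := by rw [map_inv₀, he]
        refine ⟨c, fun w hw => ?_⟩
        rw [← hlift u i0, ← h2]
        exact hc w (by rw [h2]; exact hw)
    obtain ⟨σ, rfl⟩ := exists_conj h' hu w w' hw hw'
    symm
    let π : I ≃ I :=
      { toFun := fun i => σ.toAlgHom.comp i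
        invFun := fun i => σ.symm.toAlgHom.comp i
        left_inv := fun i => AlgHom.ext fun x => σ.symm_apply_apply _
        right_inv := fun i => AlgHom.ext fun x => σ.apply_symm_apply _ }
    refine Fintype.sum_equiv π _ _ fun i => ?_
    have h3 : Lies (e i) (w.comp (σ.restrictScalars k)) v ↔ Lies (e (π i)) w v := Iff.rfl
    rw [if_congr h3 rfl rfl]
  refine ⟨F, inferInstance, inferInstance, hF, I, inferInstance, e, h, hh0, he, hI, ?_, ?_⟩
  · intro w hw v
    exact count e f h hf he _ hN hI _ (fun _ _ => rfl)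
      (fun w w' v h1 h2 => htr h (Or.inl rfl) w w' v h1 h2) w hw v
  · intro w hw v
    have hfi : Transcendental k f⁻¹ := fun h1 => hf (by simpa using h1.inv)
    have h1 := count e f⁻¹ h⁻¹ hfi (fun i => by rw [map_inv₀, he]) _ hN
      (by rw [adjoin_inv]; exact hI) _ (fun _ _ => rfl)
      (fun w w' v h1 h2 => htr h⁻¹ (Or.inr rfl) w w' v h1 h2) w
      (by rw [w.ord_inv]; omega) v
    rw [v.ord_inv] at h1
    exact h1

end

end Pool.Agent.Y107.VC
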