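import Pool.Agent.Y107.VC.Mor
import Pool.Agent.W619.PQ.Approx

/-!
# Places in Galois extensions
-/

set_option autoImplicit false

namespace Pool.Agent.Y107.VC

open FF Pool.Agent.W619.PQ

section

variable {k : Type} [Field k] {E F : Type} [Field E] [Field F] [Algebra k E] [Algebra k F]
  [Algebra E F] [IsScalarTower k E F]

theorem ord_prod {ι : Type} (s : Finset ι) (w : Place k F) (y : ι → F) (hy : ∀ i ∈ s, y i ≠ 0) :
    w.ord (∏ i ∈ s, y i) = ∑ i ∈ s, w.ord (y i) := by
  classical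
  induction s using Finset.induction_on with
  | empty => simp [w.ord_one]
  | insert a s ha ih =>
    rw [Finset.prod_insert ha, Finset.sum_insert ha,
      w.ord_mul (hy a (Finset.mem_insert_self a s))
        (Finset.prod_ne_zero_iff.2 fun i hi => hy i (Finset.mem_insert_of_mem hi)),
      ih fun i hi => hy i (Finset.mem_insert_of_mem hi)]

/-- Transitivity of the Galois group on the places at which `h` has a zero, if all elements of the
ground field are, up to units, powers of `h` at these places. -/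
theorem exists_conj [FiniteDimensional E F] [IsGalois E F] (h : F)
    (hu : ∀ u : E, ∃ c : ℤ, ∀ w : Place k F, 0 < w.ord h → w.ord (algebraMap E F u) = c * w.ord h)
    (w w' : Place k F) (hw : 0 < w.ord h) (hw' : 0 < w'.ord h) :
    ∃ σ : F ≃ₐ[E] F, w' = w.comp (σ.restrictScalars k) := by
  classical
  by_contra hcon
  push Not at hcon
  let S : Finset (Place k F) := ((Finset.univ.image fun σ : F ≃ₐ[E] F =>
    w.comp (σ.restrictScalars k)) ∪ (Finset.univ.image fun σ : F ≃ₐ[E] F =>
    w'.comp (σ.restrictScalars k))).erase w'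
  obtain ⟨z, hz0, hz1, hz2⟩ := sep_many S w' (Finset.notMem_erase w' _)
  have hy0 : (1 + z : F) ≠ 0 := (ord_one_add_of_neg hz0 hz1).1
  have hy' : w'.ord (1 + z) = w'.ord z := (ord_one_add_of_neg hz0 hz1).2
  have hyS : ∀ Q ∈ S, Q.ord (1 + z) = 0 := fun Q hQ => (ord_one_add_of_pos hz0 (hz2 Q hQ)).2
  obtain ⟨c, hc⟩ := hu (Algebra.norm E (1 + z))
  have hN : algebraMap E F (Algebra.norm E (1 + z)) = ∏ σ : F ≃ₐ[E] F, σ (1 + z) :=
    Algebra.norm_eq_prod_automorphisms E (1 + z)
  have hne : ∀ σ ∈ (Finset.univ : Finset (F ≃ₐ[E] F)), σ (1 + z) ≠ 0 := fun σ _ =>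
    (map_ne_zero_iff _ σ.injective).2 hy0
  have h1 : w.ord (algebraMap E F (Algebra.norm E (1 + z))) = 0 := by
    rw [hN, ord_prod _ _ _ hne]
    refine Finset.sum_eq_zero fun σ _ => ?_
    have h2 : w.ord (σ (1 + z)) = (w.comp (σ.restrictScalars k)).ord (1 + z) := rfl
    rw [h2]
    refine hyS _ (Finset.mem_erase.2 ⟨(hcon σ).symm, Finset.mem_union_left _
      (Finset.mem_image.2 ⟨σ, Finset.mem_univ _, rfl⟩)⟩)
  have h2 : w'.ord (algebraMap E F (Algebra.norm E (1 + z))) < 0 := by
    rw [hN, ord_prod _ _ _ hne]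
    refine Finset.sum_neg' (fun σ _ => ?_) ⟨1, Finset.mem_univ _, ?_⟩
    · have h2 : w'.ord (σ (1 + z)) = (w'.comp (σ.restrictScalars k)).ord (1 + z) := rfl
      rw [h2]
      by_cases h3 : w'.comp (σ.restrictScalars k) = w'
      · rw [h3, hy']
        exact hz1.le
      · exact (hyS _ (Finset.mem_erase.2 ⟨h3, Finset.mem_union_right _
          (Finset.mem_image.2 ⟨σ, Finset.mem_univ _, rfl⟩)⟩)).le
    · have h3 : (1 : F ≃ₐ[E] F) (1 + z) = 1 + z := rfl
      rw [h3, hy']
      exact hz1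
  rw [hc w hw] at h1
  rw [hc w' hw'] at h2
  have h3 : c = 0 := by
    rcases mul_eq_zero.1 h1 with h | h
    · exact h
    · omega
  rw [h3, zero_mul] at h2
  exact lt_irrefl _ h2

end

section

open Polynomial

variable {k : Type} [Field k] {F : Type} [Field F] [Algebra k F]

theorem ord_aeval (h : F) (p : k[X]) (hp : p ≠ 0) : ∃ c : ℤ, ∀ w : Place k F, 0 < w.ord h →
    aeval h p ≠ 0 ∧ w.ord (aeval h p) = c * w.ord h := by
  obtain ⟨p1, hp1, hp2⟩ : ∃ p1 : k[X], p = X ^ p.natTrailingDegree * p1 ∧ p1.coeff 0 ≠ 0 := by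
    have hdvd : X ^ p.natTrailingDegree ∣ p :=
      X_pow_dvd_iff.2 fun d hd => coeff_eq_zero_of_lt_natTrailingDegree hd
    obtain ⟨p1, hp1⟩ := hdvd
    refine ⟨p1, hp1, ?_⟩
    have h1 : p.coeff p.natTrailingDegree ≠ 0 := by
      rw [← trailingCoeff]
      exact fun h => hp (trailingCoeff_eq_zero.1 h)
    rw [hp1] at h1
    intro h2
    apply h1
    rw [← hp1]
    have h3 : (X ^ p.natTrailingDegree * p1).coeff (0 + p.natTrailingDegree) = p1.coeff 0 :=
      coeff_X_pow_mul p1 _ 0
    rw [zero_add, ← hp1, h2] at h3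
    exact h3
  refine ⟨p.natTrailingDegree, fun w hw => ?_⟩
  have hh0 : h ≠ 0 := by
    rintro rfl
    rw [w.ord_zero] at hw
    exact lt_irrefl _ hw
  obtain ⟨s, hs⟩ := X_dvd_sub_C (p := p1)
  have h1 : aeval h p1 = algebraMap k F (p1.coeff 0) + h * aeval h s := by
    have h2 : p1 = C (p1.coeff 0) + X * s := by rw [← hs]; ring
    conv_lhs => rw [h2]
    rw [map_add, map_mul, aeval_C, aeval_X]
  have hreg : ∀ r : k[X], w.Reg (aeval h r) := by
    intro r
    induction r using Polynomial.induction_on' with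
    | add a b ha hb => rw [map_add]; exact w.reg_add ha hb
    | monomial n a =>
      rw [aeval_monomial]
      refine w.reg_mul (w.reg_const a) (Or.inr ?_)
      rw [w.ord_pow]
      positivity
  have hc0 : algebraMap k F (p1.coeff 0) ≠ 0 := by
    rw [Ne, map_eq_zero]
    exact hp2
  have h2 : aeval h p1 ≠ 0 ∧ w.ord (aeval h p1) = 0 := by
    by_cases h3 : h * aeval h s = 0
    · rw [h1, h3, add_zero]
      exact ⟨hc0, w.ord_const hp2⟩
    · have h4 : 0 < w.ord (h * aeval h s) := by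
        rw [w.ord_mul hh0 (right_ne_zero_of_mul h3)]
        have := (w.reg_iff (right_ne_zero_of_mul h3)).1 (hreg s)
        omega
      have h5 := w.ord_add_eq hc0 h3 (by rw [w.ord_const hp2]; exact h4)
      rw [h1]
      exact ⟨h5.1, h5.2.trans (w.ord_const hp2)⟩
  have h3 : aeval h p = h ^ p.natTrailingDegree * aeval h p1 := by
    conv_lhs => rw [hp1]
    rw [map_mul, map_pow, aeval_X]
  rw [h3]
  refine ⟨mul_ne_zero (pow_ne_zero _ hh0) h2.1, ?_⟩
  rw [w.ord_mul (pow_ne_zero _ hh0) h2.1, w.ord_pow, h2.2, add_zero]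

end

end Pool.Agent.Y107.VC
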