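import Pool.Agent.Y107.VC.Voi
import Pool.Agent.Y107.VC.Defs2

/-!
# Correspondences vanishing on holomorphic `i`-forms
-/

set_option autoImplicit false
set_option maxHeartbeats 400000

namespace Pool.Agent.Y107.VC

open FF Equiv

section

variable {k : Type} [Field k] [CharZero k] {T κ κ' : Type}
  {K : T → Type} [∀ t, Field (K t)] [∀ t, Algebra k (K t)]

/-- Push forward factoring through few coordinates. -/
theorem Fil.push_of_factor {i : ℕ} {a : (κ → Σ t, Place k (K t)) →₀ ℚ} (ha : a ∈ Fil k K κ i)
    (D : Finset κ) (hD : D.card < i) (f : (κ → Σ t, Place k (K t)) → κ' → Σ t, Place k (K t))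
    (hf : ∀ c, (∃ v, ∀ x, f x c = v) ∨ ∃ d ∈ D, ∀ x, f x c = x d) :
    Finsupp.mapDomain f a ∈ RatU k κ' K := by
  classical
  have h1 := ha D hD
  have hf' : ∀ c, ∃ φ : ({d // d ∈ D} → Σ t, Place k (K t)) → Σ t, Place k (K t),
      ((∃ v, ∀ u, φ u = v) ∨ ∃ d, ∀ u, φ u = u d) ∧ ∀ x, f x c = φ fun d => x d := by
    intro c
    rcases hf c with ⟨v, hv⟩ | ⟨d, hd, hv⟩
    · exact ⟨fun _ => v, Or.inl ⟨v, fun _ => rfl⟩, hv⟩
    · exact ⟨fun u => u ⟨d, hd⟩, Or.inr ⟨⟨d, hd⟩, fun _ => rfl⟩, hv⟩
  choose φ hφ hφf using hf'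
  have h2 : f = (fun u c => φ c u) ∘ fun x (c : {c // c ∈ D}) => x c := by
    funext x c
    exact hφf c x
  rw [h2, Finsupp.mapDomain_comp]
  exact RatU.push _ hφ h1

end

section

variable {T κ κ' : Type} [Fintype κ] [DecidableEq κ] [Fintype κ'] [DecidableEq κ']

/-- The image of a set of coordinates. -/
def img (s : κ' → Option κ) (S : Finset κ') : Finset κ :=
  Finset.univ.filter fun d => ∃ c ∈ S, s c = some d

theorem mem_img {s : κ' → Option κ} {S : Finset κ'} {d : κ} :
    d ∈ img s S ↔ ∃ c ∈ S, s c = some d := by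
  unfold img
  simp only [Finset.mem_filter, Finset.mem_univ, true_and]

theorem card_img_le (s : κ' → Option κ) (S : Finset κ') : (img s S).card ≤ S.card := by
  classical
  have h1 : (img s S).image some ⊆ S.image s := by
    intro o ho
    obtain ⟨d, hd, rfl⟩ := Finset.mem_image.1 ho
    obtain ⟨c, hc, hcd⟩ := mem_img.1 hd
    exact Finset.mem_image.2 ⟨c, hc, hcd⟩
  calc (img s S).card = ((img s S).image some).card :=
        (Finset.card_image_of_injective _ (Option.some_injective κ)).symm
    _ ≤ (S.image s).card := Finset.card_le_card h1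
    _ ≤ S.card := Finset.card_image_le

theorem exists_equiv (s : κ' → Option κ) (S : Finset κ') (h : (img s S).card = S.card) :
    ∃ β : {c // c ∈ S} ≃ {d // d ∈ img s S}, ∀ c, s c.1 = some (β c).1 := by
  classical
  have h1 : (img s S).image some ⊆ S.image s := by
    intro o ho
    obtain ⟨d, hd, rfl⟩ := Finset.mem_image.1 ho
    obtain ⟨c, hc, hcd⟩ := mem_img.1 hd
    exact Finset.mem_image.2 ⟨c, hc, hcd⟩
  have h2 : ((img s S).image some).card = S.card := by
    rw [Finset.card_image_of_injective _ (Option.some_injective κ), h]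
  have h3 : (S.image s).card = S.card := le_antisymm Finset.card_image_le
    (h2 ▸ Finset.card_le_card h1)
  have h4 : (img s S).image some = S.image s := Finset.eq_of_subset_of_card_le h1 (by
    rw [h2, h3])
  have h5 : ∀ c : {c // c ∈ S}, ∃ d : {d // d ∈ img s S}, s c.1 = some d.1 := by
    intro c
    have h6 : s c.1 ∈ S.image s := Finset.mem_image_of_mem _ c.2
    rw [← h4] at h6
    obtain ⟨d, hd, hd'⟩ := Finset.mem_image.1 h6
    exact ⟨⟨d, hd⟩, hd'.symm⟩
  choose β hβ using h5
  have hinj : Function.Injective β := by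
    intro c c' hcc
    have h6 := Finset.card_image_iff.1 h3
    apply Subtype.ext
    apply h6 c.2 c'.2
    rw [hβ, hβ, hcc]
  refine ⟨Equiv.ofBijective β ((Fintype.bijective_iff_injective_and_card β).2 ⟨hinj, ?_⟩), hβ⟩
  rw [Fintype.card_coe, Fintype.card_coe, h]

end

section

variable {k : Type} [Field k] [CharZero k] [IsAlgClosed k] {T κ κ' : Type} [Fintype κ]
  [DecidableEq κ] [Fintype κ'] [DecidableEq κ'] [Fintype T] [DecidableEq T]
  {K : T → Type} [∀ t, Field (K t)] [∀ t, Algebra k (K t)] [∀ t, IsFF k (K t)]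

/-- The part of a correspondence with a given set of coordinates. -/
theorem block {J : Type} [Fintype J] (S : Finset κ') (q : κ → T) (q' : κ' → T) (ζ : J → ℚ)
    (s : J → κ' → Option κ) (hs : ∀ j c d, s j c = some d → q d = q' c)
    (e : J → κ' → Σ t, Place k (K t)) (i : ℕ)
    (hform : ∀ (α' : Fin i → κ' × Σ t, Fin (genus k (K t)))
      (α : Fin i → κ × Σ t, Fin (genus k (K t))), IsForm q' α' → IsForm q α →
        (∀ l, (α' l).1 ∈ S) → ∑ j, ζ j * coef (s j) α' α = 0)
    (a : (κ → Σ t, Place k (K t)) →₀ ℚ) (ha : OnComp q a) (hF : a ∈ Fil k K κ i)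
     (hS : S.card = i) (D : Finset κ) (hD : D.card = i) :
    ∑ j ∈ Finset.univ.filter (fun j => img (s j) S = D),
      ζ j • Finsupp.mapDomain (fun x (c : {c // c ∈ S}) => mov (s j) (e j) x c) a ∈
        RatU k {c // c ∈ S} K := by
  classical
  by_cases hne : ∃ j0, img (s j0) S = D
  swap
  · rw [Finset.filter_false_of_mem, Finset.sum_empty]
    · exact Submodule.zero_mem _
    · intro j _ hj
      exact hne ⟨j, hj⟩
  obtain ⟨j0, hj0⟩ := hne
  have hβ : ∀ j : {j // img (s j) S = D}, ∃ β : {c // c ∈ S} ≃ {d // d ∈ D},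
      ∀ c, s j.1 c.1 = some (β c).1 := by
    rintro ⟨j, hj⟩
    subst hj
    exact exists_equiv (s j) S (by rw [hD, hS])
  choose β hβ using hβ
  let β0 := β ⟨j0, hj0⟩
  let P : {j // img (s j) S = D} → Perm {c // c ∈ S} := fun j => (β j).trans β0.symm
  have hP : ∀ j c, β0 (P j c) = β j c := fun j c => β0.apply_symm_apply _
  have hqβ : ∀ (j : {j // img (s j) S = D}) c, q (β j c).1 = q' c.1 := fun j c =>
    hs _ _ _ (hβ j c)
  let q1 : {c // c ∈ S} → T := fun c => q' c.1
  have hq1 : ∀ j c, q1 (P j c) = q1 c := by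
    intro j c
    have h1 := hqβ ⟨j0, hj0⟩ (P j c)
    have h2 := hqβ j c
    have h3 : β ⟨j0, hj0⟩ (P j c) = β j c := hP j c
    rw [h3, h2] at h1
    exact h1.symm
  let aD : ({c // c ∈ S} → Σ t, Place k (K t)) →₀ ℚ :=
    Finsupp.mapDomain (fun x (c : {c // c ∈ S}) => x (β0 c).1) a
  have hb : ∀ t, ∃ P : Place k (K t), True := fun t => exists_place
  choose b _ using hb
  have haD : ∀ x ∈ aD.support, ∀ c, (x c).1 = q1 c := by
    intro x hx c
    obtain ⟨y, hy, rfl⟩ := Finset.mem_image.1 (Finsupp.mapDomain_support hx)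
    exact (ha y hy _).trans (hqβ ⟨j0, hj0⟩ c)
  have hprim : ∀ c, Finsupp.mapDomain (rep q1 b {c}) aD ∈ RatU k {c // c ∈ S} K := by
    intro c
    simp only [aD]
    rw [← Finsupp.mapDomain_comp]
    refine Fil.push_of_factor hF (D.erase (β0 c).1) ?_ _ ?_
    · rw [Finset.card_erase_of_mem (β0 c).2, hD]
      have h1 : 0 < S.card := Finset.card_pos.2 ⟨c.1, c.2⟩
      omega
    · intro c'
      by_cases hc : c' = c
      · left
        refine ⟨⟨q1 c', b (q1 c')⟩, fun x => ?_⟩
        simp only [Function.comp_apply, rep]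
        rw [if_pos (Finset.mem_singleton.2 hc)]
      · right
        refine ⟨(β0 c').1, Finset.mem_erase.2 ⟨?_, (β0 c').2⟩, fun x => ?_⟩
        · intro h
          exact hc (β0.injective (Subtype.ext h))
        · simp only [Function.comp_apply, rep]
          rw [if_neg (fun h => hc (Finset.mem_singleton.1 h))]
  have hsum : ∑ j ∈ Finset.univ.filter (fun j => img (s j) S = D),
      ζ j • Finsupp.mapDomain (fun x (c : {c // c ∈ S}) => mov (s j) (e j) x c) a =
      ∑ j : {j // img (s j) S = D}, ζ j.1 • pm (P j) aD := by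
    refine (Finset.sum_subtype (F := inferInstance)
      (Finset.univ.filter fun j => img (s j) S = D)
      (p := fun j => img (s j) S = D) (by simp) _).trans ?_
    refine Finset.sum_congr rfl fun j _ => ?_
    congr 1
    simp only [aD]
    unfold pm
    rw [Finsupp.lmapDomain_apply, ← Finsupp.mapDomain_comp]
    congr 1
    funext x c
    simp only [Function.comp_apply, mov]
    rw [hβ j c, hP]
  rw [hsum]
  refine mainI P (fun j => ζ j.1) q1 b (fun j _ c => hq1 j c) ?_ aD haD hprim
  intro c hc Y
  -- the coefficients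
  have hcS : Fintype.card {c // c ∈ S} = i := by rw [Fintype.card_coe, hS]
  let ε : Fin i ≃ {c // c ∈ S} := (Fintype.equivFinOfCardEq hcS).symm
  have hcoef : ∀ w : {c // c ∈ S} → Σ t, Fin (genus k (K t)), (∀ l, (w l).1 = q1 l) →
      ∑ j : {j // img (s j) S = D}, (if (∀ l, c l = w (P j l)) then
        ((Perm.sign (P j) : ℤ) : ℚ) * ζ j.1 else 0) = 0 := by
    intro w hw
    have h1 := hform (fun l => ((ε l).1, c (ε l))) (fun l => ((β0 (ε l)).1, w (ε l)))
      ⟨fun l l' h => ε.injective (Subtype.ext h), fun l => hc (ε l)⟩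
      ⟨fun l l' h => ε.injective (β0.injective (Subtype.ext h)), fun l =>
        (hw (ε l)).trans (hqβ ⟨j0, hj0⟩ (ε l)).symm⟩ (fun l => (ε l).2)
    have h2 : ∀ j, img (s j) S ≠ D → coef (s j) (fun l => ((ε l).1, c (ε l)))
        (fun l => ((β0 (ε l)).1, w (ε l))) = 0 := by
      intro j hj
      refine Finset.sum_eq_zero fun π _ => ?_
      rw [if_neg]
      intro h3
      apply hj
      symm
      refine Finset.eq_of_subset_of_card_le ?_ ?_
      · intro d hd
        obtain ⟨l, hl⟩ := (ε.trans β0).surjective ⟨d, hd⟩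
        rw [mem_img]
        refine ⟨(ε (π l)).1, (ε (π l)).2, ?_⟩
        have h4 := (h3 l).1
        simp only at h4
        rw [h4]
        have h5 : β0 (ε l) = ⟨d, hd⟩ := hl
        rw [h5]
      · rw [hD, ← hS]
        exact card_img_le _ _
    have h3 : ∀ j : {j // img (s j) S = D}, coef (s j.1) (fun l => ((ε l).1, c (ε l)))
        (fun l => ((β0 (ε l)).1, w (ε l))) =
        if (∀ l, c l = w (P j l)) then ((Perm.sign (P j) : ℤ) : ℚ) else 0 := by
      intro j
      let π0 : Perm (Fin i) := (ε.trans (P j).symm).trans ε.symm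
      have hπ0 : ∀ l, ε (π0 l) = (P j).symm (ε l) := fun l => ε.apply_symm_apply _
      unfold coef
      rw [Finset.sum_eq_single π0]
      · have h4 : (∀ l, s j.1 (ε (π0 l)).1 = some (β0 (ε l)).1 ∧ c (ε (π0 l)) = w (ε l)) ↔
            ∀ l, c l = w (P j l) := by
          constructor
          · intro h5 l
            have h6 := (h5 (ε.symm (P j l))).2
            rw [hπ0, apply_symm_apply, symm_apply_apply] at h6
            exact h6
          · intro h5 l
            refine ⟨?_, ?_⟩
            · rw [hβ j, ← hP, hπ0, apply_symm_apply]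
            · rw [hπ0, h5, apply_symm_apply]
        have h5 : Perm.sign π0 = Perm.sign (P j) := by
          have h6 : π0 = ε.symm.permCongr ((P j)⁻¹ : Perm _) := by
            ext1 l
            rfl
          rw [h6, Perm.sign_permCongr, Perm.sign_inv]
        by_cases h7 : ∀ l, c l = w (P j l)
        · rw [if_pos (h4.2 h7), if_pos h7, h5]
        · rw [if_neg (fun h => h7 (h4.1 h)), if_neg h7]
      · intro π _ hπ
        rw [if_neg]
        intro h5
        apply hπ
        ext1 l
        apply ε.injective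
        rw [hπ0]
        apply (P j).injective
        rw [apply_symm_apply]
        apply β0.injective
        rw [hP]
        have h6 := (h5 l).1
        simp only at h6
        rw [hβ j] at h6
        exact Subtype.ext (Option.some_injective _ h6)
      · intro h
        exact absurd (Finset.mem_univ _) h
    rw [← Finset.sum_filter_add_sum_filter_not Finset.univ (fun j => img (s j) S = D)] at h1
    rw [Finset.sum_eq_zero (s := Finset.univ.filter fun j => ¬img (s j) S = D) (fun j hj => by
      rw [h2 j (Finset.mem_filter.1 hj).2, mul_zero]), add_zero,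
      Finset.sum_subtype (F := inferInstance) (Finset.univ.filter (fun j => img (s j) S = D))
        (p := fun j => img (s j) S = D) (by simp)] at h1
    refine Eq.trans ?_ h1
    refine Finset.sum_congr rfl fun j _ => ?_
    rw [h3 j]
    by_cases h : ∀ l, c l = w (P j l)
    · rw [if_pos h, if_pos h, mul_comm]
    · rw [if_neg h, if_neg h, mul_zero]
  -- expansion
  have hexp : ∀ j : {j // img (s j) S = D},
      (((Perm.sign (P j) : ℤ) : ℚ) * ζ j.1) * ∏ l, Y (c l) (P j l) =
      ∑ w : {c // c ∈ S} → Σ t, Fin (genus k (K t)), (if (∀ l, c l = w (P j l)) then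
        ((Perm.sign (P j) : ℤ) : ℚ) * ζ j.1 else 0) * ∏ l, Y (w l) l := by
    intro j
    rw [Finset.sum_eq_single (fun l => c ((P j).symm l))]
    · have h5 : ∀ l, c l = (fun l => c ((P j).symm l)) (P j l) := fun l => by
        simp only [symm_apply_apply]
      rw [if_pos h5]
      congr 1
      refine Eq.trans ?_ (Equiv.prod_comp (P j) (fun l => Y (c ((P j).symm l)) l))
      refine Finset.prod_congr rfl fun l _ => ?_
      rw [symm_apply_apply]
    · intro w _ hw
      rw [if_neg, zero_mul]
      intro h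
      apply hw
      funext l
      rw [h, apply_symm_apply]
    · intro h
      exact absurd (Finset.mem_univ _) h
  rw [Finset.sum_congr rfl fun j _ => hexp j, Finset.sum_comm]
  refine Finset.sum_eq_zero fun w _ => ?_
  rw [← Finset.sum_mul]
  by_cases hw : ∀ l, (w l).1 = q1 l
  · rw [hcoef w hw, zero_mul]
  · rw [Finset.sum_eq_zero, zero_mul]
    intro j _
    rw [if_neg]
    intro h
    apply hw
    intro l
    have h1 := h ((P j).symm l)
    rw [apply_symm_apply] at h1
    rw [← h1, hc]
    have h2 := hq1 j ((P j).symm l)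
    rw [apply_symm_apply] at h2
    exact h2.symm

/-- Correspondences which vanish on the holomorphic `i`-forms map the `i`-th step of the
filtration to the next one. -/
theorem graded {J : Type} [Fintype J] (q : κ → T) (q' : κ' → T) (ζ : J → ℚ)
    (s : J → κ' → Option κ) (hs : ∀ j c d, s j c = some d → q d = q' c)
    (e : J → κ' → Σ t, Place k (K t)) (i : ℕ)
    (hform : ∀ (α' : Fin i → κ' × Σ t, Fin (genus k (K t)))
      (α : Fin i → κ × Σ t, Fin (genus k (K t))), IsForm q' α' → IsForm q α →
        ∑ j, ζ j * coef (s j) α' α = 0)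
    (a : (κ → Σ t, Place k (K t)) →₀ ℚ) (ha : OnComp q a) (hF : a ∈ Fil k K κ i) :
    ∑ j, ζ j • Finsupp.mapDomain (mov (s j) (e j)) a ∈ Fil k K κ' (i + 1) := by
  classical
  intro S hS
  rw [Finsupp.mapDomain_finsetSum]
  have h1 : ∀ j, Finsupp.mapDomain (fun x (c : {c // c ∈ S}) => x c)
      (ζ j • Finsupp.mapDomain (mov (s j) (e j)) a) =
      ζ j • Finsupp.mapDomain (fun x (c : {c // c ∈ S}) => mov (s j) (e j) x c) a := by
    intro j
    rw [Finsupp.mapDomain_smul, ← Finsupp.mapDomain_comp]
    rfl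
  rw [Finset.sum_congr rfl fun j _ => h1 j]
  -- few coordinates
  have hfew : ∀ j, (img (s j) S).card < i →
      Finsupp.mapDomain (fun x (c : {c // c ∈ S}) => mov (s j) (e j) x c) a ∈
        RatU k {c // c ∈ S} K := by
    intro j hj
    refine Fil.push_of_factor hF (img (s j) S) hj _ fun c => ?_
    rcases hsc : s j c.1 with _ | d
    · refine Or.inl ⟨e j c.1, fun x => ?_⟩
      simp only [mov, hsc]
    · refine Or.inr ⟨d, mem_img.2 ⟨c.1, c.2, hsc⟩, fun x => ?_⟩
      simp only [mov, hsc]
  rw [← Finset.sum_fiberwise_of_maps_to (s := Finset.univ) (t := (Finset.univ : Finset (Finset κ)))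
    (g := fun j => img (s j) S) (fun j _ => Finset.mem_univ _)]
  refine Submodule.sum_mem _ fun D _ => ?_
  by_cases hD : D.card < i
  · refine Submodule.sum_mem _ fun j hj => Submodule.smul_mem _ _ (hfew j ?_)
    rw [(Finset.mem_filter.1 hj).2]
    exact hD
  · by_cases hD' : D.card = i ∧ S.card = i
    · exact block S q q' ζ s hs e i (fun α' α h1 h2 _ => hform α' α h1 h2) a ha hF hD'.2 D
        hD'.1
    · rw [Finset.filter_false_of_mem, Finset.sum_empty]
      · exact Submodule.zero_mem _
      · intro j _ hj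
        have h2 := card_img_le (s j) S
        rw [hj] at h2
        apply hD'
        omega

end

end Pool.Agent.Y107.VC
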