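import Pool.Agent.Y107.VC.Mor
import Pool.Agent.Y107.VC.Defs2
import Pool.Agent.W603.LV.Ex

/-!
# Hyperelliptic involutions
-/

set_option autoImplicit false
set_option maxHeartbeats 400000

namespace Pool.Agent.Y107.VC

open FF IntermediateField Module
open Pool.Agent.W603.LV (deg_one)

section

variable {k : Type} [Field k] [CharZero k] [IsAlgClosed k] {K : Type} [Field K]
  [Algebra k K] [IsFF k K]

theorem exists_const (v : Place k K) {f : K} (hf : v.Reg f) :
    ∃ c : k, v.red f = v.red (algebraMap k K c) := by
  have h5 : finrank k v.RF = 1 := deg_one v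
  have h7 : (⊥ : Subalgebra k v.RF) = ⊤ := Subalgebra.bot_eq_top_of_finrank_eq_one h5
  have h8 : v.red f ∈ (⊤ : Subalgebra k v.RF) := Algebra.mem_top
  rw [← h7, Algebra.mem_bot] at h8
  obtain ⟨d, hd⟩ := h8
  exact ⟨d, hd.symm⟩

open Classical in
/-- The fibres of the quotient by a hyperelliptic involution. -/
theorem zero_fibre {ι : K ≃ₐ[k] K} (hι : ι ≠ AlgEquiv.refl) {g : K} (hg : Transcendental k g)
    (h2 : finrank k⟮g⟯ K = 2) (hιg : ι g = g) (v : Place k K) (hv : 0 < v.ord g) (w : Place k K) :
    max (w.ord g) 0 = (if v = w then (1 : ℤ) else 0) + (if v.comp ι = w then 1 else 0) := by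
  obtain ⟨Z, hZ, -, hZs⟩ := zeros hg
  rw [h2] at hZs
  simp only [deg_one, mul_one] at hZs
  have hord : ∀ u : Place k K, (u.comp ι).ord g = u.ord g := by
    intro u
    rw [Place.comp_ord, hιg]
  have hvZ : v ∈ Z := (hZ v).2 hv
  have hvZ' : v.comp ι ∈ Z := (hZ _).2 (by rw [hord]; exact hv)
  have hpos : ∀ u ∈ Z, 1 ≤ (u.ord g).toNat := by
    intro u hu
    have := (hZ u).1 hu
    omega
  by_cases hne : v.comp ι = v
  · -- ramified
    have hord2 : v.ord g ≠ 1 := by
      intro h1
      apply hι
      let A : Subring K := RingHom.eqLocus (ι : K →+* K) (RingHom.id K)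
      have hg0 : g ≠ 0 := by
        rintro rfl
        rw [v.ord_zero] at hv
        exact lt_irrefl _ hv
      ext f
      refine trivial_of_approx v ι hne A (fun a ha => ha) g hιg hg0 h1 ?_ f
      intro u hu
      obtain ⟨c, hc⟩ := exists_const v hu
      exact ⟨algebraMap k K c, ι.commutes c, v.reg_const c, hc⟩
    have h3 : (v.ord g).toNat ≤ 2 := by
      rw [← hZs]
      exact Finset.single_le_sum (f := fun u : Place k K => (u.ord g).toNat)
        (fun _ _ => Nat.zero_le _) hvZ
    have h4 : v.ord g = 2 := by omega
    have h5 : ∀ u ∈ Z, u = v := by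
      intro u hu
      by_contra hne2
      have h6 := Finset.add_le_sum (f := fun u : Place k K => (u.ord g).toNat) (s := Z)
        (fun _ _ => Nat.zero_le _) hu hvZ hne2
      have h7 := hpos u hu
      rw [hZs] at h6
      omega
    rw [hne]
    by_cases hw : v = w
    · rw [if_pos hw, ← hw, h4]
      rfl
    · rw [if_neg hw]
      have h6 : ¬ 0 < w.ord g := fun h => hw (h5 w ((hZ w).2 h)).symm
      simp only [add_zero]
      omega
  · have h3 := Finset.add_le_sum (f := fun u : Place k K => (u.ord g).toNat) (s := Z)
        (fun _ _ => Nat.zero_le _) hvZ hvZ' (Ne.symm hne)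
    rw [hZs] at h3
    have h4 := hord v
    have h5 : v.ord g = 1 := by
      rw [h4] at h3
      omega
    have h6 : ∀ u ∈ Z, u = v ∨ u = v.comp ι := by
      intro u hu
      by_contra hcon
      push Not at hcon
      have h7 := Finset.sum_le_sum_of_subset (f := fun u : Place k K => (u.ord g).toNat)
        (s := {u, v, v.comp ι}) (t := Z) (by
          intro x hx
          simp only [Finset.mem_insert, Finset.mem_singleton] at hx
          rcases hx with rfl | rfl | rfl
          · exact hu
          · exact hvZ
          · exact hvZ')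
      rw [Finset.sum_insert (by simp [hcon.1, hcon.2]), Finset.sum_insert (by
        simpa using Ne.symm hne), Finset.sum_singleton, hZs] at h7
      have h8 := hpos u hu
      have h9 := hpos v hvZ
      have h10 := hpos _ hvZ'
      omega
    by_cases hw : v = w
    · rw [if_pos hw, if_neg (by rw [← hw]; exact hne), ← hw, h5]
      rfl
    · by_cases hw' : v.comp ι = w
      · rw [if_neg hw, if_pos hw', ← hw', h4, h5]
        rfl
      · rw [if_neg hw, if_neg hw']
        have h7 : ¬ 0 < w.ord g := by
          intro h
          rcases h6 w ((hZ w).2 h) with h8 | h8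
          · exact hw h8.symm
          · exact hw' h8.symm
        omega

open Classical in
/-- All fibres are linearly equivalent to the polar divisor. -/
theorem fibre_rel {ι : K ≃ₐ[k] K} (hι : ι ≠ AlgEquiv.refl) {f : K} (hf : Transcendental k f)
    (h2 : finrank k⟮f⟯ K = 2) (hιf : ι f = f) (v : Place k K) :
    ∃ h : K, h ≠ 0 ∧ ∀ w : Place k K, w.ord h =
      (if v = w then (1 : ℤ) else 0) + (if v.comp ι = w then 1 else 0) - max (-w.ord f) 0 := by
  have hf0 : f ≠ 0 := by
    rintro rfl
    exact hf isAlgebraic_zero
  rcases lt_or_ge (v.ord f) 0 with hv | hv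
  · refine ⟨1, one_ne_zero, fun w => ?_⟩
    have hfi : Transcendental k f⁻¹ := fun h1 => hf (by simpa using h1.inv)
    have h3 := zero_fibre hι hfi (by rw [adjoin_inv]; exact h2) (by rw [map_inv₀, hιf]) v
      (by rw [v.ord_inv]; omega) w
    rw [w.ord_inv] at h3
    rw [w.ord_one, h3]
    ring
  · obtain ⟨c, hc⟩ := exists_const v (f := f) (Or.inr hv)
    let g := f - algebraMap k K c
    have hgt : Transcendental k g := by
      intro h1
      apply hf
      have h3 := h1.add (isAlgebraic_algebraMap (A := K) c)
      simpa [g] using h3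
    have hg0 : g ≠ 0 := by
      intro h
      rw [h] at hgt
      exact hgt isAlgebraic_zero
    have hvg : 0 < v.ord g := by
      have h3 : v.red g = 0 := by
        simp only [g]
        rw [v.red_sub (Or.inr hv) (v.reg_const c), hc, sub_self]
      rw [v.red_eq_zero_iff (by
        simp only [g]
        rw [sub_eq_add_neg]
        exact v.reg_add (Or.inr hv) (v.reg_neg (v.reg_const c)))] at h3
      exact h3.resolve_left hg0
    have hadj : k⟮g⟯ = k⟮f⟯ := by
      apply le_antisymm
      · rw [adjoin_simple_le_iff]
        exact sub_mem (mem_adjoin_simple_self k f) (IntermediateField.algebraMap_mem _ c)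
      · rw [adjoin_simple_le_iff]
        have h3 : f = g + algebraMap k K c := by simp [g]
        rw [h3]
        exact add_mem (mem_adjoin_simple_self k g) (IntermediateField.algebraMap_mem _ c)
    refine ⟨g, hg0, fun w => ?_⟩
    have h3 := zero_fibre hι hgt (by rw [hadj]; exact h2)
      (by simp only [g]; rw [map_sub, hιf, AlgEquiv.commutes]) v hvg w
    rw [← h3]
    -- the pole orders agree
    have h4 : max (-w.ord g) 0 = max (-w.ord f) 0 := by
      rcases lt_or_ge (w.ord f) 0 with h5 | h5
      · by_cases hc0 : c = 0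
        · simp only [g]
          rw [hc0, map_zero, sub_zero]
        · have h6 : algebraMap k K c ≠ 0 := by
            rwa [Ne, map_eq_zero]
          have h7 := w.ord_add_eq (f := f) (g := -algebraMap k K c) hf0 (neg_ne_zero.2 h6)
            (by rw [w.ord_neg, w.ord_const hc0]; exact h5)
          simp only [g]
          rw [sub_eq_add_neg, h7.2]
      · have h6 : w.Reg g := by
          simp only [g]
          rw [sub_eq_add_neg]
          exact w.reg_add (Or.inr h5) (w.reg_neg (w.reg_const c))
        have h7 := (w.reg_iff hg0).1 h6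
        omega
    rw [← h4]
    omega

/-- The relation given by a hyperelliptic involution. -/
theorem hyp_rel {ι : K ≃ₐ[k] K} (hι : IsHyp ι) (v b : Place k K) :
    Finsupp.single (fun _ : Unit => v) (1 : ℚ) + Finsupp.single (fun _ : Unit => v.comp ι) 1 -
      Finsupp.single (fun _ : Unit => b) 1 - Finsupp.single (fun _ : Unit => b.comp ι) 1 ∈
        Rat k fun _ : Unit => K := by
  classical
  obtain ⟨hι1, -, f, hf, h2, hιf⟩ := hι
  obtain ⟨h, hh0, hh⟩ := fibre_rel hι1 hf h2 hιf v
  obtain ⟨h', hh0', hh'⟩ := fibre_rel hι1 hf h2 hιf b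
  refine Submodule.subset_span ⟨K, inferInstance, inferInstance, inferInstance, h / h',
    fun w _ => w, div_ne_zero hh0 hh0', fun _ => isMor_id, ?_⟩
  have h3 : pd (k := k) (h / h') (fun (w : Place k K) (_ : Unit) => w) =
      Finsupp.mapDomain (fun (w : Place k K) (_ : Unit) => w)
        (pd (k := k) (h / h') (fun w : Place k K => w)) := by
    rw [map_pd]
  have h4 : pd (k := k) (h / h') (fun w : Place k K => w) =
      Finsupp.single v (1 : ℚ) + Finsupp.single (v.comp ι) 1 - Finsupp.single b 1 -
        Finsupp.single (b.comp ι) 1 := by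
    ext w
    have h5 : pd (k := k) (h / h') (fun w : Place k K => w) w = (w.ord (h / h') : ℚ) := by
      unfold pd Finsupp.sum
      rw [Finsupp.finsetSum_apply]
      simp only [Finsupp.single_apply]
      rw [Finset.sum_ite_eq', divisor_apply]
      split_ifs with h6
      · rfl
      · rw [Finsupp.notMem_support_iff, divisor_apply] at h6
        rw [h6]
        rfl
    rw [h5, w.ord_div hh0 hh0', hh, hh']
    simp only [Finsupp.add_apply, Finsupp.sub_apply, Finsupp.single_apply]
    push_cast
    ring
  rw [h3, h4]
  have h5 : ∀ x y : Place k K →₀ ℚ, Finsupp.mapDomain (fun (w : Place k K) (_ : Unit) => w) (x - y) =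
      Finsupp.mapDomain (fun (w : Place k K) (_ : Unit) => w) x -
      Finsupp.mapDomain (fun (w : Place k K) (_ : Unit) => w) y := fun x y =>
    map_sub (Finsupp.mapDomain.addMonoidHom _) x y
  rw [h5, h5, Finsupp.mapDomain_add]
  simp only [Finsupp.mapDomain_single]

end

end Pool.Agent.Y107.VC
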