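import Pool.Agent.Y107.VC.Fib2

/-!
# Symmetric cycles on powers of a curve
-/

set_option autoImplicit false

namespace Pool.Agent.Y107.VC

open FF Module Equiv
open Pool.Agent.W603.LV (deg_one)

section

variable {A X : Type} [Fintype A] [DecidableEq A]

/-- The symmetric cycle of a word. -/
noncomputable def symc (x : A → X) : (A → X) →₀ ℚ :=
  ∑ τ : Perm A, Finsupp.single (fun a => x (τ a)) 1

theorem symc_comp (x : A → X) (σ : Perm A) : symc (fun a => x (σ a)) = symc x := by
  unfold symc
  exact Fintype.sum_equiv (Equiv.mulLeft σ) _ _ fun τ => rfl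

open Classical in
/-- The number of occurrences. -/
noncomputable def cnt (x : A → X) (v : X) : ℤ := ∑ a, if x a = v then 1 else 0

theorem cnt_eq (x : A → X) (v : X) [Fintype {a // x a = v}] :
    cnt x v = Fintype.card {a // x a = v} := by
  classical
  unfold cnt
  rw [Finset.sum_boole, Fintype.card_subtype]

theorem exists_perm {x y : A → X} (h : ∀ v, cnt x v = cnt y v) :
    ∃ τ : Perm A, y = fun a => x (τ a) := by
  classical
  have h1 : ∀ v, Nonempty ({a // y a = v} ≃ {a // x a = v}) := by
    intro v
    have h2 := h v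
    rw [cnt_eq, cnt_eq] at h2
    exact ⟨Fintype.equivOfCardEq (by exact_mod_cast h2.symm)⟩
  let ε := fun v => (h1 v).some
  exact ⟨Equiv.ofFiberEquiv ε, funext fun a => (Equiv.ofFiberEquiv_map ε a).symm⟩

theorem symc_congr {x y : A → X} (h : ∀ v, cnt x v = cnt y v) : symc x = symc y := by
  obtain ⟨τ, rfl⟩ := exists_perm h
  rw [symc_comp]

theorem exists_inj {I : Type} [Fintype I] [DecidableEq I] {x : A → X} {t : I → X}
    (h : ∀ v, cnt t v ≤ cnt x v) :
    ∃ j : I → A, Function.Injective j ∧ ∀ i, x (j i) = t i := by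
  classical
  have h1 : ∀ v, Nonempty ({i // t i = v} ↪ {a // x a = v}) := by
    intro v
    have h2 := h v
    rw [cnt_eq, cnt_eq] at h2
    exact Function.Embedding.nonempty_of_card_le (by exact_mod_cast h2)
  let ε := fun v => (h1 v).some
  refine ⟨fun i => (ε (t i) ⟨i, rfl⟩).1, ?_, fun i => (ε (t i) ⟨i, rfl⟩).2⟩
  intro i i' hii
  have h2 : t i = t i' := by
    have h3 := (ε (t i) ⟨i, rfl⟩).2
    have h4 := (ε (t i') ⟨i', rfl⟩).2
    simp only at hii
    rw [hii] at h3
    rw [← h3, h4]
  have h3 : ∀ v (hv : t i = v), (ε (t i) ⟨i, rfl⟩).1 = (ε v ⟨i, hv⟩).1 := by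
    rintro v rfl
    rfl
  simp only at hii
  rw [h3 _ h2] at hii
  have h4 := (ε (t i')).injective (Subtype.ext hii)
  exact congrArg Subtype.val h4

theorem exists_word (M : X →₀ ℕ) (hM : ∑ v ∈ M.support, M v = Fintype.card A) :
    ∃ y : A → X, ∀ v, cnt y v = M v := by
  classical
  have h1 : Fintype.card (Σ v : M.support, Fin (M v)) = Fintype.card A := by
    rw [Fintype.card_sigma, ← hM]
    simp only [Fintype.card_fin]
    exact Finset.sum_coe_sort M.support fun v => M v
  let ε : A ≃ Σ v : M.support, Fin (M v) := Fintype.equivOfCardEq h1.symm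
  refine ⟨fun a => (ε a).1.1, fun v => ?_⟩
  unfold cnt
  rw [Fintype.sum_equiv ε _ (fun s : Σ v : M.support, Fin (M v) => if s.1.1 = v then (1 : ℤ) else 0)
    (fun a => rfl), Fintype.sum_sigma]
  have h2 : ∀ u : M.support, ∑ _i : Fin (M u), (if (u : X) = v then (1 : ℤ) else 0) =
      (M u : ℤ) * if (u : X) = v then 1 else 0 := by
    intro u
    rw [Finset.sum_const, Finset.card_univ, Fintype.card_fin, nsmul_eq_mul]
  refine (Finset.sum_congr rfl fun u _ => h2 u).trans ?_
  rw [Finset.sum_coe_sort M.support fun u => (M u : ℤ) * if u = v then 1 else 0]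
  simp only [mul_ite, mul_one, mul_zero, Finset.sum_ite_eq', Finsupp.mem_support_iff]
  split_ifs with h
  · rfl
  · push Not at h
    rw [h]
    rfl

end

section

variable {k : Type} [Field k] [CharZero k] [IsAlgClosed k] {K : Type} [Field K]
  [Algebra k K] [IsFF k K] {A : Type} [Fintype A] [DecidableEq A]

theorem cnt_mor {F : Type} [Field F] [Algebra k F] [IsFF k F] {I : Type} [Fintype I]
    [DecidableEq I] (e : I → K →ₐ[k] F) (w : Place k F) (v : Place k K) :
    cnt (fun i => mor (e i) w) v =
      ∑ i, (open Classical in if Lies (e i) w v then (1 : ℤ) else 0) := by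
  classical
  unfold cnt
  refine Finset.sum_congr rfl fun i _ => ?_
  refine if_congr ⟨?_, ?_⟩ rfl rfl
  · rintro rfl
    exact mor_spec (e i) w
  · intro h
    exact (mor_spec (e i) w).unique h

/-- Linear equivalence of effective divisors gives rational equivalence of the symmetric
cycles. -/
theorem symc_sub_mem {x y : A → Place k K} {f : K} (hf0 : f ≠ 0)
    (h : ∀ v, cnt x v - cnt y v = v.ord f) :
    symc x - symc y ∈ Rat k fun _ : A => K := by
  classical
  by_cases hf : Transcendental k f
  swap
  · have h1 : ∀ v, cnt x v = cnt y v := by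
      intro v
      have h2 := h v
      rw [v.ord_eq_zero_of_isAlgebraic hf0 (by simpa [Transcendental] using hf)] at h2
      linarith
    rw [symc_congr h1, sub_self]
    exact Submodule.zero_mem _
  obtain ⟨F, i1, i2, i3, I, i4, e, hh, hh0, he, hI, hz, hp⟩ := fibre f hf
  have hhtr : Transcendental k hh := by
    have hfin := IsFF.finite hf
    have hIpos : 0 < Fintype.card I := by
      rw [hI]
      exact finrank_pos
    obtain ⟨i0⟩ := Fintype.card_pos_iff.1 hIpos
    rw [← he i0]
    intro h1
    exact hf ((isAlgebraic_algHom_iff (e i0) (e i0).injective).1 h1)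
  obtain ⟨Z, hZ, -, hZs⟩ := zeros hhtr
  have hZ0 : Z.Nonempty := by
    by_contra hcon
    rw [Finset.not_nonempty_iff_eq_empty] at hcon
    rw [hcon, Finset.sum_empty] at hZs
    have := IsFF.finite hhtr
    exact absurd hZs finrank_pos.ne
  obtain ⟨w0, hw0⟩ := hZ0
  have hw0' := (hZ w0).1 hw0
  obtain ⟨j, hj, hxj⟩ := exists_inj (x := x) (t := fun i => mor (e i) w0) (by
    intro v
    rw [cnt_mor, hz w0 hw0' v]
    have h1 : (0 : ℤ) ≤ cnt x v := by
      unfold cnt
      exact Finset.sum_nonneg fun a _ => by split_ifs <;> omega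
    have h2 : (0 : ℤ) ≤ cnt y v := by
      unfold cnt
      exact Finset.sum_nonneg fun a _ => by split_ifs <;> omega
    have h3 := h v
    omega)
  -- the words
  let t : Place k F → A → Place k K := fun w a =>
    if ha : ∃ i, j i = a then mor (e ha.choose) w else x a
  have htj : ∀ w i, t w (j i) = mor (e i) w := by
    intro w i
    have h1 : ∃ i', j i' = j i := ⟨i, rfl⟩
    have h2 : t w (j i) = mor (e h1.choose) w := dif_pos h1
    rw [h2, hj h1.choose_spec]
  have htn : ∀ w a, (¬∃ i, j i = a) → t w a = x a := fun w a ha => dif_neg ha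
  have hcnt : ∀ w v, cnt (t w) v = cnt (fun i => mor (e i) w) v +
      ∑ a, (if (¬∃ i, j i = a) ∧ x a = v then 1 else 0) := by
    intro w v
    have h1 : cnt (fun i => mor (e i) w) v = ∑ a, (if (∃ i, j i = a) ∧ t w a = v then 1 else 0) := by
      unfold cnt
      rw [← Finset.sum_filter, ← Finset.sum_filter, Finset.sum_const, Finset.sum_const]
      congr 1
      refine Finset.card_bij (fun i _ => j i) ?_ ?_ ?_
      · intro i hi
        rw [Finset.mem_filter] at hi ⊢
        exact ⟨Finset.mem_univ _, ⟨i, rfl⟩, by rw [htj]; exact hi.2⟩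
      · intro i _ i' _ hii
        exact hj hii
      · rintro a ha
        rw [Finset.mem_filter] at ha
        obtain ⟨-, ⟨i, rfl⟩, ha⟩ := ha
        exact ⟨i, Finset.mem_filter.2 ⟨Finset.mem_univ _, (htj w i).symm.trans ha⟩, rfl⟩
    rw [h1, ← Finset.sum_add_distrib]
    unfold cnt
    refine Finset.sum_congr rfl fun a _ => ?_
    by_cases h2 : ∃ i, j i = a
    · simp only [h2, true_and, not_true_eq_false, false_and, if_false, add_zero]
    · rw [htn w a h2]
      simp only [h2, false_and, not_false_eq_true, true_and, if_false, zero_add]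
  have hw0x : t w0 = x := by
    funext a
    by_cases h2 : ∃ i, j i = a
    · obtain ⟨i, rfl⟩ := h2
      rw [htj, hxj]
    · exact htn _ _ h2
  have hsx : ∀ w : Place k F, 0 < w.ord hh → symc (t w) = symc x := by
    intro w hw
    refine symc_congr fun v => ?_
    have h1 := hcnt w v
    have h2 := hcnt w0 v
    rw [cnt_mor, hz w hw v] at h1
    rw [cnt_mor, hz w0 hw0' v, hw0x] at h2
    rw [h1, h2]
  have hsy : ∀ w : Place k F, w.ord hh < 0 → symc (t w) = symc y := by
    intro w hw
    refine symc_congr fun v => ?_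
    have h1 := hcnt w v
    have h2 := hcnt w0 v
    rw [cnt_mor, hp w hw v] at h1
    rw [cnt_mor, hz w0 hw0' v, hw0x] at h2
    have h3 := h v
    omega
  -- the relation
  have hrel : ∑ τ : Perm A, pd (k := k) hh (fun w => fun a => t w (τ a)) ∈
      Rat k fun _ : A => K := by
    refine Submodule.sum_mem _ fun τ _ => Submodule.subset_span
      ⟨F, i1, i2, i3, hh, fun w a => t w (τ a), hh0, fun a => ?_, rfl⟩
    by_cases h2 : ∃ i, j i = τ a
    · obtain ⟨i, hi⟩ := h2
      have h3 : (fun w => t w (τ a)) = mor (e i) := funext fun w => by rw [← hi, htj]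
      rw [h3]
      exact isMor_mor (e i)
    · have h3 : (fun w => t w (τ a)) = fun _ => x (τ a) := funext fun w => htn w _ h2
      rw [h3]
      exact isMor_const _
  have hrel2 : ∑ τ : Perm A, pd (k := k) hh (fun w => fun a => t w (τ a)) =
      ∑ w ∈ (divisor k hh).support, (w.ord hh : ℚ) • symc (t w) := by
    unfold pd Finsupp.sum symc
    rw [Finset.sum_comm]
    refine Finset.sum_congr rfl fun w _ => ?_
    rw [Finset.smul_sum]
    refine Finset.sum_congr rfl fun τ _ => ?_
    rw [Finsupp.smul_single, smul_eq_mul, mul_one]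
    rfl
  have hdeg : ∑ w ∈ (divisor k hh).support, (w.ord hh : ℚ) = 0 := by
    have h1 := ddeg_divisor (k := k) hh
    unfold ddeg Finsupp.sum at h1
    have h2 : ∑ w ∈ (divisor k hh).support, w.ord hh = 0 := by
      rw [← h1]
      refine Finset.sum_congr rfl fun w _ => ?_
      change w.ord hh = w.ord hh * (w.deg : ℤ)
      rw [deg_one]
      push_cast
      rw [mul_one]
    exact_mod_cast h2
  have hrel3 : ∑ w ∈ (divisor k hh).support, (w.ord hh : ℚ) • symc (t w) =
      (∑ w ∈ (divisor k hh).support, (if 0 < w.ord hh then (w.ord hh : ℚ) else 0)) •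
        (symc x - symc y) := by
    rw [Finset.sum_smul]
    have h1 : ∀ w ∈ (divisor k hh).support, (w.ord hh : ℚ) • symc (t w) =
        (w.ord hh : ℚ) • symc y +
          (if 0 < w.ord hh then (w.ord hh : ℚ) else 0) • (symc x - symc y) := by
      intro w hw
      have hw' : w.ord hh ≠ 0 := Finsupp.mem_support_iff.1 hw
      rcases lt_or_gt_of_ne hw' with h2 | h2
      · rw [hsy w h2, if_neg (by omega), zero_smul, add_zero]
      · rw [hsx w h2, if_pos h2, smul_sub]
        abel
    rw [Finset.sum_congr rfl h1, Finset.sum_add_distrib, ← Finset.sum_smul, hdeg, zero_smul,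
      zero_add]
  rw [hrel2, hrel3] at hrel
  have hpos : (0 : ℚ) < ∑ w ∈ (divisor k hh).support,
      (if 0 < w.ord hh then (w.ord hh : ℚ) else 0) := by
    have hw0s : w0 ∈ (divisor k hh).support := by
      rw [Finsupp.mem_support_iff]
      exact hw0'.ne'
    have h1 := Finset.single_le_sum (f := fun w : Place k F =>
      if 0 < w.ord hh then (w.ord hh : ℚ) else 0) (s := (divisor k hh).support)
      (fun w _ => by
        split_ifs with h2
        · exact_mod_cast h2.le
        · exact le_rfl) hw0s
    simp only [if_pos hw0'] at h1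
    have h2 : (0 : ℚ) < w0.ord hh := by exact_mod_cast hw0'
    linarith
  have h1 := Submodule.smul_mem _ (∑ w ∈ (divisor k hh).support,
      (if 0 < w.ord hh then (w.ord hh : ℚ) else 0))⁻¹ hrel
  rwa [smul_smul, inv_mul_cancel₀ hpos.ne', one_smul] at h1

theorem ddeg_eq_sum (D : Place k K →₀ ℤ) : ddeg D = D.sum fun _ n => n := by
  unfold ddeg
  refine Finsupp.sum_congr fun P _ => ?_
  rw [deg_one, Nat.cast_one, mul_one]

theorem genus_spec (D : Place k K →₀ ℤ) : ddeg D + 1 - genus k K ≤ ell D := by
  have h1 : {g : ℕ | ∀ D : Place k K →₀ ℤ, (D.sum fun _ n => n) + 1 - g ≤ ell D}.Nonempty := by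
    obtain ⟨γ, N, h, -⟩ := riemann (k := k) (K := K)
    refine ⟨(γ + 1).toNat, fun D => ?_⟩
    have h2 := h D
    have h3 : γ + 1 ≤ (γ + 1).toNat := Int.self_le_toNat _
    rw [← ddeg_eq_sum]
    linarith
  rw [ddeg_eq_sum]
  exact Nat.sInf_mem h1 D

/-- Riemann's inequality: an effective divisor of degree `g + 1` can be moved to pass through a
given point. -/
theorem exists_move (hA : Fintype.card A = genus k K + 1) (x : A → Place k K) (x0 : Place k K) :
    ∃ y : A → Place k K, (∃ a, y a = x0) ∧ symc x - symc y ∈ Rat k fun _ : A => K := by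
  classical
  let D : Place k K →₀ ℤ := (∑ a, Finsupp.single (x a) 1) - Finsupp.single x0 1
  have hDv : ∀ v, D v = cnt x v - (if x0 = v then 1 else 0) := by
    intro v
    simp only [D, Finsupp.sub_apply, Finsupp.finsetSum_apply, Finsupp.single_apply, cnt]
  have hddsum : ∀ s : Finset A, ddeg (∑ a ∈ s, Finsupp.single (x a) (1 : ℤ)) = s.card := by
    intro s
    induction s using Finset.induction_on with
    | empty => rw [Finset.sum_empty, ddeg_zero, Finset.card_empty]; rfl
    | insert a s ha ih =>
      rw [Finset.sum_insert ha, ddeg_add, ih, ddeg_single, deg_one, Finset.card_insert_of_notMem ha]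
      push_cast
      ring
  have hD : ddeg D = genus k K := by
    have h1 : ddeg D = ddeg (∑ a, Finsupp.single (x a) (1 : ℤ)) -
      ddeg (Finsupp.single x0 (1 : ℤ)) := ddeg_sub _ _
    rw [h1, hddsum, Finset.card_univ, hA, ddeg_single, deg_one]
    push_cast
    ring
  have hell : 0 < ell D := by
    have := genus_spec D
    rw [hD] at this
    linarith
  obtain ⟨f, hf, hf0⟩ := exists_ne_zero_of_ell_pos hell
  rw [mem_LL] at hf
  have hf' := hf.resolve_left hf0
  let M0 : Place k K →₀ ℤ := (∑ a, Finsupp.single (x a) 1) + divisor k f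
  have hM0v : ∀ v, M0 v = cnt x v + v.ord f := by
    intro v
    simp only [M0, Finsupp.add_apply, Finsupp.finsetSum_apply, Finsupp.single_apply, cnt,
      divisor_apply]
  have hM0 : ∀ v, (if x0 = v then 1 else 0) ≤ M0 v := by
    intro v
    have h1 := hf' v
    rw [hDv] at h1
    rw [hM0v]
    linarith
  have hM0' : ∀ v, 0 ≤ M0 v := by
    intro v
    have := hM0 v
    split_ifs at this <;> omega
  let M : Place k K →₀ ℕ := M0.mapRange Int.toNat rfl
  have hMv : ∀ v, (M v : ℤ) = M0 v := fun v => Int.toNat_of_nonneg (hM0' v)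
  have hsupp : M.support = M0.support := by
    ext v
    rw [Finsupp.mem_support_iff, Finsupp.mem_support_iff]
    have := hMv v
    omega
  have hMs : ∑ v ∈ M.support, M v = Fintype.card A := by
    have h1 : ddeg M0 = Fintype.card A := by
      have h2 : ddeg M0 = ddeg (∑ a, Finsupp.single (x a) (1 : ℤ)) + ddeg (divisor k f) :=
        ddeg_add _ _
      rw [h2, hddsum, ddeg_divisor, add_zero, Finset.card_univ]
    have h2 : ((∑ v ∈ M.support, M v : ℕ) : ℤ) = ddeg M0 := by
      unfold ddeg Finsupp.sum
      rw [hsupp]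
      push_cast
      refine Finset.sum_congr rfl fun v _ => ?_
      change (M v : ℤ) = M0 v * (v.deg : ℤ)
      rw [hMv, deg_one]
      push_cast
      rw [mul_one]
    rw [h1] at h2
    exact_mod_cast h2
  obtain ⟨y, hy⟩ := exists_word (A := A) M hMs
  refine ⟨y, ?_, ?_⟩
  · by_contra hcon
    push Not at hcon
    have h1 : cnt y x0 = 0 := by
      unfold cnt
      exact Finset.sum_eq_zero fun a _ => if_neg (hcon a)
    rw [hy, hMv] at h1
    have h2 := hM0 x0
    rw [if_pos rfl, h1] at h2
    omega
  · have h1 := symc_sub_mem (x := y) (y := x) hf0 (by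
      intro v
      rw [hy, hMv, hM0v]
      ring)
    have h2 : symc x - symc y = -(symc y - symc x) := by abel
    rw [h2]
    exact Submodule.neg_mem _ h1

end

end Pool.Agent.Y107.VC
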