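import Pool.Agent.Y107.VC.Prim

/-!
# The main theorem on permutation correspondences
-/

set_option autoImplicit false
set_option maxHeartbeats 400000

namespace Pool.Agent.Y107.VC

open FF Equiv
open Pool.Agent.H204R3.SP (permsOf mem_permsOf)
open Pool.Agent.TH131.GHC (AntiSet Van mem_anti_of_van)

section

variable {κ : Type} [Fintype κ] [DecidableEq κ]

theorem anti_perm {G : (κ → κ) → ℚ} {A : Finset κ}
    (hG : ∀ p ∈ A, ∀ p' ∈ A, p ≠ p' → ∀ X : κ → κ, G (fun c => X (swap p p' c)) = -G X)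
    (τ : Perm κ) (hτ : τ ∈ permsOf A) (X : κ → κ) :
    G (fun c => X (τ c)) = ((Perm.sign τ : ℤ) : ℚ) * G X := by
  have key : ∀ τ' : Perm {a // a ∈ A}, ∀ X : κ → κ,
      G (fun c => X (Perm.ofSubtype τ' c)) = ((Perm.sign τ' : ℤ) : ℚ) * G X := by
    intro τ'
    induction τ' using Perm.swap_induction_on with
    | one =>
      intro X
      rw [map_one, Perm.sign_one]
      simp
    | swap_mul f x y hxy ih =>
      intro X
      have h1 : (fun c => X (Perm.ofSubtype (swap x y * f) c)) =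
          fun c => (fun d => X (swap (x : κ) (y : κ) d)) (Perm.ofSubtype f c) := by
        funext c
        rw [map_mul, Perm.ofSubtype_swap_eq]
        rfl
      rw [h1]
      refine (ih fun d => X (swap (x : κ) (y : κ) d)).trans ?_
      rw [hG _ x.2 _ y.2 (fun h => hxy (Subtype.ext h)), Perm.sign_mul, Perm.sign_swap hxy]
      push_cast
      ring
  rw [mem_permsOf] at hτ
  have h1 := key (Perm.subtypePerm τ (p := fun c => c ∈ A) (by
    intro c
    constructor
    · intro h
      by_contra hcon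
      rw [hτ c hcon] at h
      exact hcon h
    · intro h
      by_contra hcon
      have h2 := hτ _ hcon
      exact hcon (by rw [τ.injective h2]; exact h))) X
  rw [Perm.ofSubtype_subtypePerm _ (by
    intro c hc
    by_contra hcon
    exact hc (hτ c hcon))] at h1
  rw [h1]
  congr 2
  rw [← Perm.sign_ofSubtype, Perm.ofSubtype_subtypePerm _ (by
    intro c hc
    by_contra hcon
    exact hc (hτ c hcon))]

end

section

variable {k : Type} [Field k] [CharZero k] [IsAlgClosed k] {T κ : Type} [Fintype κ]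
  [DecidableEq κ] [Fintype T] [DecidableEq T]
  {K : T → Type} [∀ t, Field (K t)] [∀ t, Algebra k (K t)] [∀ t, IsFF k (K t)]

/-- The linear map applying a function on permutations, twisted by the sign, to a word. -/
noncomputable def LG (x : κ → Σ t, Place k (K t)) :
    ((κ → κ) → ℚ) →ₗ[ℚ] ((κ → Σ t, Place k (K t)) →₀ ℚ) where
  toFun G := ∑ σ : Perm κ, (((Perm.sign σ : ℤ) : ℚ) * G σ) •
    Finsupp.single (fun c => x (σ c)) (1 : ℚ)
  map_add' G H := by
    rw [← Finset.sum_add_distrib]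
    refine Finset.sum_congr rfl fun σ _ => ?_
    rw [Pi.add_apply, mul_add, add_smul]
  map_smul' r G := by
    rw [Finset.smul_sum]
    refine Finset.sum_congr rfl fun σ _ => ?_
    rw [Pi.smul_apply, smul_eq_mul, RingHom.id_apply, smul_smul]
    congr 1
    ring

theorem LG_apply (x : κ → Σ t, Place k (K t)) (G : (κ → κ) → ℚ) :
    LG x G = ∑ σ : Perm κ, (((Perm.sign σ : ℤ) : ℚ) * G σ) •
      Finsupp.single (fun c => x (σ c)) (1 : ℚ) := rfl

theorem sgn_sq (σ : Perm κ) : ((Perm.sign σ : ℤ) : ℚ) * ((Perm.sign σ : ℤ) : ℚ) = 1 := by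
  rcases Int.units_eq_one_or (Perm.sign σ) with h | h <;> rw [h] <;> simp

theorem LG_anti (q : κ → T) (b : ∀ t, Place k (K t)) (x : κ → Σ t, Place k (K t))
    (hx : ∀ c, (x c).1 = q c) {G : (κ → κ) → ℚ}
    (hG : G ∈ AntiSet ℚ q q (fun t => genus k (K t))) :
    PiL q b (LG x G) ∈ RatU k κ K := by
  obtain ⟨t, A, hA, hAq, hsupp, hanti⟩ := hG
  have hcard : A.card = genus k (K t) + 1 := hA
  have h1 : ((permsOf A).card : ℚ) • LG x G = ∑ σ : Perm κ, (((Perm.sign σ : ℤ) : ℚ) * G σ) •
      ∑ τ ∈ permsOf A, Finsupp.single (fun c => (fun d => x (σ d)) (τ c)) (1 : ℚ) := by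
    simp only [Finset.smul_sum]
    rw [Finset.sum_comm]
    have h2 : ∀ τ ∈ permsOf A, ∑ σ : Perm κ, (((Perm.sign σ : ℤ) : ℚ) * G σ) •
        Finsupp.single (fun c => (fun d => x (σ d)) (τ c)) (1 : ℚ) = LG x G := by
      intro τ hτ
      rw [LG_apply]
      refine Fintype.sum_equiv (Equiv.mulRight τ) _ _ fun σ => ?_
      have h3 := anti_perm hanti τ hτ (σ : κ → κ)
      have h4 : (((Equiv.mulRight τ) σ : Perm κ) : κ → κ) = fun c => σ (τ c) := rfl
      rw [h4, h3]
      have h5 : ((Perm.sign ((Equiv.mulRight τ) σ) : ℤ) : ℚ) =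
          ((Perm.sign σ : ℤ) : ℚ) * ((Perm.sign τ : ℤ) : ℚ) := by
        rw [Equiv.coe_mulRight, Perm.sign_mul]
        push_cast
        rfl
      rw [h5]
      congr 1
      linear_combination (-((Perm.sign σ : ℤ) : ℚ) * G σ) * sgn_sq τ
    rw [Finset.sum_congr rfl h2, Finset.sum_const, Nat.cast_smul_eq_nsmul]
  have h2 : PiL q b (((permsOf A).card : ℚ) • LG x G) ∈ RatU k κ K := by
    rw [h1, map_sum]
    refine Submodule.sum_mem _ fun σ _ => ?_
    rw [map_smul]
    by_cases h0 : G σ = 0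
    · rw [h0, mul_zero, zero_smul]
      exact Submodule.zero_mem _
    · refine Submodule.smul_mem _ _ (PiL_sym_mem q b (fun d => x (σ d)) (fun c => ?_) A t hAq
        hcard)
      rw [hx]
      exact hsupp σ h0 c
  have h3 : ((permsOf A).card : ℚ) ≠ 0 := by
    have h4 : (1 : Perm κ) ∈ permsOf A := by
      rw [mem_permsOf]
      exact fun _ _ => rfl
    have h5 : 0 < (permsOf A).card := Finset.card_pos.2 ⟨1, h4⟩
    exact_mod_cast h5.ne'
  have h4 := Submodule.smul_mem _ ((permsOf A).card : ℚ)⁻¹ h2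
  rwa [map_smul, smul_smul, inv_mul_cancel₀ h3, one_smul] at h4

theorem word_mem (q : κ → T) (b : ∀ t, Place k (K t)) (z : Perm κ → ℚ)
    (hz : ∀ σ, z σ ≠ 0 → ∀ c, q (σ c) = q c)
    (hvan : ∀ c : κ → Σ t, Fin (genus k (K t)), (∀ j, (c j).1 = q j) →
      ∀ Y : (Σ t, Fin (genus k (K t))) → κ → ℚ,
        ∑ σ : Perm κ, (((Perm.sign σ : ℤ) : ℚ) * z σ) * ∏ j, Y (c j) (σ j) = 0)
    (x : κ → Σ t, Place k (K t)) (hx : ∀ c, (x c).1 = q c) :
    PiL q b (∑ σ : Perm κ, z σ • Finsupp.single (fun c => x (σ c)) (1 : ℚ)) ∈ RatU k κ K := by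
  let F : (κ → κ) → ℚ := fun X => ∑ σ : Perm κ,
    if X = σ then ((Perm.sign σ : ℤ) : ℚ) * z σ else 0
  have hFσ : ∀ σ : Perm κ, F σ = ((Perm.sign σ : ℤ) : ℚ) * z σ := by
    intro σ
    simp only [F]
    rw [Finset.sum_eq_single σ]
    · rw [if_pos rfl]
    · intro τ _ hne
      rw [if_neg]
      intro h
      exact hne (Equiv.coe_fn_injective h).symm
    · intro h
      exact absurd (Finset.mem_univ _) h
  have hF : F ∈ Submodule.span ℚ (AntiSet ℚ q q (fun t => genus k (K t))) := by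
    have hF1 : ∀ X : κ → κ, F X ≠ 0 → ∀ c, q (X c) = q c := by
      intro X hX c
      obtain ⟨σ, -, hσ⟩ := Finset.exists_ne_zero_of_sum_ne_zero hX
      by_cases h1 : X = σ
      · rw [if_pos h1] at hσ
        rw [h1]
        exact hz σ (right_ne_zero_of_mul hσ) c
      · rw [if_neg h1] at hσ
        exact absurd rfl hσ
    have hF2 : Van (fun γ : Σ t, Fin (genus k (K t)) => γ.1) q F := by
      intro c hc Y
      rw [← hvan c hc Y]
      simp only [F, Finset.sum_mul]
      rw [Finset.sum_comm]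
      refine Finset.sum_congr rfl fun σ _ => ?_
      rw [Finset.sum_eq_single (σ : κ → κ)]
      · rw [if_pos rfl]
      · intro X _ hX
        rw [if_neg hX, zero_mul]
      · intro h
        exact absurd (Finset.mem_univ _) h
    have hF3 := mem_anti_of_van q (fun γ : Σ t, Fin (genus k (K t)) => γ.1) q F hF1 hF2
    have hF4 : (fun t => genus k (K t)) = fun t : T =>
        Fintype.card {γ : Σ t, Fin (genus k (K t)) // γ.1 = t} := by
      funext t
      rw [Fintype.card_congr (Equiv.sigmaSubtype t), Fintype.card_fin]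
    rw [hF4]
    convert hF3
  have h1 : LG x F = ∑ σ : Perm κ, z σ • Finsupp.single (fun c => x (σ c)) (1 : ℚ) := by
    rw [LG_apply]
    refine Finset.sum_congr rfl fun σ _ => ?_
    rw [hFσ, ← mul_assoc, sgn_sq, one_mul]
  rw [← h1]
  clear h1 hFσ
  clear_value F
  induction hF using Submodule.span_induction with
  | zero => rw [map_zero, map_zero]; exact Submodule.zero_mem _
  | add G H _ _ hG hH => rw [map_add, map_add]; exact Submodule.add_mem _ hG hH
  | smul r G _ hG => rw [map_smul, map_smul]; exact Submodule.smul_mem _ _ hG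
  | mem G hG => exact LG_anti q b x hx hG

/-- Permutation correspondences vanishing on the top holomorphic forms kill the primitive
zero-cycles. -/
theorem mainU (q : κ → T) (b : ∀ t, Place k (K t)) (z : Perm κ → ℚ)
    (hz : ∀ σ, z σ ≠ 0 → ∀ c, q (σ c) = q c)
    (hvan : ∀ c : κ → Σ t, Fin (genus k (K t)), (∀ j, (c j).1 = q j) →
      ∀ Y : (Σ t, Fin (genus k (K t))) → κ → ℚ,
        ∑ σ : Perm κ, (((Perm.sign σ : ℤ) : ℚ) * z σ) * ∏ j, Y (c j) (σ j) = 0)
    (a : (κ → Σ t, Place k (K t)) →₀ ℚ) (ha : ∀ x ∈ a.support, ∀ c, (x c).1 = q c)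
    (hprim : ∀ c, Finsupp.mapDomain (rep q b {c}) a ∈ RatU k κ K) :
    ∑ σ : Perm κ, z σ • pm σ a ∈ RatU k κ K := by
  have h1 : ∑ σ : Perm κ, z σ • pm σ (a - PiL q b a) ∈ RatU k κ K :=
    Submodule.sum_mem _ fun σ _ => Submodule.smul_mem _ _ (pm_mem σ (sub_PiL_mem q b hprim))
  have h2 : ∑ σ : Perm κ, z σ • pm σ (PiL q b a) ∈ RatU k κ K := by
    have h3 : ∑ σ : Perm κ, z σ • pm σ (PiL q b a) = PiL q b (∑ σ : Perm κ, z σ • pm σ a) := by
      rw [map_sum]
      refine Finset.sum_congr rfl fun σ _ => ?_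
      rw [map_smul]
      by_cases h0 : z σ = 0
      · rw [h0, zero_smul, zero_smul]
      · rw [PiL_pm q b (hz σ h0)]
    rw [h3]
    have h4 : ∑ σ : Perm κ, z σ • pm σ a = ∑ x ∈ a.support, a x •
        ∑ σ : Perm κ, z σ • Finsupp.single (fun c => x (σ c)) (1 : ℚ) := by
      have h5 : a = ∑ x ∈ a.support, a x • Finsupp.single x (1 : ℚ) := by
        conv_lhs => rw [← Finsupp.sum_single a]
        unfold Finsupp.sum
        exact Finset.sum_congr rfl fun x _ => by rw [Finsupp.smul_single, smul_eq_mul, mul_one]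
      simp only [Finset.smul_sum]
      rw [Finset.sum_comm]
      refine Finset.sum_congr rfl fun σ _ => ?_
      conv_lhs => rw [h5]
      rw [map_sum, Finset.smul_sum]
      refine Finset.sum_congr rfl fun x _ => ?_
      rw [map_smul, pm_single, smul_comm]
    rw [h4, map_sum]
    refine Submodule.sum_mem _ fun x hx => ?_
    rw [map_smul]
    exact Submodule.smul_mem _ _ (word_mem q b z hz hvan x (ha x hx))
  have h3 := Submodule.add_mem _ h1 h2
  rw [← Finset.sum_add_distrib] at h3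
  have h4 : ∑ σ : Perm κ, z σ • pm σ a =
      ∑ σ : Perm κ, (z σ • pm σ (a - PiL q b a) + z σ • pm σ (PiL q b a)) := by
    refine Finset.sum_congr rfl fun σ _ => ?_
    rw [← smul_add, ← map_add, sub_add_cancel]
  rw [h4]
  exact h3

end

end Pool.Agent.Y107.VC
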