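import Pool.Agent.Y107.VC.Defs
import Pool.Agent.Helper386.D5V.Helper399_FF4
import Pool.Agent.W619.PQ.Fix

/-!
# Morphisms and push forwards
-/

set_option autoImplicit false

namespace Pool.Agent.Y107.VC

open FF

section

variable {k : Type} [Field k] {K F L M : Type} [Field K] [Field F] [Field L] [Field M]
  [Algebra k K] [Algebra k F] [Algebra k L] [Algebra k M]

theorem Lies.unique {e : K →ₐ[k] F} {w : Place k F} {v v' : Place k K} (h : Lies e w v)
    (h' : Lies e w v') : v = v' := by
  obtain ⟨m, hm, h⟩ := h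
  obtain ⟨m', hm', h'⟩ := h'
  refine Place.eq_of_le _ _ fun f _ h0 => ?_
  have h1 := h f
  have h2 := h' f
  rw [h1] at h2
  have h3 : (0 : ℤ) ≤ m * v.ord f := mul_nonneg (by positivity) h0
  rw [h2] at h3
  have h4 : (0 : ℤ) < m' := by exact_mod_cast hm'
  exact nonneg_of_mul_nonneg_right h3 h4

theorem Lies.trans {e : K →ₐ[k] F} {e' : F →ₐ[k] L} {u : Place k L} {w : Place k F}
    {v : Place k K} (h' : Lies e' u w) (h : Lies e w v) : Lies (e'.comp e) u v := by
  obtain ⟨m, hm, h⟩ := h
  obtain ⟨m', hm', h'⟩ := h'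
  refine ⟨m' * m, Nat.mul_pos hm' hm, fun f => ?_⟩
  rw [AlgHom.comp_apply, h', h]
  push_cast
  ring

theorem Lies.refl (v : Place k K) : Lies (AlgHom.id k K) v v :=
  ⟨1, Nat.one_pos, fun f => by simp⟩

theorem isMor_id : IsMor (k := k) (fun v : Place k K => v) :=
  Or.inr ⟨AlgHom.id k K, fun w => Lies.refl w⟩

theorem isMor_const (v : Place k K) : IsMor (k := k) (fun _ : Place k F => v) :=
  Or.inl ⟨v, fun _ => rfl⟩

theorem IsMor.comp {ψ : Place k F → Place k K} {φ : Place k L → Place k F} (hψ : IsMor ψ)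
    (hφ : IsMor φ) : IsMor fun w => ψ (φ w) := by
  rcases hψ with ⟨v, hv⟩ | ⟨e, he⟩
  · exact Or.inl ⟨v, fun w => hv _⟩
  · rcases hφ with ⟨v, hv⟩ | ⟨e', he'⟩
    · exact Or.inl ⟨ψ v, fun w => congrArg ψ (hv w)⟩
    · exact Or.inr ⟨e'.comp e, fun w => (he' w).trans (he _)⟩

/-- Function fields of curves are algebraic over each other. -/
theorem finite_of_hom [IsFF k K] [IsFF k F] (e : K →ₐ[k] F) :
    @FiniteDimensional K F _ _ e.toRingHom.toAlgebra.toModule := by
  let _ : Algebra K F := e.toRingHom.toAlgebra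
  have : IsScalarTower k K F := IsScalarTower.of_algebraMap_eq fun c => (e.commutes c).symm
  obtain ⟨t, ht⟩ := IsFF.exists_transcendental (k := k) (K := K)
  have ht' : Transcendental k (algebraMap K F t) := fun h =>
    ht ((isAlgebraic_algebraMap_iff (algebraMap K F).injective).1 h)
  have h1 := IsFF.isAlgebraic ht'
  have h2 : Algebra.EssFiniteType K F := by
    have := (inferInstance : IsFF k F).ess
    exact Algebra.EssFiniteType.of_comp k K F
  have h3 : Algebra.IsAlgebraic K F := by
    constructor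
    intro x
    have h4 : IsAlgebraic (IntermediateField.adjoin k {algebraMap K F t}) x := h1.isAlgebraic x
    let E := IntermediateField.adjoin k {algebraMap K F t}
    have h5 : E ≤ (IsScalarTower.toAlgHom k K F).fieldRange := by
      rw [IntermediateField.adjoin_le_iff, Set.singleton_subset_iff]
      exact ⟨t, rfl⟩
    have h6 : ∀ y : E, ∃ z : K, algebraMap K F z = algebraMap E F y := fun y => by
      obtain ⟨z, hz⟩ := h5 y.2
      exact ⟨z, hz⟩
    choose g hg using h6
    let gh : E →+* K :=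
      { toFun := g
        map_one' := (algebraMap K F).injective (by rw [hg, map_one, map_one])
        map_zero' := (algebraMap K F).injective (by rw [hg, map_zero, map_zero])
        map_mul' := fun a b => (algebraMap K F).injective (by rw [hg, map_mul, map_mul, hg, hg])
        map_add' := fun a b => (algebraMap K F).injective (by rw [hg, map_add, map_add, hg, hg]) }
    obtain ⟨p, hp, hpx⟩ := h4
    refine ⟨p.map gh, ?_, ?_⟩
    · rwa [Ne, Polynomial.map_eq_zero_iff gh.injective]
    · rw [Polynomial.aeval_def, Polynomial.eval₂_map]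
      have h7 : (algebraMap K F).comp gh = algebraMap E F := RingHom.ext hg
      rw [h7]
      exact hpx
  obtain ⟨s, hs⟩ := IntermediateField.fg_top K F
  have h5 : FiniteDimensional K (IntermediateField.adjoin K (s : Set F)) :=
    IntermediateField.finiteDimensional_adjoin (fun x _ => (h3.isAlgebraic x).isIntegral)
  rw [hs] at h5
  exact IntermediateField.topEquiv.toLinearEquiv.finiteDimensional

theorem exists_lies [IsFF k K] [IsFF k F] (e : K →ₐ[k] F) (w : Place k F) :
    ∃ v, Lies e w v := by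
  let _ : Algebra K F := e.toRingHom.toAlgebra
  have : IsScalarTower k K F := IsScalarTower.of_algebraMap_eq fun c => (e.commutes c).symm
  have hfin : FiniteDimensional K F := finite_of_hom e
  have h1 : ∃ f : K, w.ord (algebraMap K F f) ≠ 0 := by
    by_contra hcon
    push Not at hcon
    let w' : Place K F :=
      { ord := w.ord
        ord_zero := w.ord_zero
        ord_mul := w.ord_mul
        ord_add := w.ord_add
        ord_const := fun {c} _ => hcon c
        surj := w.surj }
    obtain ⟨t, ht0, ht⟩ := w.surj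
    have h2 := w'.ord_eq_zero_of_isAlgebraic ht0 (Algebra.IsAlgebraic.isAlgebraic t)
    have h3 : w'.ord t = w.ord t := rfl
    omega
  obtain ⟨m, v, hm, hv⟩ := exists_over w h1
  exact ⟨v, m, hm, hv⟩

/-- The map on points given by an embedding of function fields. -/
noncomputable def mor [IsFF k K] [IsFF k F] (e : K →ₐ[k] F) (w : Place k F) : Place k K :=
  (exists_lies e w).choose

theorem mor_spec [IsFF k K] [IsFF k F] (e : K →ₐ[k] F) (w : Place k F) : Lies e w (mor e w) :=
  (exists_lies e w).choose_spec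

theorem isMor_mor [IsFF k K] [IsFF k F] (e : K →ₐ[k] F) : IsMor (k := k) (mor e) :=
  Or.inr ⟨e, mor_spec e⟩

end

section

variable {k : Type} [Field k] [CharZero k]

theorem map_pd {F : Type} [Field F] [Algebra k F] [IsFF k F] {X Y : Type} (h : F)
    (φ : Place k F → X) (g : X → Y) :
    Finsupp.mapDomain g (pd (k := k) h φ) = pd (k := k) h fun w => g (φ w) := by
  unfold pd Finsupp.sum
  rw [Finsupp.mapDomain_finsetSum]
  exact Finset.sum_congr rfl fun w _ => Finsupp.mapDomain_single

theorem Rat.push {ι ι' : Type} {K : ι → Type} [∀ i, Field (K i)] [∀ i, Algebra k (K i)]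
    {K' : ι' → Type} [∀ i, Field (K' i)] [∀ i, Algebra k (K' i)]
    (Φ : (∀ i, Place k (K i)) → ∀ j, Place k (K' j))
    (hΦ : ∀ j, (∃ v, ∀ x, Φ x j = v) ∨
      ∃ i, ∃ ψ : Place k (K i) → Place k (K' j), IsMor ψ ∧ ∀ x, Φ x j = ψ (x i))
    {c : (∀ i, Place k (K i)) →₀ ℚ} (hc : c ∈ Rat k K) : Finsupp.mapDomain Φ c ∈ Rat k K' := by
  unfold Rat at hc
  induction hc using Submodule.span_induction with
  | zero => rw [Finsupp.mapDomain_zero]; exact Submodule.zero_mem _
  | add x y _ _ hx hy => rw [Finsupp.mapDomain_add]; exact Submodule.add_mem _ hx hy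
  | smul r x _ hx => rw [Finsupp.mapDomain_smul]; exact Submodule.smul_mem _ _ hx
  | mem x hx =>
    obtain ⟨F, i1, i2, i3, h, φ, hh, hφ, rfl⟩ := hx
    refine Submodule.subset_span ⟨F, i1, i2, i3, h, fun w => Φ (φ w), hh, fun j => ?_,
      map_pd _ _ _⟩
    rcases hΦ j with ⟨v, hv⟩ | ⟨i, ψ, hψ, hψ'⟩
    · exact Or.inl ⟨v, fun w => hv _⟩
    · have h1 : (fun w => Φ (φ w) j) = fun w => ψ (φ w i) := funext fun w => hψ' _
      rw [h1]
      exact hψ.comp (hφ i)

theorem RatU.push {T κ κ' : Type} {K : T → Type} [∀ t, Field (K t)] [∀ t, Algebra k (K t)]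
    (Φ : (κ → Σ t, Place k (K t)) → κ' → Σ t, Place k (K t))
    (hΦ : ∀ j, (∃ v, ∀ x, Φ x j = v) ∨ ∃ i, ∀ x, Φ x j = x i)
    {c : (κ → Σ t, Place k (K t)) →₀ ℚ} (hc : c ∈ RatU k κ K) :
    Finsupp.mapDomain Φ c ∈ RatU k κ' K := by
  unfold RatU at hc
  induction hc using Submodule.span_induction with
  | zero => rw [Finsupp.mapDomain_zero]; exact Submodule.zero_mem _
  | add x y _ _ hx hy => rw [Finsupp.mapDomain_add]; exact Submodule.add_mem _ hx hy
  | smul r x _ hx => rw [Finsupp.mapDomain_smul]; exact Submodule.smul_mem _ _ hx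
  | mem x hx =>
    obtain ⟨F, i1, i2, i3, h, φ, hh, hφ, rfl⟩ := hx
    refine Submodule.subset_span ⟨F, i1, i2, i3, h, fun w => Φ (φ w), hh, fun j => ?_,
      map_pd _ _ _⟩
    rcases hΦ j with ⟨v, hv⟩ | ⟨i, hi⟩
    · exact ⟨v.1, fun _ => v.2, isMor_const v.2, fun w => hv _⟩
    · obtain ⟨t, ψ, hψ, hψ'⟩ := hφ i
      exact ⟨t, ψ, hψ, fun w => (hi _).trans (hψ' w)⟩

/-- From a product to the words. -/
theorem Rat.toU {T κ ι : Type} {K : T → Type} [∀ t, Field (K t)] [∀ t, Algebra k (K t)]
    {q : ι → T} (Φ : (∀ i, Place k (K (q i))) → κ → Σ t, Place k (K t))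
    (hΦ : ∀ j, (∃ v, ∀ x, Φ x j = v) ∨ ∃ i, ∀ x, Φ x j = ⟨q i, x i⟩)
    {c : (∀ i, Place k (K (q i))) →₀ ℚ} (hc : c ∈ Rat k fun i => K (q i)) :
    Finsupp.mapDomain Φ c ∈ RatU k κ K := by
  unfold Rat at hc
  induction hc using Submodule.span_induction with
  | zero => rw [Finsupp.mapDomain_zero]; exact Submodule.zero_mem _
  | add x y _ _ hx hy => rw [Finsupp.mapDomain_add]; exact Submodule.add_mem _ hx hy
  | smul r x _ hx => rw [Finsupp.mapDomain_smul]; exact Submodule.smul_mem _ _ hx
  | mem x hx =>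
    obtain ⟨F, i1, i2, i3, h, φ, hh, hφ, rfl⟩ := hx
    refine Submodule.subset_span ⟨F, i1, i2, i3, h, fun w => Φ (φ w), hh, fun j => ?_,
      map_pd _ _ _⟩
    rcases hΦ j with ⟨v, hv⟩ | ⟨i, hi⟩
    · exact ⟨v.1, fun _ => v.2, isMor_const v.2, fun w => hv _⟩
    · exact ⟨q i, fun w => φ w i, hφ i, fun w => hi _⟩

open Classical in
/-- The component of a word in the product with types `q`. -/
noncomputable def comp0 {T ι : Type} {K : T → Type} [∀ t, Field (K t)] [∀ t, Algebra k (K t)]
    (q : ι → T) (x : ι → Σ t, Place k (K t)) : (∀ i, Place k (K (q i))) →₀ ℚ :=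
  if h : ∀ i, (x i).1 = q i then Finsupp.single (fun i => h i ▸ (x i).2) 1 else 0

/-- The component of a cycle in the product with types `q`. -/
noncomputable def compq {T ι : Type} {K : T → Type} [∀ t, Field (K t)] [∀ t, Algebra k (K t)]
    (q : ι → T) : ((ι → Σ t, Place k (K t)) →₀ ℚ) →ₗ[ℚ] ((∀ i, Place k (K (q i))) →₀ ℚ) :=
  Finsupp.lsum ℚ fun x => LinearMap.toSpanSingleton ℚ _ (comp0 q x)

theorem compq_single {T ι : Type} {K : T → Type} [∀ t, Field (K t)] [∀ t, Algebra k (K t)]
    (q : ι → T) (x : ι → Σ t, Place k (K t)) (r : ℚ) :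
    compq q (Finsupp.single x r) = r • comp0 q x := by
  unfold compq
  rw [Finsupp.lsum_single, LinearMap.toSpanSingleton_apply]

theorem RatU.comp {T ι : Type} {K : T → Type} [∀ t, Field (K t)]
    [∀ t, Algebra k (K t)]
    (q : ι → T) {c : (ι → Σ t, Place k (K t)) →₀ ℚ} (hc : c ∈ RatU k ι K) :
    compq q c ∈ Rat k fun i => K (q i) := by
  unfold RatU at hc
  induction hc using Submodule.span_induction with
  | zero => rw [map_zero]; exact Submodule.zero_mem _
  | add x y _ _ hx hy => rw [map_add]; exact Submodule.add_mem _ hx hy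
  | smul r x _ hx => rw [map_smul]; exact Submodule.smul_mem _ _ hx
  | mem x hx =>
    obtain ⟨F, i1, i2, i3, h, φ, hh, hφ, rfl⟩ := hx
    choose t ψ hψ hφψ using hφ
    by_cases htq : t = q
    · subst htq
      have h1 : compq t (pd (k := k) h φ) = pd (k := k) h fun w i => ψ i w := by
        unfold pd Finsupp.sum
        rw [map_sum]
        refine Finset.sum_congr rfl fun w _ => ?_
        rw [compq_single]
        have h2 : φ w = fun i => (⟨t i, ψ i w⟩ : Σ t, Place k (K t)) := funext fun i => hφψ i w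
        rw [h2]
        unfold comp0
        rw [dif_pos fun _ => rfl, Finsupp.smul_single, smul_eq_mul, mul_one]
      rw [h1]
      exact Submodule.subset_span ⟨F, i1, i2, i3, h, fun w i => ψ i w, hh, hψ, rfl⟩
    · obtain ⟨i, hi⟩ : ∃ i, t i ≠ q i := by
        by_contra hcon
        push Not at hcon
        exact htq (funext hcon)
      have h1 : compq q (pd (k := k) h φ) = 0 := by
        unfold pd Finsupp.sum
        rw [map_sum]
        refine Finset.sum_eq_zero fun w _ => ?_
        rw [compq_single]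
        unfold comp0
        rw [dif_neg, smul_zero]
        intro h2
        have h3 := h2 i
        rw [hφψ] at h3
        exact hi h3
      rw [h1]
      exact Submodule.zero_mem _

end

end Pool.Agent.Y107.VC
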