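import Pool.Agent.Y107.VC.Key
import Pool.Agent.TH131.GHC.Words

/-!
# Permutation correspondences on products of curves
-/

set_option autoImplicit false

namespace Pool.Agent.Y107.VC

open FF Equiv
open Pool.Agent.H204R3.SP (permsOf mem_permsOf)
open Pool.Agent.TH131.GHC (AntiSet Van mem_anti_of_van)

section

variable {k : Type} [Field k] [CharZero k] {T κ : Type} [Fintype κ] [DecidableEq κ]
  {K : T → Type} [∀ t, Field (K t)] [∀ t, Algebra k (K t)]

/-- The permuted cycle. -/
noncomputable def pm (σ : Perm κ) :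
    ((κ → Σ t, Place k (K t)) →₀ ℚ) →ₗ[ℚ] ((κ → Σ t, Place k (K t)) →₀ ℚ) :=
  Finsupp.lmapDomain ℚ ℚ fun x c => x (σ c)

theorem pm_single (σ : Perm κ) (x : κ → Σ t, Place k (K t)) (r : ℚ) :
    pm σ (Finsupp.single x r) = Finsupp.single (fun c => x (σ c)) r :=
  Finsupp.mapDomain_single

theorem pm_mem {a : (κ → Σ t, Place k (K t)) →₀ ℚ} (σ : Perm κ) (ha : a ∈ RatU k κ K) :
    pm σ a ∈ RatU k κ K :=
  RatU.push _ (fun j => Or.inr ⟨σ j, fun _ => rfl⟩) ha

section base

variable (q : κ → T) (b : ∀ t, Place k (K t))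

/-- The map replacing the coordinates in `S` by the base points. -/
def rep (S : Finset κ) (x : κ → Σ t, Place k (K t)) : κ → Σ t, Place k (K t) :=
  fun c => if c ∈ S then ⟨q c, b (q c)⟩ else x c

/-- The projection to the primitive part. -/
noncomputable def PiL :
    ((κ → Σ t, Place k (K t)) →₀ ℚ) →ₗ[ℚ] ((κ → Σ t, Place k (K t)) →₀ ℚ) :=
  ∑ S : Finset κ, ((-1 : ℚ) ^ S.card) • Finsupp.lmapDomain ℚ ℚ (rep q b S)

theorem PiL_apply (a : (κ → Σ t, Place k (K t)) →₀ ℚ) :
    PiL q b a = ∑ S : Finset κ, ((-1 : ℚ) ^ S.card) • Finsupp.mapDomain (rep q b S) a := by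
  unfold PiL
  rw [LinearMap.sum_apply]
  rfl

theorem rep_mem {a : (κ → Σ t, Place k (K t)) →₀ ℚ} (S : Finset κ) (ha : a ∈ RatU k κ K) :
    Finsupp.mapDomain (rep q b S) a ∈ RatU k κ K := by
  refine RatU.push _ (fun j => ?_) ha
  by_cases hj : j ∈ S
  · exact Or.inl ⟨⟨q j, b (q j)⟩, fun x => if_pos hj⟩
  · exact Or.inr ⟨j, fun x => if_neg hj⟩

theorem PiL_mem {a : (κ → Σ t, Place k (K t)) →₀ ℚ} (ha : a ∈ RatU k κ K) :
    PiL q b a ∈ RatU k κ K := by
  rw [PiL_apply]
  exact Submodule.sum_mem _ fun S _ => Submodule.smul_mem _ _ (rep_mem q b S ha)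

theorem PiL_single_eq_zero {x : κ → Σ t, Place k (K t)} {c : κ} (hx : x c = ⟨q c, b (q c)⟩) :
    PiL q b (Finsupp.single x 1) = 0 := by
  rw [PiL_apply]
  refine Finset.sum_involution (fun S _ => if c ∈ S then S.erase c else insert c S) ?_ ?_ ?_ ?_
  · intro S _
    have hrep : rep q b (if c ∈ S then S.erase c else insert c S) x = rep q b S x := by
      funext d
      unfold rep
      by_cases hd : d = c
      · subst hd
        rw [hx]
        split_ifs <;> rfl
      · by_cases hS : c ∈ S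
        · rw [if_pos hS]
          simp only [Finset.mem_erase, hd, ne_eq, not_false_eq_true, true_and]
        · rw [if_neg hS]
          simp only [Finset.mem_insert, hd, false_or]
    rw [Finsupp.mapDomain_single, Finsupp.mapDomain_single, hrep, ← add_smul]
    have hcard : ((-1 : ℚ) ^ S.card + (-1) ^ (if c ∈ S then S.erase c else insert c S).card) = 0 := by
      by_cases hS : c ∈ S
      · rw [if_pos hS]
        have h1 : S.card = (S.erase c).card + 1 := (Finset.card_erase_add_one hS).symm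
        rw [h1, pow_succ]
        ring
      · rw [if_neg hS, Finset.card_insert_of_notMem hS, pow_succ]
        ring
    rw [hcard, zero_smul]
  · intro S _ _ h
    by_cases hS : c ∈ S
    · rw [if_pos hS] at h
      rw [← h] at hS
      exact Finset.notMem_erase c _ hS
    · rw [if_neg hS] at h
      apply hS
      rw [← h]
      exact Finset.mem_insert_self c S
  · intro S _
    exact Finset.mem_univ _
  · intro S _
    by_cases hS : c ∈ S
    · rw [if_pos hS, if_neg (Finset.notMem_erase c S), Finset.insert_erase hS]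
    · rw [if_neg hS, if_pos (Finset.mem_insert_self c S), Finset.erase_insert hS]

theorem sub_PiL_mem {a : (κ → Σ t, Place k (K t)) →₀ ℚ}
    (ha : ∀ c, Finsupp.mapDomain (rep q b {c}) a ∈ RatU k κ K) :
    a - PiL q b a ∈ RatU k κ K := by
  rw [PiL_apply, ← Finset.add_sum_erase _ _ (Finset.mem_univ (∅ : Finset κ))]
  have h1 : rep q b (∅ : Finset κ) = (id : (κ → Σ t, Place k (K t)) → _) := by
    funext x c
    unfold rep
    rw [if_neg (Finset.notMem_empty c)]
    rfl
  rw [h1, Finsupp.mapDomain_id, Finset.card_empty, pow_zero, one_smul, sub_add_cancel_left]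
  refine Submodule.neg_mem _ (Submodule.sum_mem _ fun S hS => Submodule.smul_mem _ _ ?_)
  obtain ⟨c, hc⟩ := Finset.nonempty_iff_ne_empty.2 (Finset.ne_of_mem_erase hS)
  have h2 : rep q b S = fun x => rep q b S (rep (K := K) q b {c} x) := by
    funext x d
    unfold rep
    by_cases hd : d ∈ S
    · rw [if_pos hd, if_pos hd]
    · rw [if_neg hd, if_neg hd, if_neg]
      rw [Finset.mem_singleton]
      rintro rfl
      exact hd hc
  rw [h2]
  have h3 : Finsupp.mapDomain (fun x => rep q b S (rep (K := K) q b {c} x)) a =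
      Finsupp.mapDomain (rep q b S) (Finsupp.mapDomain (rep q b {c}) a) :=
    Finsupp.mapDomain_comp (f := rep q b {c}) (g := rep q b S)
  rw [h3]
  exact rep_mem q b S (ha c)

theorem PiL_pm {σ : Perm κ} (hσ : ∀ c, q (σ c) = q c) (a : (κ → Σ t, Place k (K t)) →₀ ℚ) :
    PiL q b (pm σ a) = pm σ (PiL q b a) := by
  rw [PiL_apply, PiL_apply, map_sum]
  refine Fintype.sum_equiv (Equiv.finsetCongr σ) _ _ fun S => ?_
  rw [map_smul, Equiv.finsetCongr_apply, Finset.card_map]
  congr 1
  unfold pm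
  rw [Finsupp.lmapDomain_apply, Finsupp.lmapDomain_apply, ← Finsupp.mapDomain_comp,
    ← Finsupp.mapDomain_comp]
  congr 1
  funext x c
  unfold rep
  simp only [Function.comp_apply, Finset.mem_map_equiv, symm_apply_apply]
  rw [hσ c]

end base

variable [IsAlgClosed k] [∀ t, IsFF k (K t)]

/-- Moving a word. -/
theorem sym_move (y : κ → Σ t, Place k (K t)) (A : Finset κ) (t : T) (hA : ∀ a ∈ A, (y a).1 = t)
    (hcard : A.card = genus k (K t) + 1) (x0 : Place k (K t)) :
    ∃ y' : κ → Σ t, Place k (K t), (∃ a ∈ A, y' a = ⟨t, x0⟩) ∧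
      ∑ τ ∈ permsOf A, Finsupp.single (fun c => y (τ c)) (1 : ℚ) -
        ∑ τ ∈ permsOf A, Finsupp.single (fun c => y' (τ c)) 1 ∈ RatU k κ K := by
  have h1 : ∀ a : {a // a ∈ A}, ∃ v : Place k (K t), y a = ⟨t, v⟩ := by
    intro a
    have h2 := hA a a.2
    rcases h3 : y a with ⟨s, v⟩
    rw [h3] at h2
    subst h2
    exact ⟨v, rfl⟩
  choose x hx using h1
  obtain ⟨z, ⟨a0, ha0⟩, hz⟩ := exists_move (k := k) (K := K t) (A := {a // a ∈ A})
    (by rw [Fintype.card_coe]; exact hcard) x x0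
  let Φ : ({a // a ∈ A} → Place k (K t)) → κ → Σ t, Place k (K t) := fun u c =>
    if h : c ∈ A then ⟨t, u ⟨c, h⟩⟩ else y c
  have hΦ : ∀ u : {a // a ∈ A} → Place k (K t), Finsupp.mapDomain Φ (symc u) =
      ∑ τ ∈ permsOf A, Finsupp.single (fun c => Φ u (τ c)) (1 : ℚ) := by
    intro u
    unfold symc
    rw [Finsupp.mapDomain_finsetSum]
    simp only [Finsupp.mapDomain_single]
    have h2 : permsOf A = Finset.univ.filter fun σ : Perm κ => ∀ c, ¬c ∈ A → σ c = c := rfl
    rw [h2, Finset.sum_filter, ← Finset.sum_filter, ← Finset.sum_subtype_eq_sum_filter]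
    have h3 : (Finset.univ : Finset (Perm κ)).subtype (fun σ => ∀ c, ¬c ∈ A → σ c = c) =
      Finset.univ := by
      ext σ
      simp
    rw [h3]
    refine Fintype.sum_equiv (Perm.subtypeEquivSubtypePerm fun c => c ∈ A) _ _ fun τ => ?_
    congr 1
    funext c
    have h4 : ((Perm.subtypeEquivSubtypePerm (fun c => c ∈ A) τ : Perm κ)) = Perm.ofSubtype τ := rfl
    rw [h4]
    by_cases hc : c ∈ A
    · have h5 : Perm.ofSubtype τ c = τ ⟨c, hc⟩ := Perm.ofSubtype_apply_of_mem τ hc
      simp only [Φ]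
      rw [dif_pos hc, dif_pos (by rw [h5]; exact (τ ⟨c, hc⟩).2)]
      congr 2
      exact Subtype.ext h5.symm
    · have h5 : Perm.ofSubtype τ c = c := Perm.ofSubtype_apply_of_not_mem τ hc
      rw [h5]
      simp only [Φ]
      rw [dif_neg hc, dif_neg hc]
  have hy : Φ x = y := by
    funext c
    simp only [Φ]
    by_cases hc : c ∈ A
    · rw [dif_pos hc]
      exact (hx ⟨c, hc⟩).symm
    · rw [dif_neg hc]
  refine ⟨Φ z, ⟨a0, a0.2, ?_⟩, ?_⟩
  · simp only [Φ]
    rw [dif_pos a0.2]
    congr 1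
  · have h2 := Rat.toU (k := k) (K := K) (q := fun _ : {a // a ∈ A} => t) (κ := κ) Φ (by
      intro c
      by_cases hc : c ∈ A
      · exact Or.inr ⟨⟨c, hc⟩, fun u => dif_pos hc⟩
      · exact Or.inl ⟨y c, fun u => dif_neg hc⟩) hz
    have h3 : Finsupp.mapDomain Φ (symc x - symc z) =
        Finsupp.mapDomain Φ (symc x) - Finsupp.mapDomain Φ (symc z) :=
      map_sub (Finsupp.mapDomain.addMonoidHom Φ) _ _
    rw [h3, hΦ, hΦ, hy] at h2
    exact h2

/-- Primitive cycles which are symmetric in more than `g` coordinates on a curve of genus `g` are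
rationally equivalent to zero. -/
theorem PiL_sym_mem (q : κ → T) (b : ∀ t, Place k (K t)) (y : κ → Σ t, Place k (K t))
    (hy : ∀ c, (y c).1 = q c) (A : Finset κ) (t : T) (hA : ∀ a ∈ A, q a = t)
    (hcard : A.card = genus k (K t) + 1) :
    PiL q b (∑ τ ∈ permsOf A, Finsupp.single (fun c => y (τ c)) 1) ∈ RatU k κ K := by
  obtain ⟨y', ⟨a, ha, hya⟩, h⟩ := sym_move y A t (fun a ha => (hy a).trans (hA a ha)) hcard (b t)
  have h1 := PiL_mem q b h
  rw [map_sub] at h1
  have h2 : PiL q b (∑ τ ∈ permsOf A, Finsupp.single (fun c => y' (τ c)) 1) = 0 := by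
    rw [map_sum]
    refine Finset.sum_eq_zero fun τ hτ => ?_
    have hinv : τ (τ.symm a) = a := τ.apply_symm_apply a
    have hmem : τ.symm a ∈ A := by
      rw [mem_permsOf] at hτ
      by_contra hcon
      have h3 := hτ _ hcon
      rw [hinv] at h3
      rw [← h3] at hcon
      exact hcon ha
    refine PiL_single_eq_zero q b (c := τ.symm a) ?_
    rw [hinv, hya, hA _ hmem]
  rwa [h2, sub_zero] at h1

end

end Pool.Agent.Y107.VC
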