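import Pool.Agent.Y107.VC.Sign

/-!
# Quotients of products of curves
-/

set_option autoImplicit false
set_option maxHeartbeats 400000

namespace Pool.Agent.Y107.VC

open FF Equiv

section

variable {k : Type} [Field k] [CharZero k] {T κ : Type} {K : T → Type} [∀ t, Field (K t)]
  [∀ t, Algebra k (K t)]

theorem Fil.smul_mem {i : ℕ} (r : ℚ) {a : (κ → Σ t, Place k (K t)) →₀ ℚ} (ha : a ∈ Fil k K κ i) :
    r • a ∈ Fil k K κ i := fun S hS => by
  rw [Finsupp.mapDomain_smul]
  exact Submodule.smul_mem _ _ (ha S hS)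

/-- The last step of the filtration. -/
theorem mem_of_Fil [Fintype κ] {i : ℕ} (hi : Fintype.card κ < i)
    {a : (κ → Σ t, Place k (K t)) →₀ ℚ} (ha : a ∈ Fil k K κ i) : a ∈ RatU k κ K := by
  classical
  have h1 := ha Finset.univ (by rw [Finset.card_univ]; exact hi)
  have h2 := RatU.push (k := k) (K := K) (fun (x : {c // c ∈ (Finset.univ : Finset κ)} →
    Σ t, Place k (K t)) (c : κ) => x ⟨c, Finset.mem_univ c⟩) (fun c => Or.inr ⟨_, fun _ => rfl⟩) h1
  rw [← Finsupp.mapDomain_comp] at h2
  have h3 : ((fun (x : {c // c ∈ (Finset.univ : Finset κ)} → Σ t, Place k (K t)) (c : κ) =>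
      x ⟨c, Finset.mem_univ c⟩) ∘ fun (x : κ → Σ t, Place k (K t))
        (c : {c // c ∈ (Finset.univ : Finset κ)}) => x c) = id := rfl
  rwa [h3, Finsupp.mapDomain_id] at h2

/-- The zero-cycles of degree zero. -/
theorem mem_Fil_one {a : (κ → Σ t, Place k (K t)) →₀ ℚ}
    (ha : a.sum (fun _ r => r) = 0) : a ∈ Fil k K κ 1 := by
  classical
  intro S hS
  have hS' : S = ∅ := Finset.card_eq_zero.1 (by omega)
  subst hS'
  have h1 : ∀ x : κ → Σ t, Place k (K t), (fun (c : {c // c ∈ (∅ : Finset κ)}) => x c) =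
      fun c => absurd c.2 (Finset.notMem_empty c.1) := by
    intro x
    funext c
    exact absurd c.2 (Finset.notMem_empty c.1)
  have h2 : Finsupp.mapDomain (fun x (c : {c // c ∈ (∅ : Finset κ)}) => x c) a = 0 := by
    have h3 : (fun (x : κ → Σ t, Place k (K t)) (c : {c // c ∈ (∅ : Finset κ)}) => x c) =
        fun _ => fun c => absurd c.2 (Finset.notMem_empty c.1) := funext h1
    rw [h3]
    unfold Finsupp.mapDomain Finsupp.sum
    rw [← Finsupp.single_finsetSum]
    have h4 : ∑ x ∈ a.support, a x = 0 := ha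
    rw [h4, Finsupp.single_zero]
  rw [h2]
  exact Submodule.zero_mem _

end

section

variable {k : Type} [Field k] [CharZero k] [IsAlgClosed k] {T κ : Type} [Fintype κ]
  [DecidableEq κ] [Fintype T] [DecidableEq T]
  {K : T → Type} [∀ t, Field (K t)] [∀ t, Algebra k (K t)] [∀ t, IsFF k (K t)]

theorem quot (ι : ∀ t, K t ≃ₐ[k] K t) {G : Type} [Group G] [Fintype G] (q : κ → T)
    (σ : G → κ → κ) (hσ : ∀ g c, q (σ g c) = q c)
    (ε : G → κ → Bool) (hε : ∀ g c, ε g c = true → IsHyp (ι (q c)))
    (e : κ → Σ t, Place k (K t))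
    (hact : ∀ g h (x : κ → Σ t, Place k (K t)), (∀ c, (x c).1 = q c) →
      movS ι (fun c => some (σ (h * g) c)) (ε (h * g)) e x =
        movS ι (fun c => some (σ g c)) (ε g) e (movS ι (fun c => some (σ h c)) (ε h) e x))
    (hform : ∀ i, 0 < i → ∀ (α' α : Fin i → κ × Σ t, Fin (genus k (K t))), IsForm q α' →
      IsForm q α → ∑ g, coefS (fun c => some (σ g c)) (ε g) α' α = 0)
    (a : (κ → Σ t, Place k (K t)) →₀ ℚ) (ha : OnComp q a) (hdeg : a.sum (fun _ r => r) = 0) :
    ∑ g, Finsupp.mapDomain (movS ι (fun c => some (σ g c)) (ε g) e) a ∈ RatU k κ K := by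
  classical
  let P : ((κ → Σ t, Place k (K t)) →₀ ℚ) →ₗ[ℚ] ((κ → Σ t, Place k (K t)) →₀ ℚ) :=
    ∑ g, Finsupp.lmapDomain ℚ ℚ (movS ι (fun c => some (σ g c)) (ε g) e)
  have hP : ∀ a, P a = ∑ g, Finsupp.mapDomain (movS ι (fun c => some (σ g c)) (ε g) e) a := by
    intro a
    simp only [P, LinearMap.sum_apply, Finsupp.lmapDomain_apply]
  have hcomp : ∀ (g : G) (a : (κ → Σ t, Place k (K t)) →₀ ℚ), OnComp q a →
      OnComp q (Finsupp.mapDomain (movS ι (fun c => some (σ g c)) (ε g) e) a) := by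
    intro g a ha x hx c
    obtain ⟨y, hy, rfl⟩ := Finset.mem_image.1 (Finsupp.mapDomain_support hx)
    have h1 : (movS ι (fun c => some (σ g c)) (ε g) e y c).1 = (y (σ g c)).1 := by
      unfold movS
      split_ifs <;> rfl
    rw [h1, ha y hy, hσ]
  have hcompP : ∀ a, OnComp q a → OnComp q (P a) := by
    intro a ha x hx c
    rw [hP, Finsupp.mem_support_iff, Finsupp.finsetSum_apply] at hx
    obtain ⟨g, -, hg⟩ := Finset.exists_ne_zero_of_sum_ne_zero hx
    exact hcomp g a ha x (Finsupp.mem_support_iff.2 hg) c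
  have hPP : ∀ a, OnComp q a → P (P a) = (Fintype.card G : ℚ) • P a := by
    intro a ha
    have h1 : ∀ g h, Finsupp.mapDomain (movS ι (fun c => some (σ g c)) (ε g) e)
        (Finsupp.mapDomain (movS ι (fun c => some (σ h c)) (ε h) e) a) =
        Finsupp.mapDomain (movS ι (fun c => some (σ (h * g) c)) (ε (h * g)) e) a := by
      intro g h
      rw [← Finsupp.mapDomain_comp]
      unfold Finsupp.mapDomain Finsupp.sum
      refine Finset.sum_congr rfl fun x hx => ?_
      exact congrArg (fun y => Finsupp.single y (a x)) (hact g h x (ha x hx)).symm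
    have h2 : P (P a) = ∑ g, ∑ h,
        Finsupp.mapDomain (movS ι (fun c => some (σ (h * g) c)) (ε (h * g)) e) a := by
      rw [hP (P a), hP a]
      refine Finset.sum_congr rfl fun g _ => ?_
      rw [Finsupp.mapDomain_finsetSum]
      exact Finset.sum_congr rfl fun h _ => h1 g h
    have h3 : ∀ g ∈ (Finset.univ : Finset G), ∑ h,
        Finsupp.mapDomain (movS ι (fun c => some (σ (h * g) c)) (ε (h * g)) e) a = P a := by
      intro g _
      rw [hP a]
      exact Fintype.sum_equiv (Equiv.mulRight g) _ _ fun h => rfl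
    rw [h2, Finset.sum_congr rfl h3, Finset.sum_const, Finset.card_univ,
      Nat.cast_smul_eq_nsmul]
  have hcard : (Fintype.card G : ℚ) ≠ 0 := by exact_mod_cast Fintype.card_ne_zero
  -- the steps
  have hstep : ∀ i, 0 < i → ∀ a, OnComp q a → a ∈ Fil k K κ i → P a ∈ Fil k K κ (i + 1) := by
    intro i hi a ha hF
    have h1 := gradedS ι q q (fun _ : G => (1 : ℚ)) (fun g c => some (σ g c))
      (fun g c d h => by
        rw [← Option.some_injective _ h]
        exact hσ g c) ε hε (fun _ => e) i (by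
        intro α' α hα' hα
        simp only [one_mul]
        exact hform i hi α' α hα' hα) a ha hF
    rw [hP]
    simpa only [one_smul] using h1
  have hall : ∀ i, 0 < i → P a ∈ Fil k K κ i := by
    intro i hi
    induction i with
    | zero => exact absurd hi (lt_irrefl _)
    | succ i ih =>
      rcases Nat.eq_zero_or_pos i with h0 | h0
      · subst h0
        have h1 := hstep 1 Nat.one_pos a ha (mem_Fil_one hdeg)
        intro S hS
        exact h1 S (by omega)
      · have h1 := hstep i h0 (P a) (hcompP a ha) (ih h0)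
        rw [hPP a ha] at h1
        have h2 := Fil.smul_mem (Fintype.card G : ℚ)⁻¹ h1
        rwa [smul_smul, inv_mul_cancel₀ hcard, one_smul] at h2
  rw [← hP]
  exact mem_of_Fil (Nat.lt_succ_self _) (hall _ (Nat.succ_pos _))

end

end Pool.Agent.Y107.VC
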