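import Pool.Agent.Y107.VC.Sign
import Pool.Agent.Y107.VC.Defs3

/-!
# Groups of signed permutations
-/

set_option autoImplicit false
set_option maxHeartbeats 400000

namespace Pool.Agent.Y107.VC

open FF Equiv

section

variable {κ : Type}

instance : Mul (SP κ) := ⟨fun g h => ⟨g.σ * h.σ, fun c => xor (h.ε c) (g.ε (h.σ c))⟩⟩
instance : One (SP κ) := ⟨⟨1, fun _ => false⟩⟩
instance : Inv (SP κ) := ⟨fun g => ⟨g.σ⁻¹, fun c => g.ε (g.σ.symm c)⟩⟩

theorem SP.mul_σ (g h : SP κ) : (g * h).σ = g.σ * h.σ := rfl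
theorem SP.mul_ε (g h : SP κ) (c : κ) : (g * h).ε c = xor (h.ε c) (g.ε (h.σ c)) := rfl
theorem SP.one_σ : (1 : SP κ).σ = 1 := rfl
theorem SP.one_ε (c : κ) : (1 : SP κ).ε c = false := rfl
theorem SP.inv_σ (g : SP κ) : g⁻¹.σ = g.σ⁻¹ := rfl
theorem SP.inv_ε (g : SP κ) (c : κ) : g⁻¹.ε c = g.ε (g.σ.symm c) := rfl

instance : Group (SP κ) where
  mul_assoc a b c := by
    ext1
    · simp only [SP.mul_σ, mul_assoc]
    · funext d
      simp only [SP.mul_ε, SP.mul_σ, Perm.mul_apply]
      cases c.ε d <;> cases b.ε (c.σ d) <;> cases a.ε (b.σ (c.σ d)) <;> rfl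
  one_mul a := by
    ext1
    · simp only [SP.mul_σ, SP.one_σ, one_mul]
    · funext d
      simp only [SP.mul_ε, SP.one_ε]
      cases a.ε d <;> rfl
  mul_one a := by
    ext1
    · simp only [SP.mul_σ, SP.one_σ, mul_one]
    · funext d
      simp only [SP.mul_ε, SP.one_ε, SP.one_σ, Perm.one_apply]
      cases a.ε d <;> rfl
  inv_mul_cancel a := by
    ext1
    · simp only [SP.mul_σ, SP.one_σ, SP.inv_σ, inv_mul_cancel]
    · funext d
      simp only [SP.mul_ε, SP.one_ε, SP.inv_ε, symm_apply_apply]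
      cases a.ε d <;> rfl

noncomputable instance [Fintype κ] : Fintype (SP κ) := by
  classical
  exact Fintype.ofInjective (β := Perm κ × (κ → Bool)) (fun g => (g.σ, g.ε)) (by
    rintro ⟨σ, ε⟩ ⟨σ', ε'⟩ h
    simp only [Prod.mk.injEq] at h
    rw [h.1, h.2])

end

section

variable {k : Type} [Field k] {T κ : Type} {K : T → Type} [∀ t, Field (K t)]
  [∀ t, Algebra k (K t)] {ι : ∀ t, K t ≃ₐ[k] K t} {q : κ → T}

theorem Good.one : Good ι q (1 : SP κ) := fun c =>
  ⟨rfl, fun h => absurd h (by rw [SP.one_ε]; exact Bool.false_ne_true)⟩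

theorem Good.mul {g h : SP κ} (hg : Good ι q g) (hh : Good ι q h) : Good ι q (g * h) := by
  intro c
  refine ⟨?_, fun h1 => ?_⟩
  · rw [SP.mul_σ, Perm.mul_apply, (hg _).1, (hh _).1]
  · rw [SP.mul_ε] at h1
    by_cases h2 : h.ε c = true
    · exact (hh c).2 h2
    · have h3 : g.ε (h.σ c) = true := by
        rw [Bool.not_eq_true] at h2
        rwa [h2, Bool.false_xor] at h1
      have h4 := (hg (h.σ c)).2 h3
      rwa [(hh c).1] at h4

theorem Good.inv {g : SP κ} (hg : Good ι q g) : Good ι q g⁻¹ := by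
  intro c
  have h1 := (hg (g.σ.symm c)).1
  rw [apply_symm_apply] at h1
  refine ⟨h1.symm, fun h2 => ?_⟩
  have h3 := (hg (g.σ.symm c)).2 h2
  rwa [← h1] at h3

theorem flipv_flipv {x : Σ t, Place k (K t)} (h : IsHyp (ι x.1)) : flipv ι (flipv ι x) = x := by
  rcases x with ⟨t, v⟩
  have h1 : (v.comp (ι t)).comp (ι t) = v := by
    ext f
    rw [Place.comp_ord, Place.comp_ord, h.2.1]
  unfold flipv
  simp only
  rw [h1]

theorem sact_fst {g : SP κ} (hg : Good ι q g) {x : κ → Σ t, Place k (K t)}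
    (hx : ∀ c, (x c).1 = q c) (c : κ) : (sact ι g x c).1 = q c := by
  unfold sact
  split_ifs
  · rw [flipv_fst, hx, (hg c).1]
  · rw [hx, (hg c).1]

theorem sact_mul {g h : SP κ} (hg : Good ι q g) (hh : Good ι q h) {x : κ → Σ t, Place k (K t)}
    (hx : ∀ c, (x c).1 = q c) : sact ι (h * g) x = sact ι g (sact ι h x) := by
  funext c
  unfold sact
  rw [SP.mul_ε, SP.mul_σ, Perm.mul_apply]
  by_cases h1 : g.ε c = true
  · by_cases h2 : h.ε (g.σ c) = true
    · have h3 : IsHyp (ι (x (h.σ (g.σ c))).1) := by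
        rw [hx, (hh _).1, (hg c).1]
        exact (hg c).2 h1
      simp only [h1, h2, Bool.xor_self, if_true]
      rw [flipv_flipv h3]
      rfl
    · simp only [h1, h2, Bool.true_xor, Bool.not_false, if_true]
      simp
  · by_cases h2 : h.ε (g.σ c) = true
    · simp [h1, h2]
    · simp [h1, h2]

theorem sact_one (x : κ → Σ t, Place k (K t)) : sact ι (1 : SP κ) x = x := by
  funext c
  unfold sact
  rw [SP.one_ε]
  rfl

theorem sact_eq_movS (g : SP κ) (e x : κ → Σ t, Place k (K t)) :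
    sact ι g x = movS ι (fun c => some (g.σ c)) g.ε e x := rfl

end

section

variable {κ : Type} {T : Type} {g : T → ℕ} {i : ℕ}

/-- The determinant of the reorderings. -/
noncomputable def DD {X : Type} (β α : Fin i → X) : ℚ :=
  open Classical in ∑ π : Perm (Fin i), if (fun l => β (π l)) = α then ((Perm.sign π : ℤ) : ℚ) else 0

theorem coefS_eq (h : SP κ) (α' α : Fin i → κ × Σ t, Fin (g t)) :
    coefS (fun c => some (h.σ c)) h.ε α' α =
      (∏ l, if h.ε (α' l).1 then (-1 : ℚ) else 1) *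
        DD (fun l => (h.σ (α' l).1, (α' l).2)) α := by
  classical
  unfold coefS coef DD
  congr 1
  refine Finset.sum_congr rfl fun π _ => ?_
  have h1 : (∀ l, some (h.σ (α' (π l)).1) = some (α l).1 ∧ (α' (π l)).2 = (α l).2) ↔
      (fun l => (h.σ (α' (π l)).1, (α' (π l)).2)) = α := by
    constructor
    · intro h2
      funext l
      exact Prod.ext (Option.some_injective _ (h2 l).1) (h2 l).2
    · rintro rfl l
      exact ⟨rfl, rfl⟩
  by_cases h2 : ∀ l, some (h.σ (α' (π l)).1) = some (α l).1 ∧ (α' (π l)).2 = (α l).2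
  · rw [if_pos h2, if_pos (h1.1 h2)]
  · rw [if_neg h2, if_neg (fun h3 => h2 (h1.2 h3))]

theorem DD_perm {X : Type} (β α : Fin i → X) (ρ : Perm (Fin i)) :
    DD β (fun l => α (ρ l)) = ((Perm.sign ρ : ℤ) : ℚ) * DD β α := by
  classical
  unfold DD
  rw [Finset.mul_sum]
  refine Fintype.sum_equiv (Equiv.mulRight ρ⁻¹) _ _ fun π => ?_
  have h1 : ((fun l => β (π l)) = fun l => α (ρ l)) ↔
      (fun l => β ((Equiv.mulRight ρ⁻¹) π l)) = α := by
    constructor
    · intro h
      funext l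
      have h2 := congrFun h (ρ.symm l)
      simp only [apply_symm_apply] at h2
      exact h2
    · intro h
      funext l
      have h2 := congrFun h (ρ l)
      rw [← h2]
      change β (π l) = β (π (ρ.symm (ρ l)))
      rw [symm_apply_apply]
  by_cases h2 : (fun l => β (π l)) = fun l => α (ρ l)
  · rw [if_pos h2, if_pos (h1.1 h2)]
    have h3 : ((Perm.sign ((Equiv.mulRight ρ⁻¹) π) : ℤ) : ℚ) =
        ((Perm.sign π : ℤ) : ℚ) * ((Perm.sign ρ : ℤ) : ℚ) := by
      rw [Equiv.coe_mulRight, Perm.sign_mul, Perm.sign_inv]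
      push_cast
      rfl
    rw [h3]
    linear_combination (-((Perm.sign π : ℤ) : ℚ)) * sgn_sq ρ
  · rw [if_neg h2, if_neg (fun h3 => h2 (h1.2 h3)), mul_zero]

theorem DD_map {X Y : Type} (β : Fin i → X) (α : Fin i → Y) (f : X ≃ Y) :
    DD (fun l => f (β l)) α = DD β (fun l => f.symm (α l)) := by
  classical
  unfold DD
  refine Finset.sum_congr rfl fun π _ => ?_
  have h1 : ((fun l => f (β (π l))) = α) ↔ (fun l => β (π l)) = fun l => f.symm (α l) := by
    constructor
    · rintro rfl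
      funext l
      simp
    · intro h
      funext l
      have := congrFun h l
      rw [this]
      simp
  by_cases h2 : (fun l => f (β (π l))) = α
  · rw [if_pos h2, if_pos (h1.1 h2)]
  · rw [if_neg h2, if_neg (fun h3 => h2 (h1.2 h3))]

theorem DD_ne_zero {X : Type} {β α : Fin i → X} (h : DD β α ≠ 0) :
    ∃ π : Perm (Fin i), (fun l => β (π l)) = α := by
  classical
  by_contra hcon
  push Not at hcon
  apply h
  unfold DD
  exact Finset.sum_eq_zero fun π _ => if_neg (hcon π)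

/-- The forms obtained by averaging are invariant. -/
theorem avg_inv [Fintype κ] (q : κ → T) (G : Subgroup (SP κ)) [Fintype G]
    (hG : ∀ h ∈ G, ∀ c, q (h.σ c) = q c) (α' : Fin i → κ × Σ t, Fin (g t)) (hα' : IsForm q α') :
    IsHolForm q (fun α => ∑ h : G, coefS (fun c => some (h.1.σ c)) h.1.ε α' α) ∧
      ∀ h ∈ G, InvForm h (fun α => ∑ h : G, coefS (fun c => some (h.1.σ c)) h.1.ε α' α) := by
  classical
  refine ⟨⟨fun β hβ => ?_, fun π β => ?_⟩, fun h hh β => ?_⟩
  · obtain ⟨h, -, hh⟩ := Finset.exists_ne_zero_of_sum_ne_zero hβ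
    rw [coefS_eq] at hh
    obtain ⟨π, hπ⟩ := DD_ne_zero (right_ne_zero_of_mul hh)
    rw [← hπ]
    refine ⟨fun l l' hll => ?_, fun l => ?_⟩
    · exact π.injective (hα'.1 (h.1.σ.injective hll))
    · exact (hα'.2 (π l)).trans (hG h.1 h.2 _).symm
  · simp only [coefS_eq, DD_perm]
    rw [Finset.mul_sum]
    exact Finset.sum_congr rfl fun h _ => by ring
  · simp only [coefS_eq]
    rw [Finset.mul_sum]
    refine Fintype.sum_equiv (Equiv.mulLeft (⟨h, hh⟩ : G)⁻¹) _ _ fun h' => ?_
    let f : (κ × Σ t, Fin (g t)) ≃ (κ × Σ t, Fin (g t)) := Equiv.prodCongr h.σ (Equiv.refl _)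
    let h'' : SP κ := h⁻¹ * h'.1
    have e0 : ((Equiv.mulLeft (⟨h, hh⟩ : G)⁻¹) h').1 = h'' := rfl
    rw [e0]
    have e1 : DD (fun l => (h'.1.σ (α' l).1, (α' l).2)) (fun l => (h.σ (β l).1, (β l).2)) =
        DD (fun l => (h''.σ (α' l).1, (α' l).2)) β := by
      have e2 : (fun l => (h'.1.σ (α' l).1, (α' l).2)) =
          fun l => f (h''.σ (α' l).1, (α' l).2) := by
        funext l
        simp only [f, h'', SP.mul_σ, SP.inv_σ, Equiv.prodCongr_apply, Prod.map, Perm.mul_apply,
          Equiv.refl_apply]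
        congr 1
        exact (h.σ.apply_symm_apply _).symm
      rw [e2, DD_map]
      congr 1
      funext l
      simp [f]
    rw [e1]
    by_cases e3 : DD (fun l => (h''.σ (α' l).1, (α' l).2)) β = 0
    · rw [e3]
      ring
    · obtain ⟨π, hπ⟩ := DD_ne_zero e3
      have e4 : ∏ l, (if h.ε (β l).1 then (-1 : ℚ) else 1) =
          ∏ l, (if h.ε (h''.σ (α' l).1) then (-1 : ℚ) else 1) := by
        rw [← hπ]
        exact Equiv.prod_comp π (fun l => if h.ε (h''.σ (α' l).1) then (-1 : ℚ) else 1)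
      have e5 : ∀ l, h'.1.ε (α' l).1 = xor (h''.ε (α' l).1) (h.ε (h''.σ (α' l).1)) := by
        intro l
        have e6 : h'.1 = h * h'' := by
          simp only [h'']
          rw [mul_inv_cancel_left]
        rw [e6, SP.mul_ε]
      have e6 : ∏ l, (if h'.1.ε (α' l).1 then (-1 : ℚ) else 1) =
          (∏ l, (if h''.ε (α' l).1 then (-1 : ℚ) else 1)) *
          ∏ l, (if h.ε (h''.σ (α' l).1) then (-1 : ℚ) else 1) := by
        rw [← Finset.prod_mul_distrib]
        refine Finset.prod_congr rfl fun l _ => ?_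
        rw [e5]
        cases h''.ε (α' l).1 <;> cases h.ε (h''.σ (α' l).1) <;> simp
      have e7 : (∏ l, (if h.ε (h''.σ (α' l).1) then (-1 : ℚ) else 1)) *
          (∏ l, (if h.ε (h''.σ (α' l).1) then (-1 : ℚ) else 1)) = 1 := by
        rw [← Finset.prod_mul_distrib]
        refine Finset.prod_eq_one fun l _ => ?_
        split_ifs <;> norm_num
      rw [e4, e6]
      linear_combination ((∏ l, (if h''.ε (α' l).1 then (-1 : ℚ) else 1)) *
        DD (fun l => (h''.σ (α' l).1, (α' l).2)) β) * e7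

end

end Pool.Agent.Y107.VC
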