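import Pool.Agent.Y107.VC.Quot
import Pool.Agent.Y107.VC.SPG

/-!
# Quotients of products of curves by groups of signed permutations
-/

set_option autoImplicit false
set_option maxHeartbeats 400000

namespace Pool.Agent.Y107.VC

open FF Equiv

section

variable {k : Type} [Field k] [CharZero k] {T κ : Type} {K : T → Type} [∀ t, Field (K t)]
  [∀ t, Algebra k (K t)]

theorem sact_push (ι : ∀ t, K t ≃ₐ[k] K t) (g : SP κ) {c : (κ → Σ t, Place k (K t)) →₀ ℚ}
    (hc : c ∈ RatU k κ K) : Finsupp.mapDomain (sact ι g) c ∈ RatU k κ K := by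
  refine RatU.pushM _ (fun j => Or.inr ?_) hc
  by_cases h : g.ε j = true
  · refine ⟨g.σ j, flipv ι, isMorP_flipv ι, fun x => ?_⟩
    unfold sact
    rw [if_pos h]
  · refine ⟨g.σ j, id, isMorP_id, fun x => ?_⟩
    unfold sact
    rw [if_neg h]
    rfl

theorem onComp_sact {ι : ∀ t, K t ≃ₐ[k] K t} {q : κ → T} {g : SP κ} (hg : Good ι q g)
    {a : (κ → Σ t, Place k (K t)) →₀ ℚ} (ha : OnComp q a) :
    OnComp q (Finsupp.mapDomain (sact ι g) a) := by
  classical
  intro x hx c
  obtain ⟨y, hy, rfl⟩ := Finset.mem_image.1 (Finsupp.mapDomain_support hx)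
  exact sact_fst hg (ha y hy) c

theorem map_sact_mul {ι : ∀ t, K t ≃ₐ[k] K t} {q : κ → T} {g h : SP κ} (hg : Good ι q g)
    (hh : Good ι q h) {a : (κ → Σ t, Place k (K t)) →₀ ℚ} (ha : OnComp q a) :
    Finsupp.mapDomain (sact ι (h * g)) a =
      Finsupp.mapDomain (sact ι g) (Finsupp.mapDomain (sact ι h) a) := by
  rw [← Finsupp.mapDomain_comp]
  unfold Finsupp.mapDomain Finsupp.sum
  refine Finset.sum_congr rfl fun x hx => ?_
  exact congrArg (fun y => Finsupp.single y (a x)) (sact_mul hg hh (ha x hx))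

theorem closure_inv {ι : ∀ t, K t ≃ₐ[k] K t} {q : κ → T} {Γ : Set (SP κ)}
    (hΓ : ∀ h ∈ Γ, Good ι q h) {a : (κ → Σ t, Place k (K t)) →₀ ℚ} (ha : OnComp q a)
    (hinv : ∀ h ∈ Γ, Finsupp.mapDomain (sact ι h) a - a ∈ RatU k κ K)
    {g : SP κ} (hg : g ∈ Subgroup.closure Γ) :
    Good ι q g ∧ Finsupp.mapDomain (sact ι g) a - a ∈ RatU k κ K := by
  induction hg using Subgroup.closure_induction with
  | mem x hx => exact ⟨hΓ x hx, hinv x hx⟩
  | one =>
    refine ⟨Good.one, ?_⟩
    have h1 : sact ι (1 : SP κ) = id := funext fun x => sact_one x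
    rw [h1, Finsupp.mapDomain_id, sub_self]
    exact Submodule.zero_mem _
  | mul x y _ _ hx hy =>
    refine ⟨hx.1.mul hy.1, ?_⟩
    rw [map_sact_mul hy.1 hx.1 ha]
    have h1 := sact_push ι y hx.2
    rw [Finsupp.mapDomain_sub] at h1
    have h2 := Submodule.add_mem _ h1 hy.2
    rwa [sub_add_sub_cancel] at h2
  | inv x _ hx =>
    refine ⟨hx.1.inv, ?_⟩
    have h1 := sact_push ι x⁻¹ hx.2
    rw [Finsupp.mapDomain_sub, ← map_sact_mul hx.1.inv hx.1 ha, mul_inv_cancel] at h1
    have h2 : sact ι (1 : SP κ) = id := funext fun x => sact_one x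
    rw [h2, Finsupp.mapDomain_id] at h1
    have h3 := Submodule.neg_mem _ h1
    rwa [neg_sub] at h3

end

section

variable {k : Type} [Field k] [CharZero k] [IsAlgClosed k] {T κ : Type} [Fintype κ]
  [DecidableEq κ] [Fintype T] [DecidableEq T]
  {K : T → Type} [∀ t, Field (K t)] [∀ t, Algebra k (K t)] [∀ t, IsFF k (K t)]

/-- The Chow group of zero-cycles of the quotient of a product of curves by a group of signed
permutations without invariant holomorphic forms. -/
theorem quotSP (ι : ∀ t, K t ≃ₐ[k] K t) (q : κ → T) (Γ : Set (SP κ))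
    (hΓ : ∀ h ∈ Γ, Good ι q h) (hno : NoForms (fun t => genus k (K t)) q Γ)
    (a : (κ → Σ t, Place k (K t)) →₀ ℚ) (ha : OnComp q a) (hdeg : a.sum (fun _ r => r) = 0)
    (hinv : ∀ h ∈ Γ, Finsupp.mapDomain (sact ι h) a - a ∈ RatU k κ K) : a ∈ RatU k κ K := by
  classical
  by_cases h0 : a = 0
  · rw [h0]
    exact Submodule.zero_mem _
  obtain ⟨e, he⟩ := Finsupp.support_nonempty_iff.2 h0
  let G := Subgroup.closure Γ
  have hG : ∀ g ∈ G, Good ι q g ∧ Finsupp.mapDomain (sact ι g) a - a ∈ RatU k κ K :=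
    fun g hg => closure_inv hΓ ha hinv hg
  haveI : Fintype G := Fintype.ofFinite G
  have h1 := quot ι (G := G) q (fun g => g.1.σ) (fun g c => ((hG g.1 g.2).1 c).1)
    (fun g => g.1.ε) (fun g c => ((hG g.1 g.2).1 c).2) e
    (fun g h x hx => sact_mul (hG g.1 g.2).1 (hG h.1 h.2).1 hx)
    (fun i hi α' α hα' hα => by
      have h2 := avg_inv (g := fun t => genus k (K t)) q G
        (fun h hh c => ((hG h hh).1 c).1) α' hα'
      have h3 := hno i _ hi h2.1 (fun h hh => h2.2 h (Subgroup.subset_closure hh))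
      exact congrFun h3 α) a ha hdeg
  have h2 : ∑ g : G, (Finsupp.mapDomain (sact ι g.1) a - a) ∈ RatU k κ K :=
    Submodule.sum_mem _ fun g _ => (hG g.1 g.2).2
  rw [Finset.sum_sub_distrib, Finset.sum_const, Finset.card_univ] at h2
  have h3 := Submodule.sub_mem _ h1 h2
  have h4 : ∑ g : G, Finsupp.mapDomain (movS ι (fun c => some (g.1.σ c)) g.1.ε e) a -
      (∑ g : G, Finsupp.mapDomain (sact ι g.1) a - Fintype.card G • a) =
      (Fintype.card G : ℚ) • a := by
    rw [Nat.cast_smul_eq_nsmul]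
    exact sub_sub_cancel _ _
  rw [h4] at h3
  have hcard : (Fintype.card G : ℚ) ≠ 0 := by exact_mod_cast Fintype.card_ne_zero
  have h5 := Submodule.smul_mem _ (Fintype.card G : ℚ)⁻¹ h3
  rwa [smul_smul, inv_mul_cancel₀ hcard, one_smul] at h5

end

end Pool.Agent.Y107.VC
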