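import Pool.Agent.Y107.VC.Grade
import Pool.Agent.Y107.VC.Hyp

/-!
# Correspondences with hyperelliptic involutions
-/

set_option autoImplicit false
set_option maxHeartbeats 400000

namespace Pool.Agent.Y107.VC

open FF Equiv

section

variable {k : Type} [Field k]

theorem isMor_inv {K : Type} [Field K] [Algebra k K] (ι : K ≃ₐ[k] K) :
    IsMor (k := k) (fun v : Place k K => v.comp ι) :=
  Or.inr ⟨ι.toAlgHom, fun w => ⟨1, Nat.one_pos, fun f => by
    rw [Place.comp_ord]
    simp⟩⟩

variable {T κ κ' : Type} {K : T → Type} [∀ t, Field (K t)] [∀ t, Algebra k (K t)]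

/-- A map of points which is a morphism on each curve. -/
def IsMorP (ψ : (Σ t, Place k (K t)) → Σ t, Place k (K t)) : Prop :=
  ∀ t, ∃ t', ∃ φ : Place k (K t) → Place k (K t'), IsMor φ ∧ ∀ v, ψ ⟨t, v⟩ = ⟨t', φ v⟩

theorem isMorP_id : IsMorP (k := k) (K := K) id := fun t => ⟨t, fun v => v, isMor_id, fun _ => rfl⟩

theorem isMorP_flipv (ι : ∀ t, K t ≃ₐ[k] K t) : IsMorP (flipv ι) := fun t =>
  ⟨t, fun v => v.comp (ι t), isMor_inv (ι t), fun _ => rfl⟩

variable [CharZero k]

theorem RatU.pushM (Φ : (κ → Σ t, Place k (K t)) → κ' → Σ t, Place k (K t))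
    (hΦ : ∀ j, (∃ v, ∀ x, Φ x j = v) ∨ ∃ i ψ, IsMorP ψ ∧ ∀ x, Φ x j = ψ (x i))
    {c : (κ → Σ t, Place k (K t)) →₀ ℚ} (hc : c ∈ RatU k κ K) :
    Finsupp.mapDomain Φ c ∈ RatU k κ' K := by
  unfold RatU at hc
  induction hc using Submodule.span_induction with
  | zero => rw [Finsupp.mapDomain_zero]; exact Submodule.zero_mem _
  | add x y _ _ hx hy => rw [Finsupp.mapDomain_add]; exact Submodule.add_mem _ hx hy
  | smul r x _ hx => rw [Finsupp.mapDomain_smul]; exact Submodule.smul_mem _ _ hx
  | mem x hx =>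
    obtain ⟨F, i1, i2, i3, h, φ, hh, hφ, rfl⟩ := hx
    refine Submodule.subset_span ⟨F, i1, i2, i3, h, fun w => Φ (φ w), hh, fun j => ?_,
      map_pd _ _ _⟩
    rcases hΦ j with ⟨v, hv⟩ | ⟨i, ψ, hψ, hi⟩
    · exact ⟨v.1, fun _ => v.2, isMor_const v.2, fun w => hv _⟩
    · obtain ⟨t, χ, hχ, hχ'⟩ := hφ i
      obtain ⟨t', φ', hφ', hφ''⟩ := hψ t
      exact ⟨t', fun w => φ' (χ w), hφ'.comp hχ, fun w => (hi _).trans (by rw [hχ', hφ''])⟩

/-- Push forward factoring through few coordinates. -/
theorem Fil.push_of_factorM {i : ℕ} {a : (κ → Σ t, Place k (K t)) →₀ ℚ} (ha : a ∈ Fil k K κ i)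
    (D : Finset κ) (hD : D.card < i) (f : (κ → Σ t, Place k (K t)) → κ' → Σ t, Place k (K t))
    (hf : ∀ c, (∃ v, ∀ x, f x c = v) ∨ ∃ d ∈ D, ∃ ψ, IsMorP ψ ∧ ∀ x, f x c = ψ (x d)) :
    Finsupp.mapDomain f a ∈ RatU k κ' K := by
  classical
  have h1 := ha D hD
  have hf' : ∀ c, ∃ φ : ({d // d ∈ D} → Σ t, Place k (K t)) → Σ t, Place k (K t),
      ((∃ v, ∀ u, φ u = v) ∨ ∃ d ψ, IsMorP ψ ∧ ∀ u, φ u = ψ (u d)) ∧
        ∀ x, f x c = φ fun d => x d := by
    intro c
    rcases hf c with ⟨v, hv⟩ | ⟨d, hd, ψ, hψ, hv⟩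
    · exact ⟨fun _ => v, Or.inl ⟨v, fun _ => rfl⟩, hv⟩
    · exact ⟨fun u => ψ (u ⟨d, hd⟩), Or.inr ⟨⟨d, hd⟩, ψ, hψ, fun _ => rfl⟩, hv⟩
  choose φ hφ hφf using hf'
  have h2 : f = (fun u c => φ c u) ∘ fun x (c : {c // c ∈ D}) => x c := by
    funext x c
    exact hφf c x
  rw [h2, Finsupp.mapDomain_comp]
  exact RatU.pushM _ hφ h1

end

section

variable {k : Type} [Field k] {T κ : Type} [DecidableEq κ]
  {K : T → Type} [∀ t, Field (K t)] [∀ t, Algebra k (K t)] (ι : ∀ t, K t ≃ₐ[k] K t)

/-- The involutions in a set of coordinates. -/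
noncomputable def flipD (D : Finset κ) (x : κ → Σ t, Place k (K t)) : κ → Σ t, Place k (K t) :=
  fun c => if c ∈ D then flipv ι (x c) else x c

theorem flipv_fst (x : Σ t, Place k (K t)) : (flipv ι x).1 = x.1 := rfl

theorem flipD_fst (D : Finset κ) (x : κ → Σ t, Place k (K t)) (c : κ) :
    (flipD ι D x c).1 = (x c).1 := by
  unfold flipD
  split_ifs <;> rfl

end

section

variable {k : Type} [Field k] [CharZero k] [IsAlgClosed k] {T κ : Type} [Fintype κ]
  [DecidableEq κ] [Fintype T] [DecidableEq T]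
  {K : T → Type} [∀ t, Field (K t)] [∀ t, Algebra k (K t)] [∀ t, IsFF k (K t)]
  (ι : ∀ t, K t ≃ₐ[k] K t)

theorem flip_one (q : κ → T) (b : ∀ t, Place k (K t)) (a : (κ → Σ t, Place k (K t)) →₀ ℚ)
    (ha : OnComp q a)
    (hprim : ∀ b : ∀ t, Place k (K t), ∀ c, Finsupp.mapDomain (rep q b {c}) a ∈ RatU k κ K)
    (c : κ) (hc : IsHyp (ι (q c))) :
    a + Finsupp.mapDomain (flipD ι {c}) a ∈ RatU k κ K := by
  have key : ∀ y : κ → Σ t, Place k (K t), (∀ c, (y c).1 = q c) →
      Finsupp.single y (1 : ℚ) + Finsupp.single (flipD ι {c} y) 1 -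
        Finsupp.single (rep q b {c} y) 1 -
        Finsupp.single (rep q (fun t => (b t).comp (ι t)) {c} y) 1 ∈ RatU k κ K := by
    intro y hy
    obtain ⟨v, hv⟩ : ∃ v : Place k (K (q c)), y c = ⟨q c, v⟩ := by
      have h2 := hy c
      rcases h3 : y c with ⟨s, v⟩
      rw [h3] at h2
      change s = q c at h2
      subst h2
      exact ⟨v, rfl⟩
    let Φ : (Unit → Place k (K (q c))) → κ → Σ t, Place k (K t) := fun u d =>
      if d = c then ⟨q c, u ()⟩ else y d
    have h1 := Rat.toU (k := k) (K := K) (q := fun _ : Unit => q c) Φ (by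
      intro d
      by_cases hd : d = c
      · exact Or.inr ⟨(), fun u => if_pos hd⟩
      · exact Or.inl ⟨y d, fun u => if_neg hd⟩) (hyp_rel hc v (b (q c)))
    have h5 : ∀ x y : (Unit → Place k (K (q c))) →₀ ℚ, Finsupp.mapDomain Φ (x - y) =
      Finsupp.mapDomain Φ x - Finsupp.mapDomain Φ y := fun x y =>
        map_sub (Finsupp.mapDomain.addMonoidHom _) x y
    rw [h5, h5, Finsupp.mapDomain_add] at h1
    simp only [Finsupp.mapDomain_single] at h1
    have e1 : Φ (fun _ => v) = y := by
      funext d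
      simp only [Φ]
      split_ifs with hd
      · rw [hd, hv]
      · rfl
    have e2 : Φ (fun _ => v.comp (ι (q c))) = flipD ι {c} y := by
      funext d
      simp only [Φ, flipD, Finset.mem_singleton]
      split_ifs with hd
      · rw [hd, hv]
        rfl
      · rfl
    have e3 : Φ (fun _ => b (q c)) = rep q b {c} y := by
      funext d
      simp only [Φ, rep, Finset.mem_singleton]
      split_ifs with hd
      · rw [hd]
      · rfl
    have e4 : Φ (fun _ => (b (q c)).comp (ι (q c))) =
        rep q (fun t => (b t).comp (ι t)) {c} y := by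
      funext d
      simp only [Φ, rep, Finset.mem_singleton]
      split_ifs with hd
      · rw [hd]
      · rfl
    rw [e1, e2, e3, e4] at h1
    exact h1
  have h5 : a = ∑ x ∈ a.support, a x • Finsupp.single x (1 : ℚ) := by
    conv_lhs => rw [← Finsupp.sum_single a]
    unfold Finsupp.sum
    exact Finset.sum_congr rfl fun x _ => by rw [Finsupp.smul_single, smul_eq_mul, mul_one]
  have h6 : ∀ f : (κ → Σ t, Place k (K t)) → κ → Σ t, Place k (K t),
      Finsupp.mapDomain f a = ∑ x ∈ a.support, a x • Finsupp.single (f x) (1 : ℚ) := by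
    intro f
    conv_lhs => rw [h5]
    rw [Finsupp.mapDomain_finsetSum]
    refine Finset.sum_congr rfl fun x _ => ?_
    rw [Finsupp.mapDomain_smul, Finsupp.mapDomain_single]
  have h7 : a + Finsupp.mapDomain (flipD ι {c}) a - Finsupp.mapDomain (rep q b {c}) a -
      Finsupp.mapDomain (rep q (fun t => (b t).comp (ι t)) {c}) a ∈ RatU k κ K := by
    have h8 : a + Finsupp.mapDomain (flipD ι {c}) a - Finsupp.mapDomain (rep q b {c}) a -
        Finsupp.mapDomain (rep q (fun t => (b t).comp (ι t)) {c}) a =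
        ∑ x ∈ a.support, a x • (Finsupp.single x (1 : ℚ) + Finsupp.single (flipD ι {c} x) 1 -
        Finsupp.single (rep q b {c} x) 1 -
        Finsupp.single (rep q (fun t => (b t).comp (ι t)) {c} x) 1) := by
      simp only [smul_sub, smul_add, Finset.sum_sub_distrib, Finset.sum_add_distrib]
      rw [← h5, ← h6, ← h6, ← h6]
    rw [h8]
    exact Submodule.sum_mem _ fun x hx => Submodule.smul_mem _ _ (key x (ha x hx))
  have h8 := Submodule.add_mem _ (Submodule.add_mem _ h7 (hprim (fun t => (b t).comp (ι t)) c))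
    (hprim b c)
  have h9 : a + Finsupp.mapDomain (flipD ι {c}) a - Finsupp.mapDomain (rep q b {c}) a -
      Finsupp.mapDomain (rep q (fun t => (b t).comp (ι t)) {c}) a +
      Finsupp.mapDomain (rep q (fun t => (b t).comp (ι t)) {c}) a +
      Finsupp.mapDomain (rep q b {c}) a = a + Finsupp.mapDomain (flipD ι {c}) a := by abel
  rwa [h9] at h8

theorem flip_set (q : κ → T) (D : Finset κ) (hD : ∀ c ∈ D, IsHyp (ι (q c)))
    (a : (κ → Σ t, Place k (K t)) →₀ ℚ) (ha : OnComp q a)
    (hprim : ∀ b : ∀ t, Place k (K t), ∀ c, Finsupp.mapDomain (rep q b {c}) a ∈ RatU k κ K) :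
    Finsupp.mapDomain (flipD ι D) a - ((-1 : ℚ) ^ D.card) • a ∈ RatU k κ K := by
  classical
  have hb : ∀ t, ∃ P : Place k (K t), True := fun t => exists_place
  choose b _ using hb
  induction D using Finset.induction_on with
  | empty =>
    have h1 : flipD ι (∅ : Finset κ) = (id : (κ → Σ t, Place k (K t)) → _) := by
      funext x c
      unfold flipD
      rw [if_neg (Finset.notMem_empty c)]
      rfl
    rw [h1, Finsupp.mapDomain_id, Finset.card_empty, pow_zero, one_smul, sub_self]
    exact Submodule.zero_mem _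
  | insert c D hcD ih =>
    have ih' := ih fun c hc => hD c (Finset.mem_insert_of_mem hc)
    let a' := Finsupp.mapDomain (flipD ι D) a
    have ha' : OnComp q a' := by
      intro x hx c
      obtain ⟨y, hy, rfl⟩ := Finset.mem_image.1 (Finsupp.mapDomain_support hx)
      rw [flipD_fst]
      exact ha y hy c
    have hprim' : ∀ b : ∀ t, Place k (K t), ∀ c,
        Finsupp.mapDomain (rep q b {c}) a' ∈ RatU k κ K := by
      intro b c'
      have h1 : rep q b {c'} ∘ flipD ι D = flipD ι (D.erase c') ∘ rep (K := K) q b {c'} := by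
        funext x d
        simp only [Function.comp_apply, rep, flipD, Finset.mem_singleton, Finset.mem_erase]
        by_cases hd : d = c'
        · simp [hd]
        · simp [hd]
      simp only [a']
      rw [← Finsupp.mapDomain_comp, h1, Finsupp.mapDomain_comp]
      refine RatU.pushM _ (fun d => Or.inr ?_) (hprim b c')
      by_cases hd : d ∈ D.erase c'
      · exact ⟨d, flipv ι, isMorP_flipv ι, fun x => if_pos hd⟩
      · exact ⟨d, id, isMorP_id, fun x => if_neg hd⟩
    have h1 := flip_one ι q b a' ha' hprim' c (hD c (Finset.mem_insert_self c D))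
    have h2 : flipD ι (insert c D) = flipD ι {c} ∘ flipD (K := K) ι D := by
      funext x d
      simp only [Function.comp_apply, flipD, Finset.mem_singleton, Finset.mem_insert]
      by_cases hd : d = c
      · subst hd
        simp [hcD]
      · simp [hd]
    rw [h2, Finsupp.mapDomain_comp, Finset.card_insert_of_notMem hcD, pow_succ]
    have h3 := Submodule.sub_mem _ h1 ih'
    have h4 : a' + Finsupp.mapDomain (flipD ι {c}) a' -
        (Finsupp.mapDomain (flipD ι D) a - ((-1 : ℚ) ^ D.card) • a) =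
        Finsupp.mapDomain (flipD ι {c}) a' - ((-1 : ℚ) ^ D.card * -1) • a := by
      simp only [a']
      module
    rwa [h4] at h3

end

section

variable {k : Type} [Field k] [CharZero k] [IsAlgClosed k] {T κ κ' : Type} [Fintype κ]
  [DecidableEq κ] [Fintype κ'] [DecidableEq κ'] [Fintype T] [DecidableEq T]
  {K : T → Type} [∀ t, Field (K t)] [∀ t, Algebra k (K t)] [∀ t, IsFF k (K t)]

/-- Correspondences which vanish on the holomorphic `i`-forms map the `i`-th step of the
filtration to the next one (version with involutions). -/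
theorem gradedS (ι : ∀ t, K t ≃ₐ[k] K t) {J : Type} [Fintype J] (q : κ → T) (q' : κ' → T)
    (ζ : J → ℚ) (s : J → κ' → Option κ) (hs : ∀ j c d, s j c = some d → q d = q' c)
    (ε : J → κ' → Bool) (hε : ∀ j c, ε j c = true → IsHyp (ι (q' c)))
    (e : J → κ' → Σ t, Place k (K t)) (i : ℕ)
    (hform : ∀ (α' : Fin i → κ' × Σ t, Fin (genus k (K t)))
      (α : Fin i → κ × Σ t, Fin (genus k (K t))), IsForm q' α' → IsForm q α →
        ∑ j, ζ j * coefS (s j) (ε j) α' α = 0)
    (a : (κ → Σ t, Place k (K t)) →₀ ℚ) (ha : OnComp q a) (hF : a ∈ Fil k K κ i) :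
    ∑ j, ζ j • Finsupp.mapDomain (movS ι (s j) (ε j) (e j)) a ∈ Fil k K κ' (i + 1) := by
  classical
  intro S hS
  rw [Finsupp.mapDomain_finsetSum]
  have h1 : ∀ j, Finsupp.mapDomain (fun x (c : {c // c ∈ S}) => x c)
      (ζ j • Finsupp.mapDomain (movS ι (s j) (ε j) (e j)) a) =
      ζ j • Finsupp.mapDomain (fun x (c : {c // c ∈ S}) => movS ι (s j) (ε j) (e j) x c) a := by
    intro j
    rw [Finsupp.mapDomain_smul, ← Finsupp.mapDomain_comp]
    rfl
  rw [Finset.sum_congr rfl fun j _ => h1 j]
  -- few coordinates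
  have hfew : ∀ j, (img (s j) S).card < i →
      Finsupp.mapDomain (fun x (c : {c // c ∈ S}) => movS ι (s j) (ε j) (e j) x c) a ∈
        RatU k {c // c ∈ S} K := by
    intro j hj
    refine Fil.push_of_factorM hF (img (s j) S) hj _ fun c => ?_
    rcases hsc : s j c.1 with _ | d
    · refine Or.inl ⟨if ε j c then flipv ι (e j c.1) else e j c.1, fun x => ?_⟩
      simp only [movS, mov, hsc]
    · by_cases hec : ε j c = true
      · refine Or.inr ⟨d, mem_img.2 ⟨c.1, c.2, hsc⟩, flipv ι, isMorP_flipv ι, fun x => ?_⟩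
        simp only [movS, mov, hsc, hec, if_true]
      · refine Or.inr ⟨d, mem_img.2 ⟨c.1, c.2, hsc⟩, id, isMorP_id, fun x => ?_⟩
        simp only [movS, mov, hsc, hec, id]
        rfl
  rw [← Finset.sum_fiberwise_of_maps_to (s := Finset.univ) (t := (Finset.univ : Finset (Finset κ)))
    (g := fun j => img (s j) S) (fun j _ => Finset.mem_univ _)]
  refine Submodule.sum_mem _ fun D _ => ?_
  by_cases hD : D.card < i
  · refine Submodule.sum_mem _ fun j hj => Submodule.smul_mem _ _ (hfew j ?_)
    rw [(Finset.mem_filter.1 hj).2]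
    exact hD
  by_cases hD' : D.card = i ∧ S.card = i
  swap
  · rw [Finset.filter_false_of_mem, Finset.sum_empty]
    · exact Submodule.zero_mem _
    · intro j _ hj
      have h2 := card_img_le (s j) S
      rw [hj] at h2
      apply hD'
      omega
  obtain ⟨hDi, hSi⟩ := hD'
  let E : J → Finset {c // c ∈ S} := fun j => Finset.univ.filter fun c => ε j c.1 = true
  have h2 := block S q q' (fun j => ζ j * (-1) ^ (E j).card) s hs e i (by
    intro α' α hα' hα hS'
    rw [← hform α' α hα' hα]
    refine Finset.sum_congr rfl fun j _ => ?_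
    unfold coefS
    rw [mul_assoc]
    congr 2
    -- the sign
    have h3 : Function.Bijective (fun l => (⟨(α' l).1, hS' l⟩ : {c // c ∈ S})) := by
      rw [Fintype.bijective_iff_injective_and_card]
      refine ⟨fun l l' h => hα'.1 (congrArg Subtype.val h), ?_⟩
      rw [Fintype.card_fin, Fintype.card_coe, hSi]
    have h4 : ∏ l, (if ε j (α' l).1 then (-1 : ℚ) else 1) =
        ∏ c : {c // c ∈ S}, (if ε j c.1 then (-1 : ℚ) else 1) :=
      Fintype.prod_bijective _ h3 _ _ fun l => rfl
    rw [h4, Finset.prod_ite, Finset.prod_const, Finset.prod_const_one, mul_one]) a ha hF hSi D hDi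
  have h3 : ∀ j ∈ Finset.univ.filter (fun j => img (s j) S = D),
      Finsupp.mapDomain (fun x (c : {c // c ∈ S}) => movS ι (s j) (ε j) (e j) x c) a -
        ((-1 : ℚ) ^ (E j).card) •
          Finsupp.mapDomain (fun x (c : {c // c ∈ S}) => mov (s j) (e j) x c) a ∈
            RatU k {c // c ∈ S} K := by
    intro j hj
    have hj' := (Finset.mem_filter.1 hj).2
    obtain ⟨β, hβ⟩ := exists_equiv (s j) S (by rw [hj', hDi, hSi])
    have hmov : ∀ (x : κ → Σ t, Place k (K t)) (c : {c // c ∈ S}),
        mov (s j) (e j) x c = x (β c).1 := by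
      intro x c
      simp only [mov]
      rw [hβ c]
    have h4 : (fun (x : κ → Σ t, Place k (K t)) (c : {c // c ∈ S}) =>
        movS ι (s j) (ε j) (e j) x c) =
        flipD ι (E j) ∘ fun x (c : {c // c ∈ S}) => mov (s j) (e j) x c := by
      funext x c
      simp only [Function.comp_apply, flipD, movS, E, Finset.mem_filter, Finset.mem_univ,
        true_and]
    rw [h4, Finsupp.mapDomain_comp]
    refine flip_set ι (fun c : {c // c ∈ S} => q' c.1) (E j) (fun c hc => ?_) _ ?_ ?_
    · exact hε j c.1 (Finset.mem_filter.1 hc).2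
    · intro x hx c
      obtain ⟨y, hy, rfl⟩ := Finset.mem_image.1 (Finsupp.mapDomain_support hx)
      have h5 := hmov y c
      simp only
      rw [h5]
      exact (ha y hy _).trans (hs j _ _ (hβ c))
    · intro b c
      rw [← Finsupp.mapDomain_comp]
      refine Fil.push_of_factor hF (D.erase (β c).1) ?_ _ ?_
      · have h5 : (β c).1 ∈ D := by
          rw [← hj']
          exact (β c).2
        rw [Finset.card_erase_of_mem h5, hDi]
        have h6 : 0 < S.card := Finset.card_pos.2 ⟨c.1, c.2⟩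
        omega
      · intro c'
        by_cases hc : c' = c
        · left
          refine ⟨⟨q' c'.1, b (q' c'.1)⟩, fun x => ?_⟩
          simp only [Function.comp_apply, rep]
          rw [if_pos (Finset.mem_singleton.2 hc)]
        · right
          refine ⟨(β c').1, Finset.mem_erase.2 ⟨?_, ?_⟩, fun x => ?_⟩
          · intro h
            exact hc (β.injective (Subtype.ext h))
          · rw [← hj']
            exact (β c').2
          · simp only [Function.comp_apply, rep]
            rw [if_neg (fun h => hc (Finset.mem_singleton.1 h)), hmov]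
  have h4 : ∑ j ∈ Finset.univ.filter (fun j => img (s j) S = D), ζ j •
      (Finsupp.mapDomain (fun x (c : {c // c ∈ S}) => movS ι (s j) (ε j) (e j) x c) a -
        ((-1 : ℚ) ^ (E j).card) •
          Finsupp.mapDomain (fun x (c : {c // c ∈ S}) => mov (s j) (e j) x c) a) ∈
            RatU k {c // c ∈ S} K :=
    Submodule.sum_mem _ fun j hj => Submodule.smul_mem _ _ (h3 j hj)
  have h5 := Submodule.add_mem _ h4 h2
  rw [← Finset.sum_add_distrib] at h5
  have h6 : ∀ j ∈ Finset.univ.filter (fun j => img (s j) S = D), ζ j •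
      Finsupp.mapDomain (fun x (c : {c // c ∈ S}) => movS ι (s j) (ε j) (e j) x c) a =
      ζ j •
      (Finsupp.mapDomain (fun x (c : {c // c ∈ S}) => movS ι (s j) (ε j) (e j) x c) a -
        ((-1 : ℚ) ^ (E j).card) •
          Finsupp.mapDomain (fun x (c : {c // c ∈ S}) => mov (s j) (e j) x c) a) +
      (ζ j * (-1) ^ (E j).card) •
        Finsupp.mapDomain (fun x (c : {c // c ∈ S}) => mov (s j) (e j) x c) a := by
    intro j _
    module
  rw [Finset.sum_congr rfl h6]
  exact h5

end

end Pool.Agent.Y107.VC
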