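import Pool.Agent.Y107.VC.Main
import Pool.Agent.Y107.VC.Comb

/-!
# Voisin's conjecture for products of symmetric powers of curves
-/

set_option autoImplicit false
set_option maxHeartbeats 400000

namespace Pool.Agent.Y107.VC

open FF Equiv

section

variable {k : Type} [Field k] [CharZero k] [IsAlgClosed k] {T κ : Type} [Fintype κ]
  [DecidableEq κ] [Fintype T] [DecidableEq T]
  {K : T → Type} [∀ t, Field (K t)] [∀ t, Algebra k (K t)] [∀ t, IsFF k (K t)]

/-- The main theorem for an indexed family of permutations. -/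
theorem mainI {J : Type} [Fintype J] (P : J → Perm κ) (ζ : J → ℚ) (q : κ → T)
    (b : ∀ t, Place k (K t)) (hz : ∀ s, ζ s ≠ 0 → ∀ c, q (P s c) = q c)
    (hvan : ∀ c : κ → Σ t, Fin (genus k (K t)), (∀ j, (c j).1 = q j) →
      ∀ Y : (Σ t, Fin (genus k (K t))) → κ → ℚ,
        ∑ s, (((Perm.sign (P s) : ℤ) : ℚ) * ζ s) * ∏ j, Y (c j) (P s j) = 0)
    (a : (κ → Σ t, Place k (K t)) →₀ ℚ) (ha : ∀ x ∈ a.support, ∀ c, (x c).1 = q c)
    (hprim : ∀ c, Finsupp.mapDomain (rep q b {c}) a ∈ RatU k κ K) :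
    ∑ s, ζ s • pm (P s) a ∈ RatU k κ K := by
  have h1 := mainU q b (fun π => ∑ s, if P s = π then ζ s else 0) (by
    intro π hπ c
    obtain ⟨s, -, hs⟩ := Finset.exists_ne_zero_of_sum_ne_zero hπ
    by_cases h2 : P s = π
    · rw [if_pos h2] at hs
      rw [← h2]
      exact hz s hs c
    · rw [if_neg h2] at hs
      exact absurd rfl hs) (by
    intro c hc Y
    refine Eq.trans ?_ (hvan c hc Y)
    simp only [Finset.mul_sum, Finset.sum_mul]
    rw [Finset.sum_comm]
    refine Finset.sum_congr rfl fun s _ => ?_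
    rw [Finset.sum_eq_single (P s)]
    · rw [if_pos rfl]
    · intro π _ hπ
      rw [if_neg hπ.symm, mul_zero, zero_mul]
    · intro h
      exact absurd (Finset.mem_univ _) h) a ha hprim
  refine (Eq.subst (motive := fun x => x ∈ RatU k κ K) ?_ h1)
  simp only [Finset.sum_smul]
  rw [Finset.sum_comm]
  refine Finset.sum_congr rfl fun s _ => ?_
  rw [Finset.sum_eq_single (P s)]
  · rw [if_pos rfl]
  · intro π _ hπ
    rw [if_neg hπ.symm, zero_smul]
  · intro h
    exact absurd (Finset.mem_univ _) h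

end

section

theorem ext_apply {n : ℕ} {I : Type} {P : I → Type} (a : Fin n → (∀ i, P i) →₀ ℚ)
    (x : ∀ p : Fin n × I, P p.2) : ext a x = ∏ j, a j fun i => x (j, i) := rfl

/-- Insertion of a point in the `j`-th factor. -/
def ins {n : ℕ} {I : Type} {P : I → Type} (j : Fin n) (y : {i // i ≠ j} → ∀ i, P i)
    (x : ∀ i, P i) : ∀ p : Fin n × I, P p.2 :=
  fun p => if h : p.1 ≠ j then y ⟨p.1, h⟩ p.2 else x p.2

theorem ext_eq_ins {n : ℕ} {I : Type} {P : I → Type} (a : Fin n → (∀ i, P i) →₀ ℚ) (j : Fin n) :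
    ext a = ∑ y ∈ Fintype.piFinset fun i : {i // i ≠ j} => (a i).support,
      (∏ i : {i // i ≠ j}, a i (y i)) • Finsupp.mapDomain (ins j y) (a j) := by
  classical
  ext x
  rw [Finsupp.finsetSum_apply, ext_apply]
  let y0 : {i // i ≠ j} → ∀ i, P i := fun i e => x (i, e)
  have hinj : ∀ y : {i // i ≠ j} → ∀ i, P i, Function.Injective (ins j y) := by
    intro y u v huv
    funext e
    have h1 := congrFun huv (j, e)
    unfold ins at h1
    simpa using h1
  have hx : x = ins j y0 fun e => x (j, e) := by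
    funext p
    unfold ins
    split_ifs with h
    · rfl
    · push Not at h
      rcases p with ⟨p1, p2⟩
      subst h
      rfl
  have h2 : ∏ i, a i (fun e => x (i, e)) =
      a j (fun e => x (j, e)) * ∏ i : {i // i ≠ j}, a i (y0 i) := by
    rw [← Finset.mul_prod_erase _ _ (Finset.mem_univ j)]
    congr 1
    rw [← Finset.prod_subtype (Finset.univ.erase j) (p := fun i => i ≠ j) (by
      intro i
      simp) (fun i => a i (fun e => x (i, e)))]
  rw [h2, Finset.sum_eq_single y0]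
  · rw [Finsupp.smul_apply, smul_eq_mul, mul_comm]
    congr 1
    conv_rhs => rw [hx]
    rw [Finsupp.mapDomain_apply (hinj y0)]
  · intro y _ hy
    rw [Finsupp.smul_apply, Finsupp.mapDomain_of_notMem_range, smul_zero]
    rintro ⟨u, hu⟩
    apply hy
    funext i e
    have h3 := congrFun hu (i.1, e)
    unfold ins at h3
    rw [dif_pos i.2] at h3
    exact h3
  · intro h
    rw [Fintype.mem_piFinset] at h
    push Not at h
    obtain ⟨i, hi⟩ := h
    rw [Finsupp.notMem_support_iff] at hi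
    rw [Finset.prod_eq_zero (Finset.mem_univ i) hi, zero_smul]
    rfl

end

section

variable {k : Type} [Field k] [CharZero k] [IsAlgClosed k] {T : Type} [Fintype T] [DecidableEq T]
  {K : T → Type} [∀ t, Field (K t)] [∀ t, Algebra k (K t)] [∀ t, IsFF k (K t)]

/-- The words of the points of a product. -/
def psi {κ : Type} {q : κ → T} (x : ∀ p, Place k (K (q p))) : κ → Σ t, Place k (K t) :=
  fun p => ⟨q p, x p⟩

theorem compq_psi {κ : Type} {q : κ → T} (c : (∀ p, Place k (K (q p))) →₀ ℚ) :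
    compq q (Finsupp.mapDomain psi c) = c := by
  induction c using Finsupp.induction_linear with
  | zero => rw [Finsupp.mapDomain_zero, map_zero]
  | add a b ha hb => rw [Finsupp.mapDomain_add, map_add, ha, hb]
  | single x r =>
    rw [Finsupp.mapDomain_single, compq_single]
    unfold comp0
    have h : ∀ i, (psi (q := q) x i).1 = q i := fun _ => rfl
    rw [dif_pos h, Finsupp.smul_single, smul_eq_mul, mul_one]
    rfl

theorem voisin (d : T → ℕ) (n : ℕ) (hn : ∏ t, (genus k (K t)).choose (d t) < n)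
    (a : Fin n → (∀ i : Σ t, Fin (d t), Place k (K i.1)) →₀ ℚ)
    (hsym : ∀ (j : Fin n) (τ : ∀ t, Perm (Fin (d t))),
      Finsupp.mapDomain (fun x (i : Σ t, Fin (d t)) => x ⟨i.1, τ i.1 i.2⟩) (a j) = a j)
    (hprim : ∀ (j : Fin n) (e : Σ t, Fin (d t)),
      Finsupp.mapDomain (fun x (i : {i // i ≠ e}) => x i.1) (a j) ∈
        Rat k fun i : {i // i ≠ e} => K i.1.1) :
    ∑ σ : Perm (Fin n), ((Perm.sign σ : ℤ) : ℚ) ^ (∑ t, d t + 1) •
      ext (P := fun i : Σ t, Fin (d t) => Place k (K i.1)) (fun j => a (σ j)) ∈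
        Rat k fun p : Fin n × Σ t, Fin (d t) => K p.2.1 := by
  classical
  have hb : ∀ t, ∃ P : Place k (K t), True := fun t => exists_place
  choose b _ using hb
  let κ := Fin n × Σ t, Fin (d t)
  let q : κ → T := fun p => p.2.1
  let J := Perm (Fin n) × (Fin n → ∀ t, Perm (Fin (d t)))
  let ζ : J → ℚ := fun s => ((Perm.sign s.1 : ℤ) : ℚ) ^ (∑ t, d t + 1)
  let X := ∀ i : Σ t, Fin (d t), Place k (K i.1)
  let E : (∀ p : κ, Place k (K p.2.1)) →₀ ℚ :=
    ext (P := fun i : Σ t, Fin (d t) => Place k (K i.1)) a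
  let A : (κ → Σ t, Place k (K t)) →₀ ℚ := Finsupp.mapDomain (psi (q := q)) E
  have hA : ∀ x ∈ A.support, ∀ c, (x c).1 = q c := by
    intro x hx c
    obtain ⟨y, -, rfl⟩ := Finset.mem_image.1 (Finsupp.mapDomain_support hx)
    rfl
  have hAprim : ∀ c, Finsupp.mapDomain (rep q b {c}) A ∈ RatU k κ K := by
    rintro ⟨j, e⟩
    have h1 : A = ∑ y ∈ Fintype.piFinset fun i : {i // i ≠ j} => (a i).support,
        (∏ i : {i // i ≠ j}, a i (y i)) • Finsupp.mapDomain (psi (q := q))
          (Finsupp.mapDomain (ins (P := fun i : Σ t, Fin (d t) => Place k (K i.1)) j y)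
            (a j)) := by
      have h2 : E = _ := ext_eq_ins (P := fun i : Σ t, Fin (d t) => Place k (K i.1)) a j
      simp only [A]
      rw [h2, Finsupp.mapDomain_finsetSum]
      exact Finset.sum_congr rfl fun y _ => Finsupp.mapDomain_smul _ _
    rw [h1, Finsupp.mapDomain_finsetSum]
    refine Submodule.sum_mem _ fun y _ => ?_
    rw [Finsupp.mapDomain_smul]
    refine Submodule.smul_mem _ _ ?_
    rw [← Finsupp.mapDomain_comp, ← Finsupp.mapDomain_comp]
    let Φ : (∀ i : {i // i ≠ e}, Place k (K i.1.1)) → κ → Σ t, Place k (K t) := fun u p =>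
      if h : p.1 ≠ j then ⟨p.2.1, y ⟨p.1, h⟩ p.2⟩ else
        if h' : p.2 ≠ e then ⟨p.2.1, u ⟨p.2, h'⟩⟩ else ⟨q (j, e), b (q (j, e))⟩
    have h2 : (rep q b {((j, e) : κ)} ∘ psi (q := q)) ∘
        ins (P := fun i : Σ t, Fin (d t) => Place k (K i.1)) j y =
        Φ ∘ fun x (i : {i // i ≠ e}) => x i.1 := by
      funext x p
      rcases p with ⟨p1, p2⟩
      simp only [Function.comp_apply, rep, psi, ins, Φ, Finset.mem_singleton, Prod.mk.injEq]
      by_cases hp1 : p1 ≠ j
      · rw [if_neg (fun h => hp1 (congrArg Prod.fst h)), dif_pos hp1, dif_pos hp1]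
      · rw [dif_neg hp1, dif_neg hp1]
        push Not at hp1
        subst hp1
        by_cases hp2 : p2 ≠ e
        · rw [if_neg (fun h => hp2 (congrArg Prod.snd h)), dif_pos hp2]
        · rw [dif_neg hp2]
          push Not at hp2
          subst hp2
          rw [if_pos rfl]
    rw [h2, Finsupp.mapDomain_comp]
    refine Rat.toU (k := k) (K := K) (q := fun i : {i // i ≠ e} => i.1.1) Φ ?_ (hprim j e)
    rintro ⟨p1, p2⟩
    by_cases hp1 : p1 ≠ j
    · exact Or.inl ⟨⟨p2.1, y ⟨p1, hp1⟩ p2⟩, fun u => dif_pos hp1⟩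
    · by_cases hp2 : p2 ≠ e
      · refine Or.inr ⟨⟨p2, hp2⟩, fun u => ?_⟩
        simp only [Φ]
        rw [dif_neg hp1, dif_pos hp2]
      · refine Or.inl ⟨⟨q (j, e), b (q (j, e))⟩, fun u => ?_⟩
        simp only [Φ]
        rw [dif_neg hp1, dif_neg hp2]
  have h1 := mainI (k := k) (K := K) (fun s : J => PP s) ζ q b (fun s _ c => rfl) (by
    intro c hc Y
    rw [← van_alt hn c hc Y]
    refine Finset.sum_congr rfl fun s _ => ?_
    congr 1
    rw [sign_PP]
    simp only [ζ]
    push_cast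
    have h2 : ((Perm.sign s.1 : ℤ) : ℚ) ^ (∑ t, d t) * ((Perm.sign s.1 : ℤ) : ℚ) ^ (∑ t, d t) =
        1 := by
      rw [← mul_pow, sgn_sq, one_pow]
    rw [pow_succ]
    linear_combination (((Perm.sign s.1 : ℤ) : ℚ) *
      ∏ j, ∏ t, ((Perm.sign (s.2 j t) : ℤ) : ℚ)) * h2) A hA hAprim
  have h2 : ∀ s : J, pm (PP s) A = Finsupp.mapDomain (psi (q := q))
      (ext (P := fun i : Σ t, Fin (d t) => Place k (K i.1)) (fun j => a (s.1 j))) := by
    intro s
    let Ps : (∀ p : κ, Place k (K p.2.1)) → ∀ p : κ, Place k (K p.2.1) := fun x p =>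
      x (s.1 p.1, ⟨p.2.1, s.2 p.1 p.2.1 p.2.2⟩)
    have hPs : Function.Surjective Ps := by
      intro x
      refine ⟨fun p => x (s.1.symm p.1, ⟨p.2.1, (s.2 (s.1.symm p.1) p.2.1).symm p.2.2⟩), ?_⟩
      funext p
      rcases p with ⟨p1, ⟨p2, p3⟩⟩
      simp only [Ps]
      have h3 : ∀ (j : Fin n) (hj : j = p1), x (j, ⟨p2, (s.2 j p2).symm (s.2 p1 p2 p3)⟩) =
          x (p1, ⟨p2, p3⟩) := by
        rintro j rfl
        rw [symm_apply_apply]
      exact h3 _ (s.1.symm_apply_apply p1)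
    have hPi : Function.Injective Ps := by
      intro x y hxy
      funext p
      rcases p with ⟨p1, ⟨p2, p3⟩⟩
      have h3 := congrFun hxy (s.1.symm p1, ⟨p2, (s.2 (s.1.symm p1) p2).symm p3⟩)
      simp only [Ps] at h3
      have h4 : ∀ (j : Fin n) (hj : j = p1) (z : Fin (d p2)) (hz : z = p3),
          x (j, ⟨p2, z⟩) = y (j, ⟨p2, z⟩) → x (p1, ⟨p2, p3⟩) = y (p1, ⟨p2, p3⟩) := by
        rintro j rfl z rfl h
        exact h
      exact h4 _ (s.1.apply_symm_apply p1) _ ((s.2 (s.1.symm p1) p2).apply_symm_apply p3) h3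
    have h3 : Finsupp.mapDomain Ps E =
        ext (P := fun i : Σ t, Fin (d t) => Place k (K i.1)) (fun j => a (s.1 j)) := by
      ext z
      obtain ⟨x, rfl⟩ := hPs z
      rw [Finsupp.mapDomain_apply hPi]
      change ∏ j, a j (fun i => x (j, i)) = ∏ j, a (s.1 j) (fun i => Ps x (j, i))
      rw [← Equiv.prod_comp s.1]
      refine Finset.prod_congr rfl fun j _ => ?_
      have h5 := hsym (s.1 j) (s.2 j)
      have h6 : Function.Injective (fun (x : X) (i : Σ t, Fin (d t)) =>
          x ⟨i.1, s.2 j i.1 i.2⟩) := by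
        intro u v huv
        funext i
        rcases i with ⟨t, i⟩
        have h7 := congrFun huv ⟨t, (s.2 j t).symm i⟩
        simp only at h7
        have h8 : ∀ (z : Fin (d t)) (hz : z = i), u ⟨t, z⟩ = v ⟨t, z⟩ →
            u ⟨t, i⟩ = v ⟨t, i⟩ := by
          rintro z rfl h
          exact h
        exact h8 _ ((s.2 j t).apply_symm_apply i) h7
      conv_rhs => rw [← h5]
      exact (Finsupp.mapDomain_apply h6 (a (s.1 j)) (fun i => x (s.1 j, i))).symm
    rw [← h3]
    simp only [A]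
    unfold pm
    rw [Finsupp.lmapDomain_apply, ← Finsupp.mapDomain_comp, ← Finsupp.mapDomain_comp]
    rfl
  have h3 : ∑ s : J, ζ s • pm (PP s) A =
      (Fintype.card (Fin n → ∀ t, Perm (Fin (d t))) : ℚ) •
        Finsupp.mapDomain (psi (q := q)) (∑ σ : Perm (Fin n),
          ((Perm.sign σ : ℤ) : ℚ) ^ (∑ t, d t + 1) •
            ext (P := fun i : Σ t, Fin (d t) => Place k (K i.1)) (fun j => a (σ j))) := by
    rw [Fintype.sum_prod_type, Finsupp.mapDomain_finsetSum, Finset.smul_sum]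
    refine Finset.sum_congr rfl fun σ _ => ?_
    simp only [h2, ζ]
    rw [Finset.sum_const, Finset.card_univ, Finsupp.mapDomain_smul, Nat.cast_smul_eq_nsmul]
  rw [h3] at h1
  have h4 : (Fintype.card (Fin n → ∀ t, Perm (Fin (d t))) : ℚ) ≠ 0 := by
    exact_mod_cast Fintype.card_ne_zero
  have h5 := Submodule.smul_mem _ (Fintype.card (Fin n → ∀ t, Perm (Fin (d t))) : ℚ)⁻¹ h1
  rw [smul_smul, inv_mul_cancel₀ h4, one_smul] at h5
  have h6 := RatU.comp q h5
  rw [compq_psi] at h6
  exact h6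

theorem voisin' (d : T → ℕ) (n : ℕ) (hn : ∏ t, (genus k (K t)).choose (d t) < n)
    (a : Fin n → Pts k K d →₀ ℚ) (hsym : ∀ j, Symm (a j)) (hprim : ∀ j, Primitive (a j)) :
    altExt (∑ t, d t + 1) a ∈ Rat k fun p : Fin n × Σ t, Fin (d t) => K p.2.1 :=
  voisin d n hn a hsym hprim

end

end Pool.Agent.Y107.VC
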